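import Pool.Agent.Lib.MP_a9d022_lc.Agp.Defs

/-! # Many squares or many central involutions -/

set_option autoImplicit false

namespace Pool.Agent.AgpSsp

variable {G : Type} [Group G] {r : ℕ}

/-- the value of a list of letters -/
def lval (X : Fin r → G) (l : List (Fin r × Bool)) : G :=
  (l.map fun c => if c.2 then (X c.1)⁻¹ else X c.1).prod

theorem mem_ball {X : Fin r → G} {N : ℕ} {g : G} : g ∈ Ball X N ↔ ∃ l, l.length ≤ N ∧ g = lval X l := Iff.rfl

/-- Row D1 -/
theorem one_mem_ball (X : Fin r → G) (N : ℕ) : (1 : G) ∈ Ball X N :=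
  mem_ball.2 ⟨[], Nat.zero_le _, rfl⟩

/-- Row D1 -/
theorem ball_mono (X : Fin r → G) {M N : ℕ} (h : M ≤ N) : Ball X M ⊆ Ball X N := by
  intro g hg
  obtain ⟨l, hl, e⟩ := mem_ball.1 hg
  exact mem_ball.2 ⟨l, hl.trans h, e⟩

private theorem D1_append (X : Fin r → G) (l l' : List (Fin r × Bool)) :
    lval X (l ++ l') = lval X l * lval X l' := by
  unfold lval
  rw [List.map_append, List.prod_append]

private theorem D1_inv (X : Fin r → G) (l : List (Fin r × Bool)) :
    lval X (l.map fun c => (c.1, !c.2)).reverse = (lval X l)⁻¹ := by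
  induction l with
  | nil =>
    show (1 : G) = 1⁻¹
    rw [inv_one]
  | cons c l ih =>
    have h1 : (List.map (fun c : Fin r × Bool => (c.1, !c.2)) (c :: l)).reverse =
        (List.map (fun c : Fin r × Bool => (c.1, !c.2)) l).reverse ++ [(c.1, !c.2)] := by
      rw [List.map_cons, List.reverse_cons]
    have h2 : lval X (c :: l) = (if c.2 then (X c.1)⁻¹ else X c.1) * lval X l := by
      unfold lval
      rw [List.map_cons, List.prod_cons]
    have h3 : lval X [(c.1, !c.2)] = (if c.2 then (X c.1)⁻¹ else X c.1)⁻¹ := by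
      show (if !c.2 then (X c.1)⁻¹ else X c.1) * 1 = _
      rcases c with ⟨i, b⟩
      cases b <;> simp
    rw [h1, D1_append, ih, h2, h3, mul_inv_rev]

/-- Row D1 -/
theorem mul_mem_ball {X : Fin r → G} {M N : ℕ} {g h : G} (hg : g ∈ Ball X M) (hh : h ∈ Ball X N) :
    g * h ∈ Ball X (M + N) := by
  obtain ⟨l, hl, e⟩ := mem_ball.1 hg
  obtain ⟨l', hl', e'⟩ := mem_ball.1 hh
  refine mem_ball.2 ⟨l ++ l', ?_, ?_⟩
  · rw [List.length_append]
    exact Nat.add_le_add hl hl'
  · rw [D1_append, e, e']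

/-- Row D1 -/
theorem inv_mem_ball {X : Fin r → G} {N : ℕ} {g : G} (hg : g ∈ Ball X N) : g⁻¹ ∈ Ball X N := by
  obtain ⟨l, hl, e⟩ := mem_ball.1 hg
  refine mem_ball.2 ⟨(l.map fun c => (c.1, !c.2)).reverse, ?_, ?_⟩
  · rw [List.length_reverse, List.length_map]
    exact hl
  · rw [D1_inv, e]

/-- the value of a letter or of the empty letter -/
private def D1_v (X : Fin r → G) : Option (Fin r × Bool) → G
  | none => 1
  | some c => if c.2 then (X c.1)⁻¹ else X c.1

private theorem D1_prod (X : Fin r → G) (N : ℕ) : ∀ l : List (Fin r × Bool), l.length ≤ N →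
    ∃ f : Fin N → Option (Fin r × Bool), (List.ofFn fun i => D1_v X (f i)).prod = lval X l := by
  induction N with
  | zero =>
    intro l hl
    have h : l = [] := List.length_eq_zero_iff.1 (Nat.le_zero.1 hl)
    subst h
    exact ⟨fun _ => none, by simp [lval]⟩
  | succ N ih =>
    intro l hl
    rcases l with _ | ⟨c, l⟩
    · obtain ⟨f, hf⟩ := ih [] (Nat.zero_le _)
      refine ⟨Fin.cons none f, ?_⟩
      rw [List.ofFn_succ, List.prod_cons]
      simp only [Fin.cons_zero, Fin.cons_succ]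
      rw [hf]
      exact one_mul _
    · obtain ⟨f, hf⟩ := ih l (Nat.le_of_succ_le_succ hl)
      refine ⟨Fin.cons (some c) f, ?_⟩
      rw [List.ofFn_succ, List.prod_cons]
      simp only [Fin.cons_zero, Fin.cons_succ]
      rw [hf]
      unfold lval
      rw [List.map_cons, List.prod_cons]
      rfl

/-- Row D1. `Ball X N` is the image of the words of length exactly `N` over the alphabet
`Option (Fin r × Bool)` with `2 * r + 1 ≤ 2 ^ (r + 1)` letters. -/
theorem ball_finite (X : Fin r → G) (N : ℕ) : (Ball X N).Finite ∧ (Ball X N).ncard ≤ 2 ^ ((r + 1) * N) := by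
  have hsub : Ball X N ⊆ (fun f : Fin N → Option (Fin r × Bool) => (List.ofFn fun i => D1_v X (f i)).prod) ''
      Set.univ := by
    intro g hg
    obtain ⟨l, hl, e⟩ := mem_ball.1 hg
    obtain ⟨f, hf⟩ := D1_prod X N l hl
    exact ⟨f, Set.mem_univ _, hf.trans e.symm⟩
  have hfin : ((fun f : Fin N → Option (Fin r × Bool) => (List.ofFn fun i => D1_v X (f i)).prod) ''
      Set.univ).Finite := Set.finite_univ.image _
  refine ⟨hfin.subset hsub, ?_⟩
  refine (Set.ncard_le_ncard hsub hfin).trans ((Set.ncard_image_le Set.finite_univ).trans ?_)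
  rw [Set.ncard_univ, Nat.card_eq_fintype_card, Fintype.card_fun, Fintype.card_fin, Fintype.card_option,
    Fintype.card_prod, Fintype.card_fin, Fintype.card_bool, pow_mul]
  refine Nat.pow_le_pow_left ?_ N
  have h1 : ∀ r : ℕ, r * 2 + 1 ≤ 2 ^ (r + 1) := by
    intro r
    induction r with
    | zero => norm_num
    | succ r ih =>
      rw [pow_succ]
      have h2 : 1 ≤ 2 ^ (r + 1) := Nat.one_le_two_pow
      have h3 : 2 ≤ 2 ^ (r + 1) := by
        rw [pow_succ]
        have : 1 ≤ 2 ^ r := Nat.one_le_two_pow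
        omega
      omega
  exact h1 r

/-- the squares of the elements of the ball -/
def Sq (X : Fin r → G) (N : ℕ) : Set G := (fun g => g * g) '' Ball X N

/-- the central elements `g` with `g * g = 1` in the ball -/
def Wb (X : Fin r → G) (N : ℕ) : Set G := {g | g ∈ Ball X N ∧ g ∈ Subgroup.center G ∧ g * g = 1}

/-- Row D2. If `(g y)² = (h y)²` for `y = 1` and for all generators `y` then `f = g⁻¹ h` is central and
`f² = 1`: for each such `y`, `(g y) (g y) = (g f y) (g f y)` gives `f (y g) f = y g`, i.e.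
`(y g)⁻¹ f (y g) = f⁻¹`; `y = 1` gives `g⁻¹ f g = f⁻¹`, hence `y⁻¹ f y = g (…) g⁻¹ = f`, so `f` commutes
with all generators and is central, and then `f = g⁻¹ f g = f⁻¹`. -/
theorem central_of_squares (X : Fin r → G) (hX : Subgroup.closure (Set.range X) = ⊤) {g h : G}
    (h1 : g * g = h * h) (h2 : ∀ i, (g * X i) * (g * X i) = (h * X i) * (h * X i)) :
    g⁻¹ * h ∈ Subgroup.center G ∧ (g⁻¹ * h) * (g⁻¹ * h) = 1 := by
  have hf : h = g * (g⁻¹ * h) := by rw [mul_inv_cancel_left]
  generalize g⁻¹ * h = f at hf ⊢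
  subst hf
  have e1 : f * g * f = g := by
    have h3 : g * (f * g * f) = g * g := by
      rw [h1]
      simp only [mul_assoc]
    exact mul_left_cancel h3
  have e2 : ∀ i, X i * f = f * X i := by
    intro i
    have h3 : g * (f * (X i * g) * f) * X i = g * (X i * g) * X i := by
      have h4 := h2 i
      calc g * (f * (X i * g) * f) * X i = g * f * X i * (g * f * X i) := by simp only [mul_assoc]
        _ = g * X i * (g * X i) := h4.symm
        _ = g * (X i * g) * X i := by simp only [mul_assoc]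
    have h5 : f * (X i * g) * f = X i * g := mul_left_cancel (mul_right_cancel h3)
    have h6 : f * X i * (g * f) = X i * f * (g * f) := by
      calc f * X i * (g * f) = f * (X i * g) * f := by simp only [mul_assoc]
        _ = X i * g := h5
        _ = X i * (f * g * f) := by rw [e1]
        _ = X i * f * (g * f) := by simp only [mul_assoc]
    exact (mul_right_cancel h6).symm
  have hcen : f ∈ Subgroup.center G := by
    have h3 : Subgroup.closure (Set.range X) ≤ Subgroup.centralizer ({f} : Set G) := by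
      rw [Subgroup.closure_le]
      rintro _ ⟨i, rfl⟩
      rw [SetLike.mem_coe, Subgroup.mem_centralizer_iff]
      intro y hy
      rw [Set.mem_singleton_iff.1 hy]
      exact (e2 i).symm
    rw [hX] at h3
    rw [Subgroup.mem_center_iff]
    intro x
    have h4 := Subgroup.mem_centralizer_iff.1 (h3 (Subgroup.mem_top x)) f rfl
    exact h4.symm
  refine ⟨hcen, ?_⟩
  have h3 : g * f = f * g := Subgroup.mem_center_iff.1 hcen g
  have h4 : g * (f * f) = g * 1 := by
    rw [mul_one]
    conv_rhs => rw [← e1]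
    rw [← mul_assoc, h3]
  exact mul_left_cancel h4

/-- Row D2. The map `g ↦ (g², (g X_1)², …, (g X_r)²)` on the ball of radius `N` has values in
`Sq (N + 1) ^ (r + 1)`, and `g⁻¹ h ∈ Wb (2 N)` if `g`, `h` have the same value, so every fibre has at most
`(Wb X (2 * N)).ncard` elements. -/
theorem ball_le (X : Fin r → G) (hX : Subgroup.closure (Set.range X) = ⊤) (N : ℕ) :
    (Ball X N).ncard ≤ (Sq X (N + 1)).ncard ^ (r + 1) * (Wb X (2 * N)).ncard := by
  classical
  have hB := (ball_finite X N).1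
  have hB1 := (ball_finite X (N + 1)).1
  have hSq : (Sq X (N + 1)).Finite := hB1.image _
  have hWb : (Wb X (2 * N)).Finite := (ball_finite X (2 * N)).1.subset fun g hg => hg.1
  let f : G → (Option (Fin r) → G) := fun g o => o.elim (g * g) fun i => (g * X i) * (g * X i)
  have himg : (hB.toFinset.image f).card ≤ (Sq X (N + 1)).ncard ^ (r + 1) := by
    have h1 : hB.toFinset.image f ⊆ Fintype.piFinset fun _ : Option (Fin r) => hSq.toFinset := by
      intro u hu
      rw [Finset.mem_image] at hu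
      obtain ⟨g, hg, rfl⟩ := hu
      rw [Set.Finite.mem_toFinset] at hg
      rw [Fintype.mem_piFinset]
      intro o
      rw [Set.Finite.mem_toFinset]
      rcases o with _ | i
      · exact ⟨g, ball_mono X (Nat.le_succ N) hg, rfl⟩
      · refine ⟨g * X i, mul_mem_ball hg (h := X i) (N := 1) ⟨[(i, false)], le_rfl, by simp⟩, rfl⟩
    have h2 := Finset.card_le_card h1
    rw [Fintype.card_piFinset, Finset.prod_const, Finset.card_univ, Fintype.card_option,
      Fintype.card_fin, ← Set.ncard_eq_toFinset_card _ hSq] at h2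
    exact h2
  have hfib : ∀ u ∈ hB.toFinset.image f, (hB.toFinset.filter fun g => f g = u).card ≤
      (Wb X (2 * N)).ncard := by
    intro u hu
    rw [Finset.mem_image] at hu
    obtain ⟨g, hg, rfl⟩ := hu
    rw [Set.Finite.mem_toFinset] at hg
    rw [Set.ncard_eq_toFinset_card _ hWb]
    refine Finset.card_le_card_of_injOn (fun h => g⁻¹ * h) ?_ ?_
    · intro h hh
      rw [Finset.mem_coe, Finset.mem_filter, Set.Finite.mem_toFinset] at hh
      obtain ⟨hhB, hfh⟩ := hh
      rw [Finset.mem_coe, Set.Finite.mem_toFinset]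
      have h1 : g * g = h * h := (congrFun hfh none).symm
      have h2 : ∀ i, (g * X i) * (g * X i) = (h * X i) * (h * X i) :=
        fun i => (congrFun hfh (some i)).symm
      obtain ⟨h3, h4⟩ := central_of_squares X hX h1 h2
      refine ⟨?_, h3, h4⟩
      have h5 := mul_mem_ball (inv_mem_ball hg) hhB
      rwa [← two_mul] at h5
    · intro h _ h' _ hhh
      exact mul_left_cancel hhh
  have hmain := Finset.card_le_mul_card_image (f := f) hB.toFinset (Wb X (2 * N)).ncard hfib
  rw [← Set.ncard_eq_toFinset_card _ hB] at hmain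
  calc (Ball X N).ncard ≤ (Wb X (2 * N)).ncard * (hB.toFinset.image f).card := hmain
    _ ≤ (Wb X (2 * N)).ncard * (Sq X (N + 1)).ncard ^ (r + 1) := Nat.mul_le_mul_left _ himg
    _ = (Sq X (N + 1)).ncard ^ (r + 1) * (Wb X (2 * N)).ncard := Nat.mul_comm _ _

private theorem D3_sq_mono (X : Fin r → G) {M N : ℕ} (h : M ≤ N) : (Sq X M).ncard ≤ (Sq X N).ncard :=
  Set.ncard_le_ncard (Set.image_mono (ball_mono X h)) ((ball_finite X N).1.image _)

private theorem D3_wb_mono (X : Fin r → G) {M N : ℕ} (h : M ≤ N) : (Wb X M).ncard ≤ (Wb X N).ncard :=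
  Set.ncard_le_ncard (fun _ hg => ⟨ball_mono X h hg.1, hg.2⟩) ((ball_finite X N).1.subset fun _ hg => hg.1)

private theorem D3_arith (r k M : ℕ) : ((r + 2) * (M + k)) ^ k + 1 ≤ (M + (k + 2 * (r + 2) ^ k)) ^ (k + 2 * (r + 2) ^ k) ∧
    2 * ((r + 2) * (M + k)) ^ k ≤ (M + (k + 2 * (r + 2) ^ k)) ^ (k + 2 * (r + 2) ^ k) := by
  have hN : 1 ≤ ((r + 2) * (M + k)) ^ k := by
    rcases Nat.eq_zero_or_pos k with hk | hk
    · subst hk
      simp
    · exact Nat.one_le_pow _ _ (Nat.mul_pos (by omega) (by omega))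
  have hpos : 1 ≤ (r + 2) ^ k := Nat.one_le_pow _ _ (by omega)
  have h2 : 2 * ((r + 2) * (M + k)) ^ k ≤ (M + (k + 2 * (r + 2) ^ k)) ^ (k + 2 * (r + 2) ^ k) := by
    generalize hA : (r + 2) ^ k = A at *
    rw [mul_pow, hA, pow_add]
    have e1 : (M + k) ^ k ≤ (M + (k + 2 * A)) ^ k := Nat.pow_le_pow_left (by omega) k
    have e2 : 2 * A ≤ (M + (k + 2 * A)) ^ (2 * A) :=
      calc 2 * A ≤ M + (k + 2 * A) := by omega
        _ = (M + (k + 2 * A)) ^ 1 := (pow_one _).symm
        _ ≤ (M + (k + 2 * A)) ^ (2 * A) := Nat.pow_le_pow_right (by omega) (by omega)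
    calc 2 * (A * (M + k) ^ k) = (M + k) ^ k * (2 * A) := by ring
      _ ≤ (M + (k + 2 * A)) ^ k * (M + (k + 2 * A)) ^ (2 * A) := Nat.mul_le_mul e1 e2
  exact ⟨by omega, h2⟩

/-- Row D3. Apply `ball_le` to `N = ((r + 2) * (M + k)) ^ k`: then
`2 ^ ((r + 2) * M) ≤ (Sq X (N + 1)).ncard ^ (r + 1) * (Wb X (2 * N)).ncard`; `Sq` and `Wb` are monotone
in the radius, take `e` large. -/
theorem dichotomy (X : Fin r → G) (hX : Subgroup.closure (Set.range X) = ⊤) (h : FastGrowth X) :
    ∃ e, ∀ M, 2 ^ M ≤ (Sq X ((M + e) ^ e)).ncard ∨ 2 ^ M ≤ (Wb X ((M + e) ^ e)).ncard := by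
  obtain ⟨k, hk⟩ := h
  refine ⟨k + 2 * (r + 2) ^ k, fun M => ?_⟩
  obtain ⟨a1, a2⟩ := D3_arith r k M
  have hm : k ≤ (r + 2) * (M + k) :=
    calc k ≤ 1 * (M + k) := by omega
      _ ≤ (r + 2) * (M + k) := Nat.mul_le_mul (by omega) le_rfl
  have h1 := hk ((r + 2) * (M + k)) hm
  have h2 := ball_le X hX (((r + 2) * (M + k)) ^ k)
  by_contra hc
  rw [not_or, not_le, not_le] at hc
  have c1 := lt_of_le_of_lt (D3_sq_mono X a1) hc.1
  have c2 := lt_of_le_of_lt (D3_wb_mono X a2) hc.2
  have h3 : (Sq X (((r + 2) * (M + k)) ^ k + 1)).ncard ^ (r + 1) ≤ (2 ^ M) ^ (r + 1) := Nat.pow_le_pow_left c1.le _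
  have h4 : (2 ^ M) ^ (r + 1) * 2 ^ M ≤ 2 ^ ((r + 2) * (M + k)) := by
    rw [← pow_succ, ← pow_mul]
    refine Nat.pow_le_pow_right (by norm_num) ?_
    have e : (r + 2) * (M + k) = M * (r + 1 + 1) + (r + 2) * k := by ring
    omega
  have h5 : (2 ^ M) ^ (r + 1) * (Wb X (2 * ((r + 2) * (M + k)) ^ k)).ncard < (2 ^ M) ^ (r + 1) * 2 ^ M :=
    Nat.mul_lt_mul_of_pos_left c2 (by positivity)
  have h6 := Nat.mul_le_mul_right (Wb X (2 * ((r + 2) * (M + k)) ^ k)).ncard h3
  omega

/-- Row D3 -/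
theorem sq_mono (X : Fin r → G) {M N : ℕ} (h : M ≤ N) : (Sq X M).ncard ≤ (Sq X N).ncard := by
  exact D3_sq_mono X h

/-- Row D3 -/
theorem wb_mono (X : Fin r → G) {M N : ℕ} (h : M ≤ N) : (Wb X M).ncard ≤ (Wb X N).ncard := by
  exact D3_wb_mono X h

end Pool.Agent.AgpSsp
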