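import Pool.Agent.Lib.MP_a9d022_lc.Agp.PtQuery
import Pool.Agent.Lib.MP_a9d022_lc.Agp.Dich

/-! # Many squares: polynomial time with advice -/

set_option autoImplicit false

namespace Pool.Agent.AgpSsp

open N68a2faeb N487b59b3 Pool.Agent.SspConj Classical

variable {G : Type} [Group G] {r : ℕ}

/-- the dictionary of the letters: a bit decides whether the letter is there -/
def dic (r : ℕ) : List (Wd × Wd) :=
  (List.range r).flatMap fun i => [([(i, false)], []), ([(i, true)], [])]

private theorem A1_zip (f : ℕ → Bool) (j : ℕ) (hf : ∀ t, f t = decide (t = j)) (D : List (Wd × Wd)) :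
    ∀ n : ℕ, (∀ d ∈ D, d.2 = []) →
      ((D.zipIdx n).flatMap fun d => bif f d.2 then d.1.1 else d.1.2) =
        if n ≤ j then ((D[j - n]?).map Prod.fst).getD [] else [] := by
  induction D with
  | nil =>
    intro n _
    simp
  | cons d0 D ih =>
    intro n hD
    rw [List.zipIdx_cons, List.flatMap_cons, ih (n + 1) fun d hd => hD d (List.mem_cons_of_mem _ hd)]
    rcases lt_trichotomy n j with h | h | h
    · have h1 : f n = false := by rw [hf]; exact decide_eq_false (by omega)
      have h2 : j - n = (j - (n + 1)) + 1 := by omega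
      rw [if_pos h.le, if_pos (by omega), h2, List.getElem?_cons_succ]
      simp only [h1, cond_false]
      rw [hD d0 (by simp), List.nil_append]
    · subst h
      have h1 : f n = true := by rw [hf]; exact decide_eq_true rfl
      rw [if_pos le_rfl, if_neg (by omega), Nat.sub_self, List.getElem?_cons_zero]
      simp [h1]
    · have h1 : f n = false := by rw [hf]; exact decide_eq_false (by omega)
      rw [if_neg (by omega), if_neg (by omega)]
      simp only [h1, cond_false]
      rw [hD d0 (by simp), List.nil_append]

private theorem A1_zip0 (f : ℕ → Bool) (hf : ∀ t, f t = false) (D : List (Wd × Wd)) :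
    ∀ n : ℕ, (∀ d ∈ D, d.2 = []) →
      ((D.zipIdx n).flatMap fun d => bif f d.2 then d.1.1 else d.1.2) = [] := by
  induction D with
  | nil =>
    intro n _
    simp
  | cons d0 D ih =>
    intro n hD
    rw [List.zipIdx_cons, List.flatMap_cons, ih (n + 1) fun d hd => hD d (List.mem_cons_of_mem _ hd)]
    simp only [hf n, cond_false]
    rw [hD d0 (by simp), List.nil_append]

private theorem A1_snd (d : Wd × Wd) (hd : d ∈ dic r) : d.2 = [] := by
  unfold dic at hd
  rw [List.mem_flatMap] at hd
  obtain ⟨i, -, hi⟩ := hd
  simp only [List.mem_cons, List.not_mem_nil, or_false] at hi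
  rcases hi with h | h <;> rw [h]

private theorem A1_mem (i : Fin r) (s : Bool) : (([((i : ℕ), s)], []) : Wd × Wd) ∈ dic r := by
  unfold dic
  rw [List.mem_flatMap]
  refine ⟨i, List.mem_range.2 i.2, ?_⟩
  cases s <;> simp

/-- the word of a block -/
private def A1_blk (D : List (Wd × Wd)) (b : List Bool) : Wd :=
  D.zipIdx.flatMap fun d => bif b.getD d.2 false then d.1.1 else d.1.2

private theorem A1_tw_succ (D : List (Wd × Wd)) (N : ℕ) (b b' : List Bool) (hb : b.length = D.length) :
    tw D (N + 1) 0 (b ++ b') = A1_blk D b ++ tw D N 0 b' := by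
  unfold tw A1_blk
  rw [List.range_succ_eq_map, List.flatMap_cons, List.flatMap_map]
  congr 1
  · rw [List.flatMap_def, List.flatMap_def]
    congr 1
    refine List.map_congr_left fun d hd => ?_
    have h1 : d.2 < D.length := by
      have := List.snd_lt_of_mem_zipIdx hd
      omega
    have h2 : (0 * (N + 1) + 0) * D.length + d.2 = d.2 := by ring
    rw [h2, List.getD_append _ _ _ _ (by omega)]
  · rw [List.flatMap_def, List.flatMap_def]
    congr 1
    refine List.map_congr_left fun i hi => ?_
    rw [List.flatMap_def, List.flatMap_def]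
    congr 1
    refine List.map_congr_left fun d hd => ?_
    have h2 : (0 * (N + 1) + Nat.succ i) * D.length + d.2 = D.length + ((0 * N + i) * D.length + d.2) := by
      rw [Nat.succ_eq_add_one]; ring
    rw [h2, List.getD_append_right _ _ _ _ (by omega), hb, Nat.add_sub_cancel_left]

private theorem A1_range (m : ℕ) (f : ℕ → Bool) (t : ℕ) :
    ((List.range m).map f).getD t false = if t < m then f t else false := by
  rw [List.getD_eq_getElem?_getD, List.getElem?_map]
  split_ifs with h
  · rw [List.getElem?_range h]; rfl
  · rw [List.getElem?_eq_none (by rw [List.length_range]; omega)]; rfl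

private theorem A1_one (c : Fin r × Bool) :
    ∃ b : List Bool, b.length = (dic r).length ∧ A1_blk (dic r) b = [((c.1 : ℕ), c.2)] := by
  obtain ⟨j, hj⟩ := List.mem_iff_getElem?.1 (A1_mem c.1 c.2)
  have hjl : j < (dic r).length := by
    by_contra h
    rw [List.getElem?_eq_none (by omega)] at hj
    exact absurd hj (by simp)
  refine ⟨(List.range (dic r).length).map fun t => decide (t = j), by simp, ?_⟩
  unfold A1_blk
  rw [A1_zip (fun t => ((List.range (dic r).length).map fun t => decide (t = j)).getD t false) j ?_
    (dic r) 0 (fun d hd => A1_snd d hd)]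
  · rw [if_pos (Nat.zero_le _), Nat.sub_zero, hj]
    rfl
  · intro t
    rw [A1_range]
    split_ifs with h
    · rfl
    · exact (decide_eq_false (by omega)).symm

private theorem A1_none : ∃ b : List Bool, b.length = (dic r).length ∧ A1_blk (dic r) b = [] := by
  refine ⟨(List.range (dic r).length).map fun _ => false, by simp, ?_⟩
  unfold A1_blk
  refine A1_zip0 (fun t => ((List.range (dic r).length).map fun _ => false).getD t false) ?_
    (dic r) 0 (fun d hd => A1_snd d hd)
  intro t
  rw [A1_range]
  split_ifs <;> rfl

private theorem A1_bits : ∀ (N : ℕ) (l : List (Fin r × Bool)), l.length ≤ N →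
    ∃ b : List Bool, b.length = N * (dic r).length ∧
      tw (dic r) N 0 b = l.map fun c => ((c.1 : ℕ), c.2) := by
  intro N
  induction N with
  | zero =>
    intro l hl
    refine ⟨[], by simp, ?_⟩
    have : l = [] := List.eq_nil_of_length_eq_zero (by omega)
    rw [this]
    rfl
  | succ N ih =>
    intro l hl
    cases l with
    | nil =>
      obtain ⟨b, h1, h2⟩ := A1_none (r := r)
      obtain ⟨b', h3, h4⟩ := ih [] (by simp)
      refine ⟨b ++ b', by rw [List.length_append, h1, h3]; ring, ?_⟩
      rw [A1_tw_succ _ _ _ _ h1, h2, h4]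
      rfl
    | cons c l =>
      obtain ⟨b, h1, h2⟩ := A1_one c
      obtain ⟨b', h3, h4⟩ := ih l (by simpa using hl)
      refine ⟨b ++ b', by rw [List.length_append, h1, h3]; ring, ?_⟩
      rw [A1_tw_succ _ _ _ _ h1, h2, h4]
      rfl

/-- Row A1. Every element of the ball of radius `N` is the value of a word given by `N * (dic r).length`
bits: in the `i`-th block only the bit of the `i`-th letter is set. -/
theorem exists_bits (X : Fin r → G) {N : ℕ} {g : G} (hg : g ∈ Ball X N) :
    ∃ b : List Bool, b.length = N * (dic r).length ∧ ev X (tw (dic r) N 0 b) = g := by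
  obtain ⟨l, hl, rfl⟩ := hg
  obtain ⟨b, h1, h2⟩ := A1_bits N l hl
  refine ⟨b, h1, ?_⟩
  rw [h2]
  unfold ev
  rw [List.map_map]
  congr 1
  refine List.map_congr_left fun c _ => ?_
  change letter X ((c.1 : ℕ), c.2) = _
  unfold letter
  rw [dif_pos c.1.2]

private theorem A1_flat (m : ℕ) : ∀ (L : List (List Bool)), (∀ b ∈ L, b.length = m) → ∀ (k t : ℕ)
    (hk : k < L.length), t < m → L.flatten.getD (k * m + t) false = (L[k]).getD t false := by
  intro L
  induction L with
  | nil => intro _ k t hk; simp at hk
  | cons b L ih =>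
    intro hL k t hk ht
    have hb : b.length = m := hL b (by simp)
    rw [List.flatten_cons]
    cases k with
    | zero =>
      rw [Nat.zero_mul, Nat.zero_add, List.getD_append _ _ _ _ (by omega)]
      rfl
    | succ k =>
      have h1 : (k + 1) * m + t = m + (k * m + t) := by ring
      rw [h1, List.getD_append_right _ _ _ _ (by omega), hb, Nat.add_sub_cancel_left,
        ih (fun c hc => hL c (List.mem_cons_of_mem _ hc)) k t (by simpa using hk) ht]
      rfl

/-- Row A1. The `k`-th token of a concatenation of strings of length `N * D.length`. -/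
theorem tw_flatten (D : List (Wd × Wd)) {N K : ℕ} (b : Fin K → List Bool)
    (hb : ∀ i, (b i).length = N * D.length) {k : ℕ} (hk : k < K) :
    tw D N k (List.ofFn b).flatten = tw D N 0 (b ⟨k, hk⟩) := by
  unfold tw
  rw [List.flatMap_def, List.flatMap_def]
  congr 1
  refine List.map_congr_left fun i hi => ?_
  rw [List.flatMap_def, List.flatMap_def]
  congr 1
  refine List.map_congr_left fun d hd => ?_
  have h1 : d.2 < D.length := by
    have := List.snd_lt_of_mem_zipIdx hd
    omega
  have h0 : i < N := List.mem_range.1 hi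
  have h3 : i * D.length + d.2 < N * D.length := by
    calc i * D.length + d.2 < i * D.length + D.length := by omega
      _ = (i + 1) * D.length := by ring
      _ ≤ N * D.length := Nat.mul_le_mul_right _ h0
  have h2 : (k * N + i) * D.length + d.2 = k * (N * D.length) + (i * D.length + d.2) := by ring
  have h4 : (0 * N + i) * D.length + d.2 = i * D.length + d.2 := by ring
  rw [h2, h4, A1_flat (N * D.length) (List.ofFn b) ?_ k _ (by simpa using hk) h3]
  · rw [List.getElem_ofFn]
  · intro c hc
    rw [List.mem_ofFn] at hc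
    obtain ⟨i, rfl⟩ := hc
    exact hb i

/-- Row A1. A string of bits whose tokens have given values in the ball of radius `N`. -/
theorem exists_string (X : Fin r → G) {N K : ℕ} (g : ℕ → G) (hg : ∀ k < K, g k ∈ Ball X N) :
    ∃ a : List Bool, a.length = K * (N * (dic r).length) ∧ ∀ k < K, ev X (tw (dic r) N k a) = g k := by
  choose b hb1 hb2 using fun k : Fin K => exists_bits X (hg k k.2)
  refine ⟨(List.ofFn b).flatten, ?_, fun k hk => ?_⟩
  · rw [List.length_flatten, List.map_ofFn]
    have : (List.length ∘ b) = fun _ => N * (dic r).length := funext hb1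
    rw [this, List.ofFn_const, List.sum_replicate, smul_eq_mul]
  · rw [tw_flatten (dic r) b hb1 hk]
    exact hb2 ⟨k, hk⟩

private theorem A2_tok {V : Type} [DecidableEq V] (κ : V → G) {β β' : ℕ → G}
    (es : List (V × V × G)) : ∀ (j : ℕ), (∀ i, j ≤ i → i < j + es.length → β i = β' i) →
      ∀ v : V, tok κ β j es v = tok κ β' j es v := by
  induction es with
  | nil =>
    intro j _ v
    rfl
  | cons e es ih =>
    intro j h v
    simp only [List.length_cons] at h
    simp only [tok]
    rw [ih (j + 1) (fun i h1 h2 => h i (by omega) (by omega)) v, h j le_rfl (by omega)]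

private theorem A2_val {V : Type} [DecidableEq V] (κ : V → G) {β β' : ℕ → G}
    (es : List (V × V × G)) : ∀ (j : ℕ), (∀ i, j ≤ i → i < j + es.length → β i = β' i) →
      ∀ cs : List (Bool × Bool), val κ β j es cs = val κ β' j es cs := by
  induction es with
  | nil =>
    intro j _ cs
    simp only [val]
  | cons e es ih =>
    intro j h cs
    cases cs with
    | nil => simp only [val]
    | cons c cs =>
      have h1 : ∀ i, j + 1 ≤ i → i < j + 1 + es.length → β i = β' i := by
        intro i h1 h2
        refine h i (by omega) ?_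
        rw [List.length_cons]
        omega
      have h2 : tk κ β j e es = tk κ β' j e es := by
        unfold tk
        rw [A2_tok κ (e :: es) j h, A2_tok κ es (j + 1) h1]
      have h3 : β j = β' j := h j le_rfl (by rw [List.length_cons]; omega)
      simp only [val]
      rw [ih (j + 1) h1 cs, h2, h3]

private theorem A2_tot_congr {V : Type} [DecidableEq V] {τ τ' : ℕ → G} {es : List (V × V × G)}
    (h : ∀ k ≤ es.length, τ k = τ' k) (α ω : V) (cs : List (Bool × Bool)) :
    tot τ es α ω cs = tot τ' es α ω cs := by
  have h1 : ∀ i, 0 ≤ i → i < 0 + es.length → (fun j => τ (j + 1)) i = (fun j => τ' (j + 1)) i := by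
    intro i _ h2
    exact h (i + 1) (by omega)
  unfold tot
  rw [h 0 (Nat.zero_le _), A2_tok _ es 0 h1, A2_val _ es 0 h1]

/-- Row A2. For one length `m` of the input: an advice string which makes `solve` right on all inputs of
length `m`, if the ball of radius `N m` has more than `2 ^ m * 4 ^ Q` squares. `B` is the set of the
squares of the ball, `vl b` a square root of `b` in the ball; the family of `exists_good` is the set of
the strings `x` of length `m` with `L x = false`; then `exists_string`, `tot_congr`, `query_iff`, `yes_iff`,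
`orcS_spec`, `nrm_yes`, `nrm_acyc`, `complete`. -/
theorem exists_advice (X : Fin r → G) {L : DecisionProblem} {f : List Bool → Agi}
    (hf : ∀ x, IsInst r (f x) ∧ (L x = true ↔ Yes X (f x))) {m Q : ℕ}
    (hQ : ∀ x : List Bool, x.length = m → (rpt (nrm r (f x)).1).length ≤ Q)
    (N : ℕ → ℕ) (hN : 2 ^ m * 4 ^ Q < (Sq X (N m)).ncard) :
    ∃ a : List Bool, a.length = (Q + 1) * (N m * (dic r).length) ∧
      ∀ x : List Bool, x.length = m → solve X (dic r) f N (x, a) = L x := by
  classical
  have hfin : (Sq X (N m)).Finite := (ball_finite X (N m)).1.image _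
  let _ : Fintype ↥(Sq X (N m)) := hfin.fintype
  have hcard : Fintype.card ↥(Sq X (N m)) = (Sq X (N m)).ncard := by
    rw [← Nat.card_eq_fintype_card, Nat.card_coe_set_eq]
  have hrt : ∀ b : ↥(Sq X (N m)), ∃ g, g ∈ Ball X (N m) ∧ g * g = b.1 := fun b => b.2
  choose vl hvl1 hvl2 using hrt
  have hvl : ∀ b b', vl b * vl b = vl b' * vl b' → b = b' := by
    intro b b' h
    rw [hvl2, hvl2] at h
    exact Subtype.ext h
  have hacyc : ∀ x, ∀ v p, IsPath (nrm r (f x)).1 v v p → p = [] := fun x => nrm_acyc (hf x).1
  have hlen : ∀ E : List (Edg Pool.Agent.MSR.Raw), (evE X E).length = E.length := fun E => by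
    unfold evE
    rw [List.length_map]
  have hofn : ∀ y : Fin m → Bool, (List.ofFn y).length = m := fun y => List.length_ofFn
  have hB : Fintype.card {y : Fin m → Bool // L (List.ofFn y) = false} * 4 ^ Q <
      Fintype.card ↥(Sq X (N m)) := by
    rw [hcard]
    refine lt_of_le_of_lt (Nat.mul_le_mul_right _ ?_) hN
    refine (Fintype.card_subtype_le _).trans ?_
    rw [Fintype.card_fun, Fintype.card_bool, Fintype.card_fin]
  obtain ⟨γ, hγ⟩ := exists_good (Q := Q) vl hvl
    (fun i : {y : Fin m → Bool // L (List.ofFn y) = false} =>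
      evE X (rpt (nrm r (f (List.ofFn i.1))).1))
    (fun i => (nrm r (f (List.ofFn i.1))).2.1) (fun i => (nrm r (f (List.ofFn i.1))).2.2)
    (fun i => by
      rw [hlen]
      exact hQ _ (hofn _)) hB
    (by
      intro i cs hcs h
      have h1 : Yes X (nrm r (f (List.ofFn i.1))) :=
        (yes_iff X (hacyc _) _ _).2 ⟨cs, hcs, h⟩
      have h2 := (hf (List.ofFn i.1)).2.2 ((nrm_yes X (hf _).1).1 h1)
      rw [i.2] at h2
      exact Bool.false_ne_true h2)
  have hg : ∀ k < Q + 1, sq (Q + 1) vl γ k ∈ Ball X (N m) := by
    intro k hk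
    unfold sq
    rw [dif_pos hk]
    exact hvl1 _
  obtain ⟨a, ha, hak⟩ := exists_string X (sq (Q + 1) vl γ) hg
  refine ⟨a, ha, ?_⟩
  intro x hx
  have hs : solve X (dic r) f N (x, a) = true ↔
      Ssp X (query (fun j => tw (dic r) (N m) (j + 1) a) (tw (dic r) (N m) 0 a)
        (rpt (nrm r (f x)).1) (nrm r (f x)).2.1 (nrm r (f x)).2.2).1
        (query (fun j => tw (dic r) (N m) (j + 1) a) (tw (dic r) (N m) 0 a)
        (rpt (nrm r (f x)).1) (nrm r (f x)).2.1 (nrm r (f x)).2.2).2 := by
    have h := orcS_spec X
      (query (fun j => tw (dic r) (N m) (j + 1) a) (tw (dic r) (N m) 0 a)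
        (rpt (nrm r (f x)).1) (nrm r (f x)).2.1 (nrm r (f x)).2.2).1
      (query (fun j => tw (dic r) (N m) (j + 1) a) (tw (dic r) (N m) 0 a)
        (rpt (nrm r (f x)).1) (nrm r (f x)).2.1 (nrm r (f x)).2.2).2
    rw [← h]
    unfold solve
    simp only [hx]
  rw [Bool.eq_iff_iff, hs]
  constructor
  · intro h
    by_contra hL
    have hL' : L x = false := by
      cases hxx : L x with
      | false => rfl
      | true => exact absurd hxx hL
    obtain ⟨y, hy⟩ : ∃ y : Fin m → Bool, List.ofFn y = x := by
      subst hx
      exact ⟨x.get, List.ofFn_get x⟩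
    obtain ⟨cs, hcs, h1⟩ := (query_iff X (fun k => tw (dic r) (N m) k a) (rpt (nrm r (f x)).1)
      (nrm r (f x)).2.1 (nrm r (f x)).2.2).1 h
    subst hy
    refine hγ ⟨y, hL'⟩ cs hcs ?_
    rw [← h1]
    apply A2_tot_congr
    intro k hk
    change k ≤ (evE X (rpt (nrm r (f (List.ofFn y))).1)).length at hk
    rw [hlen] at hk
    have h2 := hQ _ hx
    exact (hak k (by omega)).symm
  · intro hL
    exact complete X (fun k => tw (dic r) (N m) k a) (hacyc x)
      ((nrm_yes X (hf x).1).2 ((hf x).2.1 hL))

end Pool.Agent.AgpSsp
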