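import Pool.Agent.Lib.MP_a9d022_lc.Agp.Defs

/-! # `P/poly` is contained in the class of infinitely often subexponential advice -/

set_option autoImplicit false

namespace Pool.Agent.AgpSsp

open N68a2faeb N487b59b3 Pool.Agent.MSR

theorem sq_le_two_pow {t : ℕ} (h : 4 ≤ t) : t * t ≤ 2 ^ t := by
  induction t, h using Nat.le_induction with
  | base => norm_num
  | succ t ht ih =>
    rw [pow_succ]
    nlinarith

theorem lt_two_pow' (t : ℕ) : t ≤ 2 ^ t := Nat.le_of_lt (Nat.lt_two_pow_self)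

theorem poly_le (p : Polynomial ℕ) : ∃ c, ∀ n, p.eval n ≤ (n + 2) ^ c := by
  have h : PB fun n => p.eval n := by
    induction p using Polynomial.induction_on' with
    | add p q hp hq => simpa using hp.add hq
    | monomial n c => simpa using (PB.const c).mul (PB.id.pow n)
  exact h

theorem pPoly_subset_ioSubexp : PPoly ⊆ IoSubexp := by
  rintro L ⟨p, a, R, hR, hlen, hL⟩ k
  refine ⟨R, hR, ?_⟩
  intro n₀
  obtain ⟨c, hc⟩ := poly_le p
  obtain ⟨t, ht⟩ : ∃ t, t = 4 + (k + 2) * c + n₀ := ⟨_, rfl⟩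
  have h1 : t ≤ 2 ^ t := lt_two_pow' t
  have hpos : 1 ≤ 2 ^ t := Nat.one_le_two_pow
  refine ⟨(2 ^ t) ^ (k + 1), ?_, 2 ^ t, ?_, a ((2 ^ t) ^ (k + 1)), ?_, ?_⟩
  · calc n₀ ≤ 2 ^ t := by omega
      _ = (2 ^ t) ^ 1 := (pow_one _).symm
      _ ≤ (2 ^ t) ^ (k + 1) := Nat.pow_le_pow_right hpos (by omega)
  · exact Nat.pow_le_pow_right hpos (by omega)
  · refine (hlen _).trans ((hc _).trans ?_)
    have h2 : (2 ^ t) ^ (k + 1) + 2 ≤ (2 ^ t) ^ (k + 2) := by
      have e1 : (2 ^ t) ^ (k + 2) = (2 ^ t) ^ (k + 1) * 2 ^ t := pow_succ _ _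
      have e2 : 2 ^ t ≤ (2 ^ t) ^ (k + 1) := by
        calc 2 ^ t = (2 ^ t) ^ 1 := (pow_one _).symm
          _ ≤ (2 ^ t) ^ (k + 1) := Nat.pow_le_pow_right hpos (by omega)
      have e3 : 4 ≤ 2 ^ t := by omega
      nlinarith
    calc ((2 ^ t) ^ (k + 1) + 2) ^ c ≤ ((2 ^ t) ^ (k + 2)) ^ c := Nat.pow_le_pow_left h2 c
      _ = 2 ^ (t * ((k + 2) * c)) := by rw [← pow_mul, ← pow_mul]
      _ ≤ 2 ^ (2 ^ t) := by
          apply Nat.pow_le_pow_right (by norm_num)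
          calc t * ((k + 2) * c) ≤ t * t := Nat.mul_le_mul_left _ (by omega)
            _ ≤ 2 ^ t := sq_le_two_pow (by omega)
  · intro x hx
    rw [hL x, hx]

end Pool.Agent.AgpSsp
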