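import Pool.Agent.Lib.MP_a9d022_lc.Agp.Names

/-! # The subset sum instance is computed in polynomial time -/

set_option autoImplicit false

namespace Pool.Agent.AgpSsp

open N68a2faeb N487b59b3 Pool.Agent.SspConj Pool.Agent.MSR Pool.Agent.MSR.En

/-- the `k`-th word given by the bits `ρ`: `N` blocks of `D.length` bits; a bit chooses one of the two
words of the corresponding entry of the list `D` -/
def tw (D : List (Wd × Wd)) (N k : ℕ) (ρ : List Bool) : Wd :=
  (List.range N).flatMap fun i => D.zipIdx.flatMap fun d =>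
    bif ρ.getD ((k * N + i) * D.length + d.2) false then d.1.1 else d.1.2

variable {α : Type} [En α]

/-- Row T3. `PT.flatMap_const` for the constant list `D.zipIdx`. -/
theorem PT_tw (D : List (Wd × Wd)) {N k : α → ℕ} {ρ : α → List Bool} (hN : PT N) (hk : PT k) (hρ : PT ρ) :
    PT (fun a => tw D (N a) (k a) (ρ a)) := by
  unfold tw
  refine PT.flatMap (F := fun a i => D.zipIdx.flatMap fun d =>
    bif (ρ a).getD ((k a * N a + i) * D.length + d.2) false then d.1.1 else d.1.2) (PT.range hN) ?_
  refine PT.flatMap_const D.zipIdx (fun d (p : α × ℕ) =>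
    bif (ρ p.1).getD ((k p.1 * N p.1 + p.2) * D.length + d.2) false then d.1.1 else d.1.2)
    fun d _ => ?_
  have h1 : PT (fun p : α × ℕ => N p.1) := hN.comp (PT.fst PT.id')
  have h2 : PT (fun p : α × ℕ => k p.1) := hk.comp (PT.fst PT.id')
  have h3 : PT (fun p : α × ℕ => ρ p.1) := hρ.comp (PT.fst PT.id')
  refine PT.cond (PT.getD ?_ h3 (PT.const false)) (PT.const d.1.1) (PT.const d.1.2)
  exact PT.add (PT.mul (PT.add (PT.mul h2 h1) (PT.snd PT.id')) (PT.const _)) (PT.const _)

/-- Row T3. -/
theorem PT_rpt {V : Type} [En V] {E : α → List (Edg V)} (hE : PT E) : PT (fun a => rpt (E a)) := by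
  unfold rpt
  refine PT.flatMap (F := fun a _ => E a) (PT.range (PT.length hE)) ?_
  exact hE.comp (PT.fst PT.id')

/-- Row T3: the tokens -/
theorem T3_tokW {V : Type} [En V] [DecidableEq V] [EqPT V] {b : α → ℕ → Wd}
    (hb : PT (fun x : α × ℕ => b x.1 x.2)) {ω : α → V} {c : α → Wd} {z : α → List (Edg V × ℕ)}
    {v : α → V} (hω : PT ω) (hc : PT c) (hz : PT z) (hv : PT v) :
    PT (fun a => tokW (b a) (ω a) (c a) (z a) (v a)) := by
  unfold tokW
  refine PT.append (PT.cond (PT.eq hv hω) (PT.const []) hc) ?_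
  refine PT.flatMap (F := fun a (p : Edg V × ℕ) => b a p.2) ?_ ?_
  · refine PT.filter (p := fun a (p : Edg V × ℕ) => decide (v a = p.1.1)) (PT.reverse hz) ?_
    exact PT.eq (hv.comp (PT.fst PT.id')) (PT.fst (PT.fst (PT.snd PT.id')))
  · exact hb.comp (PT.pair (PT.fst PT.id') (PT.snd (PT.snd PT.id')))

/-- Row T3. -/
theorem PT_query {V : Type} [En V] [DecidableEq V] [EqPT V] {b : α → ℕ → Wd}
    (hb : PT (fun x : α × ℕ => b x.1 x.2)) {c : α → Wd} {es : α → List (Edg V)} {s ω : α → V}
    (hc : PT c) (hes : PT es) (hs : PT s) (hω : PT ω) :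
    PT (fun a => query (b a) (c a) (es a) (s a) (ω a)) := by
  have hz : PT (fun a => (es a).zipIdx) := PT.zipIdx hes
  unfold query
  refine PT.pair ?_ (PT_winv (T3_tokW hb hω hc hz hs))
  refine PT.flatMap (F := fun a p => stepW (b a) (ω a) (c a) (es a).zipIdx p) hz ?_
  have hb' : PT (fun x : (α × Edg V × ℕ) × ℕ => b x.1.1 x.2) :=
    hb.comp (PT.pair (PT.fst (PT.fst PT.id')) (PT.snd PT.id'))
  have hω' : PT (fun p : α × Edg V × ℕ => ω p.1) := hω.comp (PT.fst PT.id')
  have hc' : PT (fun p : α × Edg V × ℕ => c p.1) := hc.comp (PT.fst PT.id')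
  have hz' : PT (fun p : α × Edg V × ℕ => (es p.1).zipIdx) := hz.comp (PT.fst PT.id')
  have hj : PT (fun p : α × Edg V × ℕ => p.2.2) := PT.snd (PT.snd PT.id')
  have he : PT (fun p : α × Edg V × ℕ => p.2.1) := PT.fst (PT.snd PT.id')
  unfold stepW
  refine PT.cons (PT_winv ?_) (PT.cons (PT.append (PT_winv ?_) (PT.append ?_ ?_)) (PT.const []))
  · exact hb.comp (PT.pair (PT.fst PT.id') hj)
  · exact T3_tokW hb' hω' hc' (PT.drop hj hz') (PT.fst he)
  · exact PT.snd (PT.snd he)
  · exact T3_tokW hb' hω' hc' (PT.drop (PT.add hj (PT.const 1)) hz') (PT.fst (PT.snd he))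

/-- Row T3: the two encodings of a pair of strings agree -/
theorem T3_encode (a : List Bool × List Bool) : (bitEncode a : List Bool) = enc a := by
  show delimit (bitEncode a.1) ++ bitEncode a.2 = delimit (enc a.1) ++ enc a.2
  have h1 : (bitEncode a.1 : List Bool) = enc a.1 := encode_listBool a.1
  have h2 : (bitEncode a.2 : List Bool) = enc a.2 := encode_listBool a.2
  rw [h1, h2]

/-- Row T3. A function of two strings in polynomial time for the encoding of pairs of strings of the
prelude, if it is in `PT` (as `isPolyTime_of_PTb`, `PT_of_isPolyTime` in Final.lean). -/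
theorem isPolyTime_of_PT2 {f : List Bool × List Bool → Bool} (hf : PT f) : IsPolyTime f := by
  have h1 : CT (fun a : List Bool × List Bool => bitEncode a) (fun a => bitEncode (f a)) :=
    CT.congr hf (fun a => T3_encode a) (fun _ => rfl)
  exact (OfTM2.isPolyTime_iff_CT f).2 h1

variable {G : Type} [Group G] {r : ℕ}

/-- the first decision procedure: the subset sum instance for the tokens given by the bits `z.2` -/
noncomputable def solve (X : Fin r → G) (D : List (Wd × Wd)) (f : List Bool → Agi) (N : ℕ → ℕ)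
    (z : List Bool × List Bool) : Bool :=
  orcS X (query (fun j => tw D (N z.1.length) (j + 1) z.2) (tw D (N z.1.length) 0 z.2)
    (rpt (nrm r (f z.1)).1) (nrm r (f z.1)).2.1 (nrm r (f z.1)).2.2)

theorem T4_nrm {f : List Bool → Agi} (hf : IsPolyTime f) : PT (fun x => nrm r (f x)) :=
  PT_unR r (PT_toR hf)

/-- Row T3. `PT_orcS`, `PT_query`, `PT_tw`, `PT_toR`, `PT_unR`, `PT_rpt`. -/
theorem PT_solve {X : Fin r → G} (hP : SSP X ∈ P) (D : List (Wd × Wd)) {f : List Bool → Agi}
    (hf : IsPolyTime f) (N : Polynomial ℕ) : PT (solve X D f fun n => N.eval n) := by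
  have h0 : PT (fun z : List Bool × List Bool => nrm r (f z.1)) := (T4_nrm hf).comp (PT.fst PT.id')
  have h1 : PT (fun z : List Bool × List Bool => N.eval z.1.length) :=
    PT.poly N (PT.length (PT.fst PT.id'))
  have h2 : PT (fun x : (List Bool × List Bool) × ℕ => tw D (N.eval x.1.1.length) (x.2 + 1) x.1.2) :=
    PT_tw D (h1.comp (PT.fst PT.id')) (PT.succ (PT.snd PT.id')) (PT.snd (PT.fst PT.id'))
  have h3 : PT (fun z : List Bool × List Bool => tw D (N.eval z.1.length) 0 z.2) :=
    PT_tw D h1 (PT.const 0) (PT.snd PT.id')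
  exact (PT_orcS hP).comp (PT_query (b := fun (z : List Bool × List Bool) (j : ℕ) =>
    tw D (N.eval z.1.length) (j + 1) z.2) h2 h3 (PT_rpt (PT.fst h0)) (PT.fst (PT.snd h0)) (PT.snd (PT.snd h0)))

/-- Row T3. The number of layers is the square of the number of edges, so it is bounded by a polynomial
in the length of the input (`PT.bound`, `length_le_sz`, `sz_listBool`). -/
theorem exists_size {f : List Bool → Agi} (hf : IsPolyTime f) : ∃ Q : Polynomial ℕ, ∀ x : List Bool,
    (rpt (nrm r (f x)).1).length ≤ Q.eval x.length := by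
  have h0 : PT (fun x => (rpt (nrm r (f x)).1).length) := PT.length (PT_rpt (PT.fst (T4_nrm hf)))
  obtain ⟨d, hd⟩ := h0.bound
  refine ⟨(3 * Polynomial.X + 2) ^ d, fun x => ?_⟩
  have h1 := hd x
  rw [sz_nat, sz_listBool] at h1
  rw [Polynomial.eval_pow, Polynomial.eval_add, Polynomial.eval_mul, Polynomial.eval_X]
  simpa using h1

end Pool.Agent.AgpSsp
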