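import Pool.Agent.Lib.MP_a9d022_lc.Agp.Dec
import Pool.Agent.Lib.MP_a9d022_lc.Agp.PtQuery

/-! # The acyclic graph word problem as a decision problem: parsing -/

set_option autoImplicit false

namespace Pool.Agent.AgpSsp

open N68a2faeb N487b59b3 Pool.Agent.SspConj Pool.Agent.MSR Pool.Agent.MSR.En

/-- instances all components of which are strings -/
abbrev Rin : Type :=
  List (List Bool × List Bool × List (List Bool × List Bool)) × List Bool × List Bool

/-- the label -/
def pL (s : List Bool) : List (List Bool × List Bool) := (SG.blocks s).map SG.splitD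

/-- the edge -/
def pE (s : List Bool) : List Bool × List Bool × List (List Bool × List Bool) :=
  ((SG.splitD s).1, (SG.splitD (SG.splitD s).2).1, pL (SG.splitD (SG.splitD s).2).2)

/-- the instance -/
def pI (x : List Bool) : Rin := ((SG.blocks (SG.splitD x).1).map pE, SG.splitD (SG.splitD x).2)

/-- the encoding of an instance -/
def rI (J : Rin) : List Bool :=
  enc ((J.1.map fun e => ((⟨e.1⟩ : Raw), (⟨e.2.1⟩ : Raw), e.2.2.map fun c => ((⟨c.1⟩ : Raw), (⟨c.2⟩ : Raw)))),
    (⟨J.2.1⟩ : Raw), (⟨J.2.2⟩ : Raw))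

/-- the instance with strings in place of the numbers and bits -/
def sI (I : Agi) : Rin :=
  (I.1.map fun e => (Computability.encodeNat e.1, Computability.encodeNat e.2.1,
    e.2.2.map fun c => (Computability.encodeNat c.1, [c.2])),
    Computability.encodeNat I.2.1, Computability.encodeNat I.2.2)

private theorem E1_label (v : List (ℕ × Bool)) :
    enc ((v.map fun c => (Computability.encodeNat c.1, [c.2])).map
      fun c => ((⟨c.1⟩ : Raw), (⟨c.2⟩ : Raw))) = enc (v.map fun c => (rn c.1, c.2)) := by
  induction v with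
  | nil => rfl
  | cons c v ih =>
    rw [List.map_cons, List.map_cons, List.map_cons, enc_cons, enc_cons, ih]
    rfl

private theorem E1_edges (E : List (ℕ × ℕ × List (ℕ × Bool))) :
    enc ((E.map fun e => (Computability.encodeNat e.1, Computability.encodeNat e.2.1,
      e.2.2.map fun c => (Computability.encodeNat c.1, [c.2]))).map
      fun e => ((⟨e.1⟩ : Raw), (⟨e.2.1⟩ : Raw),
        e.2.2.map fun c => ((⟨c.1⟩ : Raw), (⟨c.2⟩ : Raw)))) =
      enc (E.map fun e => (rn e.1, rn e.2.1, e.2.2.map fun c => (rn c.1, c.2))) := by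
  induction E with
  | nil => rfl
  | cons e E ih =>
    rw [List.map_cons, List.map_cons, List.map_cons, enc_cons, enc_cons, ih, enc_pair, enc_pair,
      enc_pair, enc_pair, E1_label]
    rfl

/-- Row E1. As `enc_toR` (Names.lean). -/
theorem rI_sI (I : Agi) : rI (sI I) = bitEncode I := by
  rw [← enc_toR, rI, sI, toR, enc_pair, enc_pair, enc_pair, enc_pair, E1_edges]
  rfl

private theorem E1_blocks {γ : Type} [En γ] (l : List γ) : SG.blocks (enc l) = l.map enc :=
  SG.blocks_flatten (l.map enc)

private theorem E1_pL (l : List (List Bool × List Bool)) :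
    pL (enc (l.map fun c => ((⟨c.1⟩ : Raw), (⟨c.2⟩ : Raw)))) = l := by
  rw [pL, E1_blocks, List.map_map, List.map_map]
  conv_rhs => rw [← List.map_id l]
  apply List.map_congr_left
  intro c _
  exact SG.splitD_delimit c.1 c.2

private theorem E1_pE (e : List Bool × List Bool × List (List Bool × List Bool)) :
    pE (enc ((⟨e.1⟩ : Raw), (⟨e.2.1⟩ : Raw),
      e.2.2.map fun c => ((⟨c.1⟩ : Raw), (⟨c.2⟩ : Raw)))) = e := by
  obtain ⟨a, b, l⟩ := e
  have h1 : SG.splitD (enc ((⟨a⟩ : Raw), (⟨b⟩ : Raw),
      l.map fun c => ((⟨c.1⟩ : Raw), (⟨c.2⟩ : Raw)))) =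
      (a, enc ((⟨b⟩ : Raw), l.map fun c => ((⟨c.1⟩ : Raw), (⟨c.2⟩ : Raw)))) :=
    SG.splitD_delimit a _
  have h2 : SG.splitD (enc ((⟨b⟩ : Raw), l.map fun c => ((⟨c.1⟩ : Raw), (⟨c.2⟩ : Raw)))) =
      (b, enc (l.map fun c => ((⟨c.1⟩ : Raw), (⟨c.2⟩ : Raw)))) := SG.splitD_delimit b _
  rw [pE, h1, h2, E1_pL]

/-- Row E1. `splitD_delimit`, `blocks_flatten` (Dec.lean). -/
theorem pI_rI (J : Rin) : pI (rI J) = J := by
  obtain ⟨E, a, b⟩ := J
  have h1 : SG.splitD (rI (E, a, b)) = (enc (E.map fun e => ((⟨e.1⟩ : Raw), (⟨e.2.1⟩ : Raw),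
      e.2.2.map fun c => ((⟨c.1⟩ : Raw), (⟨c.2⟩ : Raw)))), enc ((⟨a⟩ : Raw), (⟨b⟩ : Raw))) :=
    SG.splitD_delimit _ _
  have h2 : SG.splitD (enc ((⟨a⟩ : Raw), (⟨b⟩ : Raw))) = (a, b) := SG.splitD_delimit a b
  rw [pI, h1, h2, E1_blocks, List.map_map, List.map_map]
  have h3 : E.map (pE ∘ enc ∘ fun e => ((⟨e.1⟩ : Raw), (⟨e.2.1⟩ : Raw),
      e.2.2.map fun c => ((⟨c.1⟩ : Raw), (⟨c.2⟩ : Raw)))) = E := by
    conv_rhs => rw [← List.map_id E]
    apply List.map_congr_left
    intro e _
    exact E1_pE e
  exact congrArg (fun l => (l, a, b)) h3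

private theorem E1_PT_pL {α : Type} [En α] {f : α → List Bool} (hf : PT f) :
    PT (fun a => pL (f a)) := PT.map (SG.PT_blocks hf) (SG.PT_splitD (PT.snd PT.id'))

private theorem E1_PT_pE {α : Type} [En α] {f : α → List Bool} (hf : PT f) :
    PT (fun a => pE (f a)) :=
  PT.pair (PT.fst (SG.PT_splitD hf)) (PT.pair (PT.fst (SG.PT_splitD (PT.snd (SG.PT_splitD hf))))
    (E1_PT_pL (PT.snd (SG.PT_splitD (PT.snd (SG.PT_splitD hf))))))

/-- Row E1 -/
theorem PT_pI : PT pI :=
  PT.pair (PT.map (SG.PT_blocks (PT.fst (SG.PT_splitD PT.id'))) (E1_PT_pE (PT.snd PT.id')))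
    (SG.PT_splitD (PT.snd (SG.PT_splitD PT.id')))

/-- Row E1. `PT.encString`, `PT.toRaw`. -/
theorem PT_rI : PT rI := by
  have h2 : PT (fun p : Rin × (List Bool × List Bool × List (List Bool × List Bool)) =>
      p.2.2.2.map fun c => ((⟨c.1⟩ : Raw), (⟨c.2⟩ : Raw))) :=
    PT.map (PT.snd (PT.snd (PT.snd PT.id')))
      (PT.pair (PT.toRaw (PT.fst (PT.snd PT.id'))) (PT.toRaw (PT.snd (PT.snd PT.id'))))
  have h1 : PT (fun p : Rin × (List Bool × List Bool × List (List Bool × List Bool)) =>
      ((⟨p.2.1⟩ : Raw), (⟨p.2.2.1⟩ : Raw),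
        p.2.2.2.map fun c => ((⟨c.1⟩ : Raw), (⟨c.2⟩ : Raw)))) :=
    PT.pair (PT.toRaw (PT.fst (PT.snd PT.id')))
      (PT.pair (PT.toRaw (PT.fst (PT.snd (PT.snd PT.id')))) h2)
  have h0 : PT (fun J : Rin => J.1.map fun e => ((⟨e.1⟩ : Raw), (⟨e.2.1⟩ : Raw),
      e.2.2.map fun c => ((⟨c.1⟩ : Raw), (⟨c.2⟩ : Raw)))) := PT.map (PT.fst PT.id') h1
  exact PT.encString (PT.pair h0 (PT.pair (PT.toRaw (PT.fst (PT.snd PT.id')))
    (PT.toRaw (PT.snd (PT.snd PT.id')))))

/-- binary expansions are the strings which are empty or end with `true` -/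
def cnn (s : List Bool) : Bool := s.reverse.headD true

private theorem E2_enc_last (p : PosNum) : ∃ l, Computability.encodePosNum p = l ++ [true] := by
  induction p with
  | one => exact ⟨[], rfl⟩
  | bit1 p ih =>
    obtain ⟨l, hl⟩ := ih
    exact ⟨true :: l, by rw [Computability.encodePosNum, hl]; rfl⟩
  | bit0 p ih =>
    obtain ⟨l, hl⟩ := ih
    exact ⟨false :: l, by rw [Computability.encodePosNum, hl]; rfl⟩

private theorem E2_enc_surj (l : List Bool) : ∃ p, Computability.encodePosNum p = l ++ [true] := by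
  induction l with
  | nil => exact ⟨PosNum.one, rfl⟩
  | cons b l ih =>
    obtain ⟨p, hp⟩ := ih
    cases b with
    | true => exact ⟨PosNum.bit1 p, by rw [Computability.encodePosNum, hp]; rfl⟩
    | false => exact ⟨PosNum.bit0 p, by rw [Computability.encodePosNum, hp]; rfl⟩

/-- Row E2 -/
theorem cnn_iff (s : List Bool) : cnn s = true ↔ ∃ n : ℕ, s = Computability.encodeNat n := by
  constructor
  · intro h
    rcases List.eq_nil_or_concat s with rfl | ⟨l, b, rfl⟩
    · exact ⟨0, rfl⟩
    · have hb : b = true := by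
        unfold cnn at h
        rw [List.concat_eq_append, List.reverse_append] at h
        exact h
      subst hb
      obtain ⟨p, hp⟩ := E2_enc_surj l
      refine ⟨(p : ℕ), ?_⟩
      unfold Computability.encodeNat
      rw [PosNum.of_to_nat, List.concat_eq_append]
      exact hp.symm
  · rintro ⟨n, rfl⟩
    unfold Computability.encodeNat
    cases (n : Num) with
    | zero => rfl
    | pos p =>
      obtain ⟨l, hl⟩ := E2_enc_last p
      have h1 : Computability.encodeNum (Num.pos p) = l ++ [true] := hl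
      rw [h1]
      unfold cnn
      rw [List.reverse_append]
      rfl

variable {S : Type} [DecidableEq S]

/-- keep the edges whose head is the tail of an edge -/
def prn (D : List (S × S)) : List (S × S) := D.filter fun e => D.any fun e' => decide (e'.1 = e.2)

/-- the graph with the edges `D` has no closed walk -/
def acy (D : List (S × S)) : Bool := (prn^[D.length] D).isEmpty

omit [DecidableEq S] in
private theorem E2_succ (E : List (Edg S)) (p : List (Edg S)) : ∀ s t, IsPath E s t p → ∀ e ∈ p,
    e ∈ E ∧ (e.2.1 = t ∨ ∃ e' ∈ p, e'.1 = e.2.1) := by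
  induction p with
  | nil => intro s t _ e he; exact absurd he (by simp)
  | cons e0 q ih =>
    rintro s t ⟨h1, -, h3⟩ e he
    rcases List.mem_cons.1 he with rfl | he
    · refine ⟨h1, ?_⟩
      cases q with
      | nil => exact Or.inl h3
      | cons e1 q =>
        exact Or.inr ⟨e1, List.mem_cons_of_mem _ List.mem_cons_self, h3.2.1⟩
    · obtain ⟨h4, h5⟩ := ih _ _ h3 e he
      refine ⟨h4, h5.imp id ?_⟩
      rintro ⟨e', he', h6⟩
      exact ⟨e', List.mem_cons_of_mem _ he', h6⟩

private theorem E2_mem_prn {D : List (S × S)} {e : S × S} :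
    e ∈ prn D ↔ e ∈ D ∧ ∃ e' ∈ D, e'.1 = e.2 := by
  unfold prn
  rw [List.mem_filter, List.any_eq_true]
  simp only [decide_eq_true_eq]

private theorem E2_keep (P : S × S → Prop) (hP : ∀ x, P x → ∃ x', P x' ∧ x'.1 = x.2) (k : ℕ) :
    ∀ D : List (S × S), (∀ x, P x → x ∈ D) → ∀ x, P x → x ∈ prn^[k] D := by
  induction k with
  | zero => intro D hD x hx; exact hD x hx
  | succ k ih =>
    intro D hD x hx
    rw [Function.iterate_succ_apply]
    refine ih (prn D) (fun y hy => ?_) x hx
    obtain ⟨y', hy', h1⟩ := hP y hy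
    exact E2_mem_prn.2 ⟨hD y hy, y', hD y' hy', h1⟩

private theorem E2_stable (D : List (S × S)) (k : ℕ) :
    (prn^[k] D).length ≤ D.length - k ∨ prn (prn^[k] D) = prn^[k] D := by
  induction k with
  | zero => exact Or.inl (le_of_eq rfl)
  | succ k ih =>
    rw [Function.iterate_succ_apply']
    rcases ih with h | h
    · by_cases h1 : prn (prn^[k] D) = prn^[k] D
      · right
        rw [h1, h1]
      · left
        have h2 : (prn (prn^[k] D)).length ≤ (prn^[k] D).length := List.length_filter_le _ _
        have h3 : (prn (prn^[k] D)).length ≠ (prn^[k] D).length := by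
          intro h4
          exact h1 (List.filter_sublist.eq_of_length h4)
        omega
    · right
      rw [h, h]

private theorem E2_sub (D : List (S × S)) (k : ℕ) : ∀ x ∈ prn^[k] D, x ∈ D := by
  induction k with
  | zero => intro x hx; exact hx
  | succ k ih =>
    intro x hx
    rw [Function.iterate_succ_apply'] at hx
    exact ih x (E2_mem_prn.1 hx).1

omit [DecidableEq S] in
private theorem E2_walk (E : List (Edg S)) (g : ℕ → S × S) (hg : ∀ i, g i ∈ E.map fun e => (e.1, e.2.1))
    (hs : ∀ i, (g (i + 1)).1 = (g i).2) (k : ℕ) :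
    ∀ i, ∃ p, p.length = k ∧ IsPath E (g i).1 (g (i + k)).1 p := by
  induction k with
  | zero => intro i; exact ⟨[], rfl, rfl⟩
  | succ k ih =>
    intro i
    obtain ⟨p, hp, h1⟩ := ih (i + 1)
    obtain ⟨e, he, h2⟩ := List.mem_map.1 (hg i)
    refine ⟨e :: p, by rw [List.length_cons, hp], he, ?_, ?_⟩
    · rw [← h2]
    · have h3 : e.2.1 = (g (i + 1)).1 := by rw [hs i, ← h2]
      have h4 : i + (k + 1) = i + 1 + k := by omega
      rw [h3, h4]
      exact h1

/-- Row E2. The edges of a closed path are never removed. Conversely after `D.length` steps the list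
is stable (each step which removes nothing is followed by such steps, the others make the list shorter);
if it is not empty every edge has a successor in it, and an infinite walk in a finite list repeats an
edge. -/
theorem acy_iff (E : List (Edg S)) :
    acy (E.map fun e => (e.1, e.2.1)) = true ↔ ∀ v p, IsPath E v v p → p = [] := by
  unfold acy
  rw [List.isEmpty_iff]
  constructor
  · intro h v p hp
    by_contra hne
    obtain ⟨e0, q, rfl⟩ := List.exists_cons_of_ne_nil hne
    have h1 := E2_keep (fun x => ∃ e ∈ e0 :: q, (e.1, e.2.1) = x) (by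
      rintro x ⟨e, he, rfl⟩
      rcases (E2_succ E _ v v hp e he).2 with h2 | ⟨e', he', h2⟩
      · exact ⟨_, ⟨e0, List.mem_cons_self, rfl⟩, by
          show e0.1 = e.2.1
          rw [hp.2.1, h2]⟩
      · exact ⟨_, ⟨e', he', rfl⟩, h2⟩) (E.map fun e => (e.1, e.2.1)).length
      (E.map fun e => (e.1, e.2.1)) (by
        rintro x ⟨e, he, rfl⟩
        exact List.mem_map.2 ⟨e, (E2_succ E _ v v hp e he).1, rfl⟩) _
      ⟨e0, List.mem_cons_self, rfl⟩
    rw [h] at h1
    exact absurd h1 (by simp)
  · intro h
    by_contra hne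
    have hst : prn (prn^[(E.map fun e => (e.1, e.2.1)).length] (E.map fun e => (e.1, e.2.1))) =
        prn^[(E.map fun e => (e.1, e.2.1)).length] (E.map fun e => (e.1, e.2.1)) := by
      rcases E2_stable (E.map fun e => (e.1, e.2.1)) (E.map fun e => (e.1, e.2.1)).length with h1 | h1
      · exfalso
        apply hne
        rw [Nat.sub_self] at h1
        exact List.eq_nil_of_length_eq_zero (Nat.le_zero.1 h1)
      · exact h1
    have hsub := E2_sub (E.map fun e => (e.1, e.2.1)) (E.map fun e => (e.1, e.2.1)).length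
    set L := prn^[(E.map fun e => (e.1, e.2.1)).length] (E.map fun e => (e.1, e.2.1)) with hL
    have hnext : ∀ x : {x // x ∈ L}, ∃ y : {x // x ∈ L}, y.1.1 = x.1.2 := by
      rintro ⟨x, hx⟩
      rw [← hst] at hx
      obtain ⟨-, y, hy, h2⟩ := E2_mem_prn.1 hx
      exact ⟨⟨y, hy⟩, h2⟩
    choose nx hnx using hnext
    obtain ⟨x0, hx0⟩ := List.exists_mem_of_ne_nil L hne
    have hfin : Finite {x // x ∈ L} := L.finite_toSet.to_subtype
    obtain ⟨i, j, hij, heq⟩ := Finite.exists_ne_map_eq_of_infinite
      (fun n : ℕ => nx^[n] (⟨x0, hx0⟩ : {x // x ∈ L}))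
    have key : ∀ i j : ℕ, i < j → nx^[i] (⟨x0, hx0⟩ : {x // x ∈ L}) = nx^[j] ⟨x0, hx0⟩ → False := by
      intro i j hlt he
      obtain ⟨p, hp, h3⟩ := E2_walk E (fun n => (nx^[n] (⟨x0, hx0⟩ : {x // x ∈ L})).1)
        (fun n => hsub _ (nx^[n] (⟨x0, hx0⟩ : {x // x ∈ L})).2)
        (fun n => by
          show (nx^[n + 1] (⟨x0, hx0⟩ : {x // x ∈ L})).1.1 = _
          rw [Function.iterate_succ_apply']
          exact hnx _) (j - i) i
      have h4 : i + (j - i) = j := by omega
      simp only [h4] at h3
      rw [← he] at h3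
      have h5 := h _ p h3
      rw [h5] at hp
      simp at hp
      omega
    rcases lt_or_gt_of_ne hij with h6 | h6
    · exact key i j h6 heq
    · exact key j i h6 heq.symm

private theorem E3_sz_filter {β : Type} [En β] (p : β → Bool) (l : List β) : sz (l.filter p) ≤ sz l := by
  induction l with
  | nil => simp
  | cons b l ih =>
    rw [List.filter_cons, sz_cons]
    split
    · rw [sz_cons]
      omega
    · omega

private theorem E3_sz_prn [En S] (k : ℕ) (D : List (S × S)) : sz (prn^[k] D) ≤ sz D := by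
  induction k generalizing D with
  | zero => exact le_rfl
  | succ k ih =>
    rw [Function.iterate_succ_apply]
    exact (ih (prn D)).trans (E3_sz_filter _ D)

/-- Row E3. `PT.iter`: the size of the list does not grow (`sz_sum` in Time.lean). -/
theorem PT_acy {α : Type} [En α] [En S] [EqPT S] {D : α → List (S × S)} (hD : PT D) :
    PT (fun a => acy (D a)) := by
  have hprn : PT (fun p : α × List (S × S) => prn p.2) := by
    unfold prn
    apply PT.filter (PT.snd PT.id')
    apply PT.any (PT.snd (PT.fst PT.id'))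
    exact PT.eq (PT.fst (PT.snd PT.id')) (PT.snd (PT.snd (PT.fst PT.id')))
  obtain ⟨d, hd⟩ := hD.bound
  have hit : PT (fun a => prn^[(D a).length] (D a)) := by
    refine PT.iter (g := fun _ => prn) (PT.length hD) hD hprn ?_
    exact ⟨fun n => (n + 2) ^ d, (PB.id.add (PB.const 2)).pow d, fun a k _ =>
      (E3_sz_prn k (D a)).trans (hd a)⟩
  exact PT.isEmpty hit

/-- the string is the encoding of an instance -/
def valid (r : ℕ) (x : List Bool) : Bool :=
  decide (rI (pI x) = x) && cnn (pI x).2.1 && cnn (pI x).2.2 &&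
    !((pI x).1.any fun e => !(cnn e.1 && cnn e.2.1 && leb e.2.2.length 1 &&
      !(e.2.2.any fun c => !(decide (c.2.length = 1) &&
        decide (c.1 ∈ (List.range r).map Computability.encodeNat))))) &&
    acy ((pI x).1.map fun e => (e.1, e.2.1))

private theorem E3_cnn {α : Type} [En α] {f : α → List Bool} (hf : PT f) : PT (fun a => cnn (f a)) :=
  PT.headD (PT.reverse hf) (PT.const true)

/-- Row E3 -/
theorem PT_valid (r : ℕ) : PT (valid r) := by
  have hI : PT (fun x : List Bool => (pI x).1) := PT.fst PT_pI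
  have h1 : PT (fun x : List Bool => decide (rI (pI x) = x)) := PT.eq (PT_rI.comp PT_pI) PT.id'
  have h2 : PT (fun x : List Bool => cnn (pI x).2.1) := E3_cnn (PT.fst (PT.snd PT_pI))
  have h3 : PT (fun x : List Bool => cnn (pI x).2.2) := E3_cnn (PT.snd (PT.snd PT_pI))
  have h4 : PT (fun x : List Bool => (pI x).1.any fun e => !(cnn e.1 && cnn e.2.1 && leb e.2.2.length 1 &&
      !(e.2.2.any fun c => !(decide (c.2.length = 1) &&
        decide (c.1 ∈ (List.range r).map Computability.encodeNat))))) := by
    apply PT.any hI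
    apply PT.not
    apply PT.and
    · apply PT.and
      · apply PT.and
        · exact E3_cnn (PT.fst (PT.snd PT.id'))
        · exact E3_cnn (PT.fst (PT.snd (PT.snd PT.id')))
      · exact PT.leb (PT.length (PT.snd (PT.snd (PT.snd PT.id')))) (PT.const 1)
    · apply PT.not
      have h6 : PT (fun p : List Bool × (List Bool × List Bool × List (List Bool × List Bool)) =>
        p.2.2.2) := PT.snd (PT.snd (PT.snd PT.id'))
      apply PT.any h6
      apply PT.not
      apply PT.and
      · have h7 : PT (fun p : (List Bool × (List Bool × List Bool × List (List Bool × List Bool))) ×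
            (List Bool × List Bool) => p.2.2.length) := PT.length (PT.snd (PT.snd PT.id'))
        exact PT.eq h7 (PT.const 1)
      · have h7 : PT (fun p : (List Bool × (List Bool × List Bool × List (List Bool × List Bool))) ×
            (List Bool × List Bool) => p.2.1) := PT.fst (PT.snd PT.id')
        exact (PT.mem h7 (PT.const ((List.range r).map Computability.encodeNat))).of_eq fun p =>
          decide_eq_decide.2 Iff.rfl
  have h5 : PT (fun x : List Bool => acy ((pI x).1.map fun e => (e.1, e.2.1))) := by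
    have h6 : PT (fun p : List Bool × (List Bool × List Bool × List (List Bool × List Bool)) =>
        (p.2.1, p.2.2.1)) := PT.pair (PT.fst (PT.snd PT.id')) (PT.fst (PT.snd (PT.snd PT.id')))
    exact PT_acy (PT.map hI h6)
  exact PT.and (PT.and (PT.and (PT.and h1 h2) h3) (PT.not h4)) h5

theorem E4_inj : Function.Injective Computability.encodeNat := fun a b h => by
  have h2 := congrArg Computability.decodeNat h
  rwa [Computability.decode_encodeNat, Computability.decode_encodeNat] at h2

theorem E4_acy (I : Agi) : acy ((sI I).1.map fun e => (e.1, e.2.1)) = true ↔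
    ∀ v p, IsPath I.1 v v p → p = [] := by
  have h1 : ((sI I).1.map fun e => (e.1, e.2.1)) =
      (I.1.map fun e => ((Computability.encodeNat e.1, Computability.encodeNat e.2.1, e.2.2) :
        Edg (List Bool))).map fun e => (e.1, e.2.1) := by
    rw [sI, List.map_map, List.map_map]
    rfl
  rw [h1, acy_iff]
  constructor
  · intro h v p hp
    have h2 := h _ _ ((path_map (f := Computability.encodeNat) E4_inj).2 ⟨p, hp, rfl⟩)
    exact List.map_eq_nil_iff.1 h2
  · intro h v p hp
    cases p with
    | nil => rfl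
    | cons e p =>
      obtain ⟨he, hev, hp2⟩ := hp
      obtain ⟨e', he', hee⟩ := List.mem_map.1 he
      have hv : v = Computability.encodeNat e'.1 := by rw [← hev, ← hee]
      subst hv
      obtain ⟨q, hq, hqp⟩ := (path_map (f := Computability.encodeNat) E4_inj
        (p := e :: p)).1 ⟨he, hev, hp2⟩
      rw [h _ _ hq] at hqp
      exact hqp

/-- the condition for an edge in `valid` -/
theorem E4_lab (r : ℕ) (e : ℕ × ℕ × List (ℕ × Bool)) (g : List Bool × List Bool × List (List Bool × List Bool))
    (hg : g = (Computability.encodeNat e.1, Computability.encodeNat e.2.1,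
      e.2.2.map fun c => (Computability.encodeNat c.1, [c.2]))) :
    (!(cnn g.1 && cnn g.2.1 && leb g.2.2.length 1 &&
      !(g.2.2.any fun c => !(decide (c.2.length = 1) &&
        decide (c.1 ∈ (List.range r).map Computability.encodeNat))))) = false ↔
      e.2.2.length ≤ 1 ∧ ∀ c ∈ e.2.2, c.1 < r := by
  subst hg
  have h1 : ∀ n, cnn (Computability.encodeNat n) = true := fun n => (cnn_iff _).2 ⟨n, rfl⟩
  have h2 : ∀ A B C D : Bool, (!(A && B && C && !D)) = false ↔ A = true ∧ B = true ∧ C = true ∧ D = false := by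
    decide
  rw [h2]
  simp only [h1, true_and, leb, decide_eq_true_eq, List.length_map]
  refine and_congr_right fun _ => ?_
  rw [List.any_eq_false]
  constructor
  · intro h c hc
    have h3 := h _ (List.mem_map.2 ⟨c, hc, rfl⟩)
    simp only [List.length_singleton, decide_true, Bool.true_and, Bool.not_eq_true', Bool.not_eq_false,
      decide_eq_true_eq, List.mem_map, List.mem_range, Bool.not_eq_true, decide_eq_false_iff_not, not_not] at h3
    obtain ⟨a, ha, hac⟩ := h3
    rw [← E4_inj hac]
    exact ha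
  · intro h c hc
    obtain ⟨c', hc', rfl⟩ := List.mem_map.1 hc
    simp only [List.length_singleton, decide_true, Bool.true_and, Bool.not_eq_true', Bool.not_eq_false,
      decide_eq_true_eq, List.mem_map, List.mem_range, Bool.not_eq_true, decide_eq_false_iff_not, not_not]
    exact ⟨c'.1, h c' hc', rfl⟩

/-- choice for lists -/
theorem E4_list {α β : Type} (f : α → β) (l : List β) (h : ∀ b ∈ l, ∃ a, b = f a) : ∃ m : List α, l = m.map f := by
  induction l with
  | nil => exact ⟨[], rfl⟩
  | cons b l ih =>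
    obtain ⟨a, rfl⟩ := h b (List.mem_cons_self)
    obtain ⟨m, rfl⟩ := ih fun c hc => h c (List.mem_cons_of_mem _ hc)
    exact ⟨a :: m, rfl⟩

/-- Row E4. If `valid r x` take the numbers from `cnn_iff` (`pI x = sI I`), then `x = rI (sI I)`;
`acy_iff` for the graph with the strings as names (the names are given by an injective function,
`path_map`). -/
theorem valid_iff (r : ℕ) (x : List Bool) : valid r x = true ↔ ∃ I : Agi, x = bitEncode I ∧ IsInst r I := by
  have key : ∀ I : Agi, pI x = sI I → (valid r x = true ↔ rI (sI I) = x ∧ IsInst r I) := by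
    intro I hI
    have h1 : ∀ n, cnn (Computability.encodeNat n) = true := fun n => (cnn_iff _).2 ⟨n, rfl⟩
    have h2 : (!((sI I).1.any fun e => !(cnn e.1 && cnn e.2.1 && leb e.2.2.length 1 &&
      !(e.2.2.any fun c => !(decide (c.2.length = 1) &&
        decide (c.1 ∈ (List.range r).map Computability.encodeNat)))))) = true ↔
        ∀ e ∈ I.1, e.2.2.length ≤ 1 ∧ ∀ c ∈ e.2.2, c.1 < r := by
      rw [Bool.not_eq_true', List.any_eq_false]
      constructor
      · intro h e he
        have h3 := h _ (List.mem_map.2 ⟨e, he, rfl⟩)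
        rw [Bool.not_eq_true] at h3
        exact (E4_lab r e _ rfl).1 h3
      · intro h e he
        obtain ⟨e', he', hee⟩ := List.mem_map.1 he
        rw [Bool.not_eq_true]
        exact (E4_lab r e' e hee.symm).2 (h e' he')
    unfold valid
    rw [hI, Bool.and_eq_true, Bool.and_eq_true, Bool.and_eq_true, Bool.and_eq_true, E4_acy, h2]
    have h3 : cnn (sI I).2.1 = true := h1 _
    have h4 : cnn (sI I).2.2 = true := h1 _
    rw [h3, h4, decide_eq_true_eq]
    constructor
    · rintro ⟨⟨⟨⟨a, -⟩, -⟩, b⟩, c⟩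
      exact ⟨a, ⟨b, c⟩⟩
    · rintro ⟨a, ⟨b, c⟩⟩
      exact ⟨⟨⟨⟨a, rfl⟩, rfl⟩, b⟩, c⟩
  constructor
  · intro h
    -- the numbers
    have h0 := h
    unfold valid at h0
    rw [Bool.and_eq_true, Bool.and_eq_true, Bool.and_eq_true, Bool.and_eq_true] at h0
    obtain ⟨⟨⟨⟨-, ha⟩, hb⟩, hE⟩, -⟩ := h0
    rw [Bool.not_eq_true', List.any_eq_false] at hE
    obtain ⟨a, ha⟩ := (cnn_iff _).1 ha
    obtain ⟨b, hb⟩ := (cnn_iff _).1 hb
    obtain ⟨E, hE'⟩ := E4_list (fun e : ℕ × ℕ × List (ℕ × Bool) =>
      (Computability.encodeNat e.1, Computability.encodeNat e.2.1,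
        e.2.2.map fun c => (Computability.encodeNat c.1, [c.2]))) (pI x).1 (by
      intro e he
      have h3 := hE e he
      have h2 : ∀ A B C D : Bool, (!(A && B && C && !D)) = false ↔
          A = true ∧ B = true ∧ C = true ∧ D = false := by decide
      rw [Bool.not_eq_true, h2] at h3
      obtain ⟨u1, u2, -, u4⟩ := h3
      obtain ⟨n1, hn1⟩ := (cnn_iff _).1 u1
      obtain ⟨n2, hn2⟩ := (cnn_iff _).1 u2
      obtain ⟨v, hv⟩ := E4_list (fun c : ℕ × Bool => (Computability.encodeNat c.1, [c.2])) e.2.2 (by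
        intro c hc
        have h5 := (List.any_eq_false.1 u4) c hc
        rw [Bool.not_eq_true, Bool.not_eq_false', Bool.and_eq_true, decide_eq_true_eq,
          decide_eq_true_eq] at h5
        obtain ⟨h6, h7⟩ := h5
        obtain ⟨n, -, hn⟩ := List.mem_map.1 h7
        obtain ⟨bb, hbb⟩ := List.length_eq_one_iff.1 h6
        exact ⟨(n, bb), Prod.ext hn.symm hbb⟩)
      exact ⟨(n1, n2, v), Prod.ext hn1 (Prod.ext hn2 hv)⟩)
    have hI : pI x = sI (E, a, b) := Prod.ext hE' (Prod.ext ha hb)
    obtain ⟨h5, h6⟩ := (key _ hI).1 h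
    exact ⟨(E, a, b), by rw [← rI_sI, h5], h6⟩
  · rintro ⟨I, hx, hI⟩
    have h1 : pI x = sI I := by rw [hx, ← rI_sI, pI_rI]
    exact (key I h1).2 ⟨by rw [rI_sI, hx], hI⟩

open Classical in
/-- the instance with the encoding `x`, or a no instance -/

noncomputable def getI (r : ℕ) (x : List Bool) : Agi :=
  if h : ∃ I : Agi, x = bitEncode I ∧ IsInst r I then h.choose else ([], 0, 1)

/-- the default instance has no closed path and no path from `0` to `1` -/
private theorem E5_path {v w : ℕ} {p : List (Edg ℕ)} (h : IsPath ([] : List (Edg ℕ)) v w p) :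
    p = [] := by
  cases p with
  | nil => rfl
  | cons e p => exact absurd h.1 List.not_mem_nil

private theorem E5_def (r : ℕ) : IsInst r (([], 0, 1) : Agi) where
  lab := fun _ he => absurd he List.not_mem_nil
  acyc := fun _ _ h => E5_path h

private theorem E5_eq {r : ℕ} {x : List Bool} (I : Agi) (hx : x = bitEncode I) (hI : IsInst r I) :
    getI r x = I := by
  have h : ∃ I : Agi, x = bitEncode I ∧ IsInst r I := ⟨I, hx, hI⟩
  unfold getI
  rw [dif_pos h]
  exact bitEncode_injective (h.choose_spec.1.symm.trans hx)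

private theorem E5_no {r : ℕ} {x : List Bool} (h : ¬ ∃ I : Agi, x = bitEncode I ∧ IsInst r I) :
    getI r x = (([], 0, 1) : Agi) := by
  unfold getI
  rw [dif_neg h]

/-- Row E5 -/
theorem getI_inst (r : ℕ) (x : List Bool) : IsInst r (getI r x) := by
  by_cases h : ∃ I : Agi, x = bitEncode I ∧ IsInst r I
  · obtain ⟨I, hx, hI⟩ := h
    rw [E5_eq I hx hI]
    exact hI
  · rw [E5_no h]
    exact E5_def r

/-- Row E5. The encoding of `getI r x` is `x` if `valid r x`, and a constant otherwise:
`OfTM2.isPolyTime_iff_CT`, `PT.cond` for raw strings. -/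
theorem getI_polyTime (r : ℕ) : IsPolyTime (getI r) := by
  have h1 : PT (fun x : List Bool => bif valid r x then (⟨x⟩ : Raw)
      else (⟨bitEncode (([], 0, 1) : Agi)⟩ : Raw)) :=
    PT.cond (PT_valid r) (PT.toRaw PT.id') (PT.const _)
  have h2 : CT (fun x : List Bool => bitEncode x) (fun x => bitEncode (getI r x)) := by
    refine CT.congr h1 (fun x => encode_listBool x) (fun x => ?_)
    by_cases h : ∃ I : Agi, x = bitEncode I ∧ IsInst r I
    · have hv : valid r x = true := (valid_iff r x).2 h
      obtain ⟨I, hx, hI⟩ := h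
      rw [E5_eq I hx hI]
      show bitEncode I = enc (bif valid r x then (⟨x⟩ : Raw)
        else (⟨bitEncode (([], 0, 1) : Agi)⟩ : Raw))
      rw [hv, cond_true]
      exact hx.symm
    · have hv : valid r x = false := by
        rw [Bool.eq_false_iff]
        exact fun hv => h ((valid_iff r x).1 hv)
      rw [E5_no h]
      show bitEncode (([], 0, 1) : Agi) = enc (bif valid r x then (⟨x⟩ : Raw)
        else (⟨bitEncode (([], 0, 1) : Agi)⟩ : Raw))
      rw [hv, cond_false]
      rfl
  exact (OfTM2.isPolyTime_iff_CT (getI r)).2 h2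

variable {G : Type} [Group G] {r : ℕ}

open Classical in
/-- The acyclic graph word problem: the yes instances are the encodings of the triples (list of edges,
`α`, `ω`) which are instances and have a directed path from `α` to `ω` with value `1`. -/

noncomputable def AGP (X : Fin r → G) : DecisionProblem := fun x =>
  decide (∃ I : Agi, x = bitEncode I ∧ IsInst r I ∧ Yes X I)

/-- Row E5. `bitEncode_injective`; in the default instance there is no path from `0` to `1`. -/
theorem agp_iff (X : Fin r → G) (x : List Bool) : AGP X x = true ↔ Yes X (getI r x) := by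
  simp only [AGP, decide_eq_true_eq]
  constructor
  · rintro ⟨I, hx, hI, hY⟩
    rw [E5_eq I hx hI]
    exact hY
  · intro hY
    by_cases h : ∃ I : Agi, x = bitEncode I ∧ IsInst r I
    · obtain ⟨I, hx, hI⟩ := h
      rw [E5_eq I hx hI] at hY
      exact ⟨I, hx, hI, hY⟩
    · rw [E5_no h] at hY
      obtain ⟨p, hp, -⟩ := hY
      have hp0 := E5_path hp
      rw [hp0] at hp
      exact absurd (show (0 : ℕ) = 1 from hp) (by decide)

/-- the edges chosen by the bits -/
def sel {V : Type} (es : List (Edg V)) (w : List Bool) : List (Edg V) :=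
  (es.zipIdx.filter fun p => w.getD p.2 false).map fun p => p.1

/-- the end of the walk, and whether the edges form a walk -/
def wlk {V : Type} [DecidableEq V] (a : V) (p : List (Edg V)) : V × Bool :=
  p.foldl (fun s e => (e.2.1, s.2 && decide (s.1 = e.1))) (a, true)

private theorem E6_wlk {V : Type} [DecidableEq V] {E p : List (Edg V)} (h : ∀ e ∈ p, e ∈ E) (a o : V) (b : Bool) :
    p.foldl (fun (s : V × Bool) (e : Edg V) => (e.2.1, s.2 && decide (s.1 = e.1))) (a, b) = (o, true) ↔
      b = true ∧ IsPath E a o p := by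
  induction p generalizing a b with
  | nil =>
    simp only [List.foldl_nil, IsPath, Prod.mk.injEq]
    exact and_comm
  | cons e p ih =>
    rw [List.foldl_cons, ih (fun x hx => h x (List.mem_cons_of_mem _ hx))]
    simp only [IsPath, Bool.and_eq_true, decide_eq_true_eq]
    have he : e ∈ E := h e List.mem_cons_self
    constructor
    · rintro ⟨⟨h1, h2⟩, h3⟩
      exact ⟨h1, he, h2.symm, h3⟩
    · rintro ⟨h1, -, h2, h3⟩
      exact ⟨⟨h1, h2.symm⟩, h3⟩

/-- Row E6 -/
theorem wlk_iff {V : Type} [DecidableEq V] {E p : List (Edg V)} (h : ∀ e ∈ p, e ∈ E) (a o : V) :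
    wlk a p = (o, true) ↔ IsPath E a o p := by
  rw [wlk, E6_wlk h]
  exact ⟨fun h1 => h1.2, fun h1 => ⟨rfl, h1⟩⟩

private theorem E6_sel_cons {V : Type} (e : Edg V) (es : List (Edg V)) (b : Bool) (w : List Bool) :
    sel (e :: es) (b :: w) = if b then e :: sel es w else sel es w := by
  have h1 : (e :: es).zipIdx = (e, 0) :: es.zipIdx.map (fun p => (p.1, p.2 + 1)) := by
    rw [List.zipIdx_cons, Nat.zero_add, List.zipIdx_succ]
  have h2 : ((es.zipIdx.map (fun p => (p.1, p.2 + 1))).filter fun p => (b :: w).getD p.2 false).map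
      (fun p => p.1) = sel es w := by
    rw [List.filter_map, List.map_map]
    rfl
  rw [sel, h1, List.filter_cons]
  cases b
  · simp only [List.getD_cons_zero, Bool.false_eq_true, if_false]
    exact h2
  · simp only [List.getD_cons_zero, if_true, List.map_cons]
    rw [h2]

/-- Row E6 -/
theorem sel_iff {V : Type} (es p : List (Edg V)) :
    p.Sublist es ↔ ∃ w : List Bool, w.length = es.length ∧ sel es w = p := by
  constructor
  · intro h
    induction h with
    | slnil => exact ⟨[], rfl, rfl⟩
    | cons e _ ih =>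
      obtain ⟨w, h1, h2⟩ := ih
      refine ⟨false :: w, by rw [List.length_cons, List.length_cons, h1], ?_⟩
      rw [E6_sel_cons, h2]
      simp
    | cons_cons e _ ih =>
      obtain ⟨w, h1, h2⟩ := ih
      refine ⟨true :: w, by rw [List.length_cons, List.length_cons, h1], ?_⟩
      rw [E6_sel_cons, h2]
      simp
  · rintro ⟨w, h1, rfl⟩
    induction es generalizing w with
    | nil => exact List.Sublist.refl _
    | cons e es ih =>
      cases w with
      | nil => exact absurd h1 (by simp)
      | cons b w =>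
        rw [List.length_cons, List.length_cons] at h1
        have h2 := ih w (Nat.succ.inj h1)
        rw [E6_sel_cons]
        cases b
        · simp only [Bool.false_eq_true, if_false]
          exact h2.cons _
        · simp only [if_true]
          exact h2.cons_cons _

/-- Row E7: the size of the state of a walk -/
theorem E7_wlk_sz {V : Type} [En V] [DecidableEq V] (p : List (Edg V)) : ∀ (a : V) (b : Bool),
    sz (p.foldl (fun s e => (e.2.1, s.2 && decide (s.1 = e.1))) (a, b)) ≤ 2 * (sz a + sz p) + 2 := by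
  induction p with
  | nil =>
    intro a b
    rw [List.foldl_nil, sz_pair, sz_bool]
    omega
  | cons e p ih =>
    intro a b
    rw [List.foldl_cons]
    refine (ih _ _).trans ?_
    obtain ⟨u, v, w⟩ := e
    rw [sz_cons, sz_pair, sz_pair]
    simp only
    omega

/-- Row E7 -/
theorem E7_PT_wlk {α V : Type} [En α] [En V] [DecidableEq V] [EqPT V] {a : α → V}
    {p : α → List (Edg V)} (ha : PT a) (hp : PT p) : PT (fun x => wlk (a x) (p x)) := by
  obtain ⟨d, hd⟩ := ha.bound
  obtain ⟨e, he⟩ := hp.bound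
  unfold wlk
  refine PT.foldl (g := fun _ s e => (e.2.1, s.2 && decide (s.1 = e.1))) hp
    (PT.pair ha (PT.const true)) ?_ ?_
  · refine PT.pair (PT.fst (PT.snd (PT.snd (PT.snd PT.id')))) (PT.and ?_ ?_)
    · exact PT.snd (PT.fst (PT.snd PT.id'))
    · exact PT.eq (PT.fst (PT.fst (PT.snd PT.id'))) (PT.fst (PT.snd (PT.snd PT.id')))
  · refine ⟨fun n => 2 * ((n + 2) ^ d + (n + 2) ^ e) + 2,
      ((PB.const 2).mul (((PB.id.add (PB.const 2)).pow d).add
        ((PB.id.add (PB.const 2)).pow e))).add (PB.const 2), fun x k => ?_⟩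
    refine (E7_wlk_sz ((p x).take k) (a x) true).trans ?_
    have h1 : sz ((p x).take k) ≤ sz (p x) := by
      conv_rhs => rw [← List.take_append_drop k (p x)]
      rw [sz_append]
      omega
    have h2 := hd x
    have h3 := he x
    simp only
    omega

/-- Row E7 -/
theorem E7_PT_sel {α V : Type} [En α] [En V] {es : α → List (Edg V)} {w : α → List Bool}
    (hes : PT es) (hw : PT w) : PT (fun x => sel (es x) (w x)) := by
  unfold sel
  refine PT.map (F := fun _ q => q.1)
    (PT.filter (p := fun x q => (w x).getD q.2 false) (PT.zipIdx hes) ?_) ?_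
  · exact PT.getD (PT.snd (PT.snd PT.id')) (hw.comp (PT.fst PT.id')) (PT.const false)
  · exact PT.fst (PT.snd PT.id')

/-- Row E7 -/
theorem E7_PT_lbl {α V : Type} [En α] [En V] {p : α → List (Edg V)} (hp : PT p) :
    PT (fun x => lbl (p x)) := by
  unfold lbl
  exact PT.flatMap (F := fun _ e => e.2.2) hp (PT.snd (PT.snd (PT.snd PT.id')))

/-- Row E7: the chosen edges are edges of the list -/
theorem E7_mem_sel {V : Type} {es : List (Edg V)} {w : List Bool} {e : Edg V} (h : e ∈ sel es w) :
    e ∈ es := by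
  unfold sel at h
  obtain ⟨q, hq, rfl⟩ := List.mem_map.1 h
  obtain ⟨u, v⟩ := q
  have h1 := (List.mem_filter.1 hq).1
  exact List.fst_mem_of_mem_zipIdx h1

/-- Row E7: the word problem by the subset sum problem -/
theorem E7_orc (X : Fin r → G) (w : Wd) : orcS X ([], w) = true ↔ ev X w = 1 := by
  rw [orcS_spec X [] w]
  constructor
  · rintro ⟨u, hu, h⟩
    rw [List.sublist_nil.1 hu] at h
    exact h.symm
  · intro h
    exact ⟨[], List.Sublist.refl _, h.symm⟩

/-- Row E7. The witness chooses a sublist of `rpt (nrm r (getI r x)).1` (`sublist_rpt`, `sel_iff`), it is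
a path (`wlk_iff`) whose label has the value `1`: `orcS X ([], w)` (`Ssp X [] w ↔ ev X w = 1`). -/
theorem agp_mem_NP {X : Fin r → G} (hS : SSP X ∈ P) : AGP X ∈ NP := by
  have hg := getI_polyTime r
  obtain ⟨Q, hQ⟩ := exists_size (r := r) hg
  have hJ : PT (fun z : List Bool × List Bool => nrm r (getI r z.1)) := (T4_nrm hg).comp (PT.fst PT.id')
  have hsel : PT (fun z : List Bool × List Bool => sel (rpt (nrm r (getI r z.1)).1) z.2) :=
    E7_PT_sel (PT_rpt (PT.fst hJ)) (PT.snd PT.id')
  refine ⟨Q, fun z => decide (wlk (nrm r (getI r z.1)).2.1 (sel (rpt (nrm r (getI r z.1)).1) z.2) =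
    ((nrm r (getI r z.1)).2.2, true)) && orcS X ([], lbl (sel (rpt (nrm r (getI r z.1)).1) z.2)),
    isPolyTime_of_PT2 ?_, fun x => ?_⟩
  · refine PT.and (PT.eq ?_ ?_) ?_
    · exact E7_PT_wlk (PT.fst (PT.snd hJ)) hsel
    · exact PT.pair (PT.snd (PT.snd hJ)) (PT.const true)
    · exact (PT_orcS hS).comp (PT.pair (PT.const []) (E7_PT_lbl hsel))
  · have hI := getI_inst r x
    have hac := nrm_acyc hI
    rw [agp_iff, ← nrm_yes X hI]
    have hrpt : ∀ e ∈ rpt (nrm r (getI r x)).1, e ∈ (nrm r (getI r x)).1 := by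
      intro e he
      unfold rpt at he
      rw [List.mem_flatMap] at he
      obtain ⟨_, _, he⟩ := he
      exact he
    constructor
    · rintro ⟨p, hp, h1⟩
      obtain ⟨w, hw, hwp⟩ := (sel_iff _ _).1 (sublist_rpt hac hp)
      refine ⟨w, by rw [hw]; exact hQ x, ?_⟩
      have hmem : ∀ e ∈ p, e ∈ (nrm r (getI r x)).1 := fun e he =>
        hrpt e ((sublist_rpt hac hp).subset he)
      rw [Bool.and_eq_true, decide_eq_true_iff, E7_orc]
      simp only [hwp]
      exact ⟨(wlk_iff hmem _ _).2 hp, h1⟩
    · rintro ⟨w, _, hw⟩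
      rw [Bool.and_eq_true, decide_eq_true_iff, E7_orc] at hw
      have hmem : ∀ e ∈ sel (rpt (nrm r (getI r x)).1) w, e ∈ (nrm r (getI r x)).1 := fun e he =>
        hrpt e (E7_mem_sel he)
      exact ⟨_, (wlk_iff hmem _ _).1 hw.1, hw.2⟩

end Pool.Agent.AgpSsp
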