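import Pool.Agent.Lib.MP_a9d022_lc.Agp.Reach

/-! # Slow growth -/

set_option autoImplicit false

namespace Pool.Agent.AgpSsp.SG

open N68a2faeb N487b59b3 Pool.Agent.MSR Pool.Agent.MSR.En Pool.Agent.SspConj

/-! ### paths -/

section

variable {V : Type}

theorem isPath_append {E : List (Edg V)} {p q : List (Edg V)} : ∀ {s t : V},
    IsPath E s t (p ++ q) ↔ ∃ w, IsPath E s w p ∧ IsPath E w t q := by
  induction p with
  | nil => intro s t; simp [IsPath]
  | cons e p ih =>
    intro s t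
    simp only [List.cons_append, IsPath, ih]
    constructor
    · rintro ⟨h, h', w, h1, h2⟩
      exact ⟨w, ⟨h, h', h1⟩, h2⟩
    · rintro ⟨w, ⟨h, h', h1⟩, h2⟩
      exact ⟨h, h', w, h1, h2⟩

theorem isPath_mem {E : List (Edg V)} {p : List (Edg V)} : ∀ {s t : V},
    IsPath E s t p → ∀ e ∈ p, e ∈ E := by
  induction p with
  | nil => intro s t _ e he; simp at he
  | cons e p ih =>
    intro s t h f hf
    rcases List.mem_cons.1 hf with rfl | hf
    · exact h.1
    · exact ih h.2.2 f hf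

theorem isPath_nodup {E : List (Edg V)} (hE : ∀ v p, IsPath E v v p → p = []) {p : List (Edg V)} :
    ∀ {s t : V}, IsPath E s t p → p.Nodup := by
  induction p with
  | nil => intro s t _; exact List.nodup_nil
  | cons e p ih =>
    intro s t h
    refine List.nodup_cons.2 ⟨fun hmem => ?_, ih h.2.2⟩
    obtain ⟨p1, p2, rfl⟩ := List.append_of_mem hmem
    obtain ⟨w, h1, h2⟩ := isPath_append.1 h.2.2
    have h3 : e.1 = w := h2.2.1
    have h4 := hE e.1 (e :: p1) ⟨h.1, rfl, by rw [h3]; exact h1⟩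
    exact List.cons_ne_nil _ _ h4

theorem isPath_length {E : List (Edg V)} (hE : ∀ v p, IsPath E v v p → p = [])
    {p : List (Edg V)} {s t : V} (h : IsPath E s t p) : p.length ≤ E.length := by
  classical
  exact ((isPath_nodup hE h).subperm (isPath_mem h)).length_le

end

/-! ### typed instances -/

/-- names -/
def nm (n : ℕ) : List Bool := Computability.encodeNat n

theorem nm_inj {a b : ℕ} (h : nm a = nm b) : a = b := by
  have := congrArg Computability.decodeNat h
  rwa [nm, nm, Computability.decode_encodeNat, Computability.decode_encodeNat] at this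

/-- typed edges -/
def cvE (e : Edg ℕ) : TE := (nm e.1, nm e.2.1, e.2.2.map fun c => (nm c.1, c.2))

/-- typed instances -/
def cvI (I : Agi) : List TE × List Bool × List Bool := (I.1.map cvE, nm I.2.1, nm I.2.2)

theorem isPath_iff {E : List (Edg ℕ)} {p : List (Edg ℕ)} : ∀ {s t : ℕ},
    IsPath E s t p ↔ (∀ e ∈ p, e ∈ E) ∧ IsWk (p.map cvE) (nm s) (nm t) := by
  induction p with
  | nil =>
    intro s t
    constructor
    · intro h
      have : s = t := h
      subst this
      exact ⟨by simp, rfl⟩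
    · rintro ⟨-, h⟩
      exact nm_inj h
  | cons e p ih =>
    intro s t
    constructor
    · rintro ⟨h1, h2, h3⟩
      obtain ⟨h4, h5⟩ := ih.1 h3
      refine ⟨?_, ?_, h5⟩
      · intro f hf
        rcases List.mem_cons.1 hf with rfl | hf
        · exact h1
        · exact h4 f hf
      · show nm e.1 = nm s
        rw [h2]
    · rintro ⟨h1, h2, h3⟩
      exact ⟨h1 e List.mem_cons_self, nm_inj h2,
        ih.2 ⟨fun f hf => h1 f (List.mem_cons_of_mem _ hf), h3⟩⟩

theorem exists_lift {E : List (Edg ℕ)} : ∀ (es : List TE), (∀ e ∈ es, e ∈ E.map cvE) →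
    ∃ p : List (Edg ℕ), (∀ e ∈ p, e ∈ E) ∧ p.map cvE = es := by
  intro es
  induction es with
  | nil => intro _; exact ⟨[], by simp, rfl⟩
  | cons e es ih =>
    intro h
    obtain ⟨p, h1, h2⟩ := ih fun f hf => h f (List.mem_cons_of_mem _ hf)
    obtain ⟨e0, h3, h4⟩ := List.mem_map.1 (h e List.mem_cons_self)
    refine ⟨e0 :: p, ?_, by rw [List.map_cons, h2, h4]⟩
    intro f hf
    rcases List.mem_cons.1 hf with rfl | hf
    · exact h3
    · exact h1 f hf

section

variable {G : Type} [Group G] {r : ℕ}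

/-- the value of a typed letter -/
def lvX (X : Fin r → G) (l : Lt) : G := letter X (Computability.decodeNat l.1, l.2)

theorem lvX_nm (X : Fin r → G) (c : ℕ × Bool) : lvX X (nm c.1, c.2) = letter X c := by
  unfold lvX nm
  rw [Computability.decode_encodeNat]

theorem vl_map (X : Fin r → G) (p : List (Edg ℕ)) : vl (lvX X) (p.map cvE) = ev X (lbl p) := by
  induction p with
  | nil => rfl
  | cons e p ih =>
    rw [List.map_cons, vl_cons, ih]
    have h1 : lbl (e :: p) = e.2.2 ++ lbl p := by simp [lbl]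
    rw [h1, ev_append]
    congr 1
    unfold cvE ev
    rw [List.map_map]
    congr 1
    apply List.map_congr_left
    intro c _
    exact lvX_nm X c

theorem yes_iff (X : Fin r → G) (I : Agi) : Yes X I ↔ ∃ es : List TE,
    (∀ e ∈ es, e ∈ (cvI I).1) ∧ IsWk es (cvI I).2.1 (cvI I).2.2 ∧ vl (lvX X) es = 1 := by
  constructor
  · rintro ⟨p, h1, h2⟩
    obtain ⟨h3, h4⟩ := isPath_iff.1 h1
    refine ⟨p.map cvE, ?_, h4, by rw [vl_map, h2]⟩
    intro e he
    obtain ⟨e0, h5, h6⟩ := List.mem_map.1 he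
    exact List.mem_map.2 ⟨e0, h3 e0 h5, h6⟩
  · rintro ⟨es, h1, h2, h3⟩
    obtain ⟨p, h4, rfl⟩ := exists_lift es h1
    exact ⟨p, isPath_iff.2 ⟨h4, h2⟩, by rw [← vl_map, h3]⟩

/-! ### balls -/

theorem ball_finite (X : Fin r → G) (N : ℕ) : (Ball X N).Finite := by
  have h1 : {l : List (Fin r × Bool) | l.length ≤ N}.Finite := List.finite_length_le _ N
  refine (h1.image fun l => (l.map fun c => if c.2 then (X c.1)⁻¹ else X c.1).prod).subset ?_
  rintro g ⟨l, h2, rfl⟩
  exact ⟨l, h2, rfl⟩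

theorem one_mem_ball (X : Fin r → G) (N : ℕ) : (1 : G) ∈ Ball X N := ⟨[], by simp, rfl⟩

theorem ball_mono (X : Fin r → G) {N M : ℕ} (h : N ≤ M) : Ball X N ⊆ Ball X M := by
  rintro g ⟨l, h1, h2⟩
  exact ⟨l, h1.trans h, h2⟩

/-- the typed letters -/
def LL (r : ℕ) : List Lt := (List.range r).flatMap fun i => [(nm i, true), (nm i, false)]

theorem mem_LL {l : Lt} : l ∈ LL r ↔ ∃ i < r, l.1 = nm i := by
  unfold LL
  obtain ⟨s, b⟩ := l
  rw [List.mem_flatMap]
  constructor
  · rintro ⟨i, h1, h2⟩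
    refine ⟨i, List.mem_range.1 h1, ?_⟩
    simp only [List.mem_cons, Prod.mk.injEq, List.not_mem_nil, or_false] at h2
    rcases h2 with h2 | h2 <;> exact h2.1
  · rintro ⟨i, h1, h2⟩
    refine ⟨i, List.mem_range.2 h1, ?_⟩
    simp only at h2
    subst h2
    cases b <;> simp

theorem mul_mem_ball {X : Fin r → G} {g : G} {n : ℕ} (hg : g ∈ Ball X n) {l : Lt}
    (hl : l ∈ LL r) : lvX X l * g ∈ Ball X (n + 1) := by
  obtain ⟨w, h1, h2⟩ := hg
  obtain ⟨i, hi, h3⟩ := mem_LL.1 hl
  refine ⟨(⟨i, hi⟩, l.2) :: w, by simpa using h1, ?_⟩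
  rw [List.map_cons, List.prod_cons, ← h2]
  congr 1
  obtain ⟨s, b⟩ := l
  simp only at h3
  subst h3
  rw [lvX_nm X (i, b)]
  unfold letter
  simp [hi]

theorem vl_mem_ball {X : Fin r → G} {E : List TE} (hE : ∀ e ∈ E, e.2.2.length ≤ 1)
    (hok : ∀ e ∈ E, ∀ l ∈ e.2.2, l ∈ LL r) : ∀ (es : List TE), (∀ e ∈ es, e ∈ E) →
      vl (lvX X) es ∈ Ball X es.length := by
  intro es
  induction es with
  | nil => intro _; exact one_mem_ball X 0
  | cons e es ih =>
    intro h
    have h1 := ih fun f hf => h f (List.mem_cons_of_mem _ hf)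
    have he := h e List.mem_cons_self
    rw [vl_cons, List.length_cons]
    have h2 := hE e he
    match hx : e.2.2, h2 with
    | [], _ =>
      rw [List.map_nil, List.prod_nil, one_mul]
      exact ball_mono X (Nat.le_succ _) h1
    | [l], _ =>
      rw [List.map_cons, List.map_nil, List.prod_cons, List.prod_nil, mul_one]
      exact mul_mem_ball h1 (hok e he l (by rw [hx]; exact List.mem_singleton.2 rfl))

/-! ### the table -/

/-- the size of the table -/
def szb (a b N : ℕ) : ℕ := 2 * (N * a * N * (2 * (2 * (2 * N + 1 + b) + 1 + N) + 1)) + 1 + N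

theorem PB_szb (a b : ℕ) : PB (szb a b) := by
  unfold szb
  refine PB.add (PB.add (PB.mul (PB.const 2) ?_) (PB.const 1)) PB.id
  refine PB.mul (PB.mul (PB.mul PB.id (PB.const a)) PB.id) ?_
  refine PB.add (PB.mul (PB.const 2) ?_) (PB.const 1)
  refine PB.add (PB.add (PB.mul (PB.const 2) ?_) (PB.const 1)) PB.id
  exact PB.add (PB.add (PB.mul (PB.const 2) PB.id) (PB.const 1)) (PB.const b)

theorem exists_szLL (r : ℕ) : ∃ b, ∀ l ∈ LL r, sz l ≤ b := by
  refine ⟨sz (LL r), fun l hl => ?_⟩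
  have := sz_mem hl
  omega

theorem exists_tab (X : Fin r → G) {b : ℕ} (hb : ∀ l ∈ LL r, sz l ≤ b) (n : ℕ) :
    ∃ (tab : Tab) (el : ℕ → G),
      IsTab (lvX X) (fun l => l ∈ LL r) (Ball X) n tab (Ball X n).ncard el ∧
      sz (tab, (Ball X n).ncard) ≤ szb (LL r).length b (Ball X n).ncard := by
  classical
  have hfin := ball_finite X n
  set S := hfin.toFinset with hS
  have hmemS : ∀ g, g ∈ S ↔ g ∈ Ball X n := fun g => hfin.mem_toFinset
  set L : List G := 1 :: (S.erase 1).toList with hL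
  have hnd : L.Nodup := by
    rw [hL, List.nodup_cons]
    exact ⟨by simp, Finset.nodup_toList _⟩
  have hmem : ∀ g, g ∈ L ↔ g ∈ Ball X n := by
    intro g
    rw [hL, List.mem_cons, Finset.mem_toList, Finset.mem_erase, hmemS]
    by_cases h : g = 1
    · subst h
      simp [one_mem_ball]
    · simp [h]
  have hlen : L.length = (Ball X n).ncard := by
    rw [Set.ncard_eq_toFinset_card _ hfin, ← hS, hL, List.length_cons, Finset.length_toList,
      Finset.card_erase_add_one]
    exact (hmemS 1).2 (one_mem_ball X n)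
  set N := (Ball X n).ncard with hN
  set el : ℕ → G := fun c => L.getD c 1 with hel
  have hel' : ∀ c (hc : c < N), el c = L[c]'(by rw [hlen]; exact hc) := by
    intro c hc
    rw [hel]
    exact List.getD_eq_getElem _ _ _
  refine ⟨((List.range N ×ˢ LL r) ×ˢ List.range N).filter fun q =>
    decide (el q.2 = el q.1.1 * lvX X q.1.2), el, ?_, ?_⟩
  · constructor
    · rw [← hlen, hL]; simp
    · rfl
    · intro c hc c' hc' h
      rw [hel' c hc, hel' c' hc'] at h
      exact (List.Nodup.getElem_inj_iff hnd).1 h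
    · intro c l c' h
      have := (List.mem_filter.1 h).2
      simpa using this
    · intro c hc l hl h
      obtain ⟨c', hc', h1⟩ := List.getElem_of_mem ((hmem _).2 h)
      have hc'' : c' < N := by rw [← hlen]; exact hc'
      refine ⟨c', hc'', List.mem_filter.2 ⟨?_, ?_⟩⟩
      · rw [List.mem_product, List.mem_product, List.mem_range, List.mem_range]
        exact ⟨⟨hc, hl⟩, hc''⟩
      · rw [decide_eq_true_eq, hel' c' hc'', h1]
  · rw [sz_pair, sz_nat]
    have h1 : sz ((List.range N ×ˢ LL r) ×ˢ List.range N) ≤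
        N * (LL r).length * N * (2 * (2 * (2 * N + 1 + b) + 1 + N) + 1) := by
      refine (sz_le_of (s := 2 * (2 * N + 1 + b) + 1 + N) ?_).trans (le_of_eq ?_)
      · rintro ⟨⟨c, l⟩, c'⟩ h
        rw [List.mem_product, List.mem_product, List.mem_range, List.mem_range] at h
        rw [sz_pair, sz_pair, sz_nat, sz_nat]
        have h2 := hb l h.1.2
        have h3 : c < N := h.1.1
        have h4 : c' < N := h.2
        omega
      · rw [List.length_product, List.length_product, List.length_range]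
    have h2 := sz_filter_le (l := (List.range N ×ˢ LL r) ×ˢ List.range N)
      (p := fun q => decide (el q.2 = el q.1.1 * lvX X q.1.2))
    unfold szb
    omega

/-! ### polynomial time -/

/-- the instance with raw strings in place of the numbers -/
def rawI (I : Agi) : List (Raw × Raw × List (Raw × Bool)) × Raw × Raw :=
  (I.1.map fun e => (⟨Computability.encodeNat e.1⟩, ⟨Computability.encodeNat e.2.1⟩, outW e.2.2),
    ⟨Computability.encodeNat I.2.1⟩, ⟨Computability.encodeNat I.2.2⟩)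

theorem enc_rawI (I : Agi) : enc (rawI I) = bitEncode I := by
  obtain ⟨E, a, o⟩ := I
  have h1 : bitEncode (E, a, o) = delimit (bitEncode E) ++ (delimit (bitEncode a) ++ bitEncode o) :=
    rfl
  rw [h1]
  unfold rawI
  rw [enc_pair, enc_pair]
  congr 2
  show ((List.map enc (E.map _)).map delimit).flatten = ((E.map bitEncode).map delimit).flatten
  congr 2
  rw [List.map_map]
  apply List.map_congr_left
  intro e _
  obtain ⟨u, v, x⟩ := e
  show enc (((⟨Computability.encodeNat u⟩ : Raw), (⟨Computability.encodeNat v⟩ : Raw), outW x) :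
    Raw × Raw × List (Raw × Bool)) = _
  rw [enc_pair, enc_pair, enc_outW]
  rfl

theorem PT_cvI {f : List Bool → Agi} (hf : IsPolyTime f) : PT (fun x => cvI (f x)) := by
  have h1 := (OfTM2.isPolyTime_iff_CT f).1 hf
  have h2 : PT (fun x => rawI (f x)) :=
    h1.congr (fun a => (encode_listBool a).symm) (fun a => enc_rawI (f a))
  have h3 : PT (fun x => (((rawI (f x)).1.map fun e => ((e.1.str, e.2.1.str,
      e.2.2.map fun c => (c.1.str, c.2)) : TE)), (rawI (f x)).2.1.str, (rawI (f x)).2.2.str)) := by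
    refine PT.pair ?_ (PT.pair (PT.ofRaw (PT.fst (PT.snd h2))) (PT.ofRaw (PT.snd (PT.snd h2))))
    apply PT.map (PT.fst h2)
    refine PT.pair (PT.ofRaw (PT.fst (PT.snd PT.id'))) (PT.pair
      (PT.ofRaw (PT.fst (PT.snd (PT.snd PT.id')))) ?_)
    apply PT.map (PT.snd (PT.snd (PT.snd PT.id')))
    exact PT.pair (PT.ofRaw (PT.fst (PT.snd PT.id'))) (PT.snd (PT.snd PT.id'))
  refine h3.of_eq fun x => ?_
  unfold cvI rawI outW
  simp only [List.map_map]
  refine Prod.ext ?_ rfl
  simp only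
  apply List.map_congr_left
  intro e _
  simp only [Function.comp_apply, List.map_map]
  rfl

theorem isPolyTime_of_PT2 {f : List Bool × List Bool → Bool} (hf : PT f) : IsPolyTime f := by
  have h0 : ∀ z : List Bool × List Bool, enc z = bitEncode z := by
    rintro ⟨x, a⟩
    rw [enc_pair, ← encode_listBool x, ← encode_listBool a]
    rfl
  have h1 : CT (fun a : List Bool × List Bool => bitEncode a) (fun a => bitEncode (f a)) :=
    CT.congr hf (fun a => (h0 a).symm) (fun _ => rfl)
  exact (OfTM2.isPolyTime_iff_CT f).2 h1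

theorem sz_listBool (x : List Bool) : sz x = 3 * x.length := by
  induction x with
  | nil => rfl
  | cons b x ih => rw [sz_cons, sz_bool, ih, List.length_cons]; ring

/-- the decision procedure -/
def solB (f : List Bool → Agi) (z : List Bool × List Bool) : Bool :=
  decide (((cvI (f z.1)).2.2, 0) ∈ rch (Dc.dec z.2 : Tab × ℕ).1 (Dc.dec z.2 : Tab × ℕ).2
    (cvI (f z.1)).1 (cvI (f z.1)).2.1)

theorem isPolyTime_solB {f : List Bool → Agi} (hf : IsPolyTime f) : IsPolyTime (solB f) := by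
  apply isPolyTime_of_PT2
  unfold solB
  have h1 : PT (fun z : List Bool × List Bool => cvI (f z.1)) :=
    (PT_cvI hf).comp (PT.fst PT.id')
  have h2 : PT (fun z : List Bool × List Bool => (Dc.dec z.2 : Tab × ℕ)) :=
    PT_dec (PT.snd PT.id')
  exact PT_mem' (PT.pair (PT.snd (PT.snd h1)) (PT.const 0))
    (PT_rch (PT.fst h2) (PT.snd h2) (PT.fst h1) (PT.fst (PT.snd h1)))

theorem solB_iff {X : Fin r → G} {f : List Bool → Agi} {x : List Bool} (hI : IsInst r (f x))
    {n : ℕ} {tab : Tab} {N : ℕ} {el : ℕ → G}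
    (h : IsTab (lvX X) (fun l => l ∈ LL r) (Ball X) n tab N el) (hn : (f x).1.length ≤ n) :
    solB f (x, enc (tab, N)) = true ↔ Yes X (f x) := by
  unfold solB
  simp only
  rw [Dc.dec_enc, decide_eq_true_eq]
  have hE : ∀ e ∈ (cvI (f x)).1, e.2.2.length ≤ 1 := by
    intro e he
    obtain ⟨e0, h1, rfl⟩ := List.mem_map.1 he
    have := (hI.lab e0 h1).1
    simpa [cvE] using this
  have hok : ∀ e ∈ (cvI (f x)).1, ∀ l ∈ e.2.2, l ∈ LL r := by
    intro e he l hl
    obtain ⟨e0, h1, rfl⟩ := List.mem_map.1 he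
    obtain ⟨c, h2, rfl⟩ := List.mem_map.1 hl
    exact mem_LL.2 ⟨c.1, (hI.lab e0 h1).2 c h2, rfl⟩
  rw [rch_iff h hE hok (fun es h1 h2 => ball_mono X h2 (vl_mem_ball hE hok es h1)) ?_
    (by simpa [cvI] using hn), yes_iff]
  intro es h1 h2
  obtain ⟨p, h3, rfl⟩ := exists_lift es h1
  have h4 := isPath_length hI.acyc (isPath_iff.2 ⟨h3, h2⟩)
  simpa [cvI] using h4

/-- slow growth -/
theorem ioSubexp_of_red (X : Fin r → G) (h : ¬ FastGrowth X) {L : DecisionProblem}
    {f : List Bool → Agi} (hf : IsPolyTime f)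
    (hfx : ∀ x, IsInst r (f x) ∧ (L x = true ↔ Yes X (f x))) : L ∈ IoSubexp := by
  intro k
  refine ⟨solB f, isPolyTime_solB hf, ?_⟩
  obtain ⟨d, hd⟩ := (PT_cvI hf).bound
  obtain ⟨b, hb⟩ := exists_szLL r
  obtain ⟨D, hD⟩ := PB_szb (LL r).length b
  intro n₀
  obtain ⟨k', hk'⟩ : ∃ k', k' = (3 * k + 2) * d + n₀ + D + 5 := ⟨_, rfl⟩
  obtain ⟨m, hm'⟩ := not_forall.1 (not_exists.1 h k')
  obtain ⟨hm, hlt'⟩ := Classical.not_imp.1 hm'
  have hlt := not_le.1 hlt'
  have hm5 : 5 ≤ m := by omega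
  have hmD : D ≤ m := by omega
  have hmn : n₀ ≤ m := by omega
  obtain ⟨tab, el, htab, hsz⟩ := exists_tab X hb (m ^ k')
  have hpos : 1 ≤ m := by omega
  refine ⟨m ^ (3 * k + 1), ?_, (m + 1) * D, ?_, enc (tab, (Ball X (m ^ k')).ncard), ?_, ?_⟩
  · calc n₀ ≤ m := hmn
      _ = m ^ 1 := (pow_one m).symm
      _ ≤ m ^ (3 * k + 1) := Nat.pow_le_pow_right hpos (by omega)
  · have h1 : (m + 1) * D ≤ m ^ 3 := by
      have e1 : (m + 1) * D ≤ (m + 1) * m := Nat.mul_le_mul_left _ hmD
      have e2 : (m + 1) * m ≤ m ^ 3 := by nlinarith [Nat.mul_le_mul hm5 hm5, Nat.zero_le m]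
      exact e1.trans e2
    calc ((m + 1) * D) ^ k ≤ (m ^ 3) ^ k := Nat.pow_le_pow_left h1 k
      _ = m ^ (3 * k) := by rw [← pow_mul]
      _ ≤ m ^ (3 * k + 1) := Nat.pow_le_pow_right hpos (by omega)
  · have h1 : (enc (tab, (Ball X (m ^ k')).ncard)).length = sz (tab, (Ball X (m ^ k')).ncard) := rfl
    rw [h1]
    refine hsz.trans ((hD _).trans ?_)
    have h2 : (Ball X (m ^ k')).ncard + 2 ≤ 2 ^ (m + 1) := by
      have : 2 ≤ 2 ^ m := by
        calc 2 = 2 ^ 1 := rfl
          _ ≤ 2 ^ m := Nat.pow_le_pow_right (by norm_num) (by omega)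
      have h3 : 2 ^ (m + 1) = 2 ^ m * 2 := pow_succ 2 m
      omega
    calc ((Ball X (m ^ k')).ncard + 2) ^ D ≤ (2 ^ (m + 1)) ^ D := Nat.pow_le_pow_left h2 D
      _ = 2 ^ ((m + 1) * D) := by rw [← pow_mul]
  · intro x hx
    obtain ⟨hI, hLx⟩ := hfx x
    have hlen : (f x).1.length ≤ m ^ k' := by
      have h1 : (f x).1.length ≤ sz (cvI (f x)) := by
        have e1 : (f x).1.length = (cvI (f x)).1.length := by simp [cvI]
        have e2 := length_le_sz (cvI (f x)).1
        have e3 : sz (cvI (f x)) = 2 * sz (cvI (f x)).1 + 1 + sz (cvI (f x)).2 := sz_pair _ _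
        omega
      have h2 := hd x
      rw [sz_listBool, hx] at h2
      have h3 : 3 * m ^ (3 * k + 1) + 2 ≤ m ^ (3 * k + 2) := by
        have e1 : m ^ (3 * k + 2) = m ^ (3 * k + 1) * m := pow_succ m (3 * k + 1)
        have e2 : 1 ≤ m ^ (3 * k + 1) := Nat.one_le_pow _ _ hpos
        rw [e1]
        nlinarith
      calc (f x).1.length ≤ sz (cvI (f x)) := h1
        _ ≤ (3 * m ^ (3 * k + 1) + 2) ^ d := h2
        _ ≤ (m ^ (3 * k + 2)) ^ d := Nat.pow_le_pow_left h3 d
        _ = m ^ ((3 * k + 2) * d) := by rw [← pow_mul]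
        _ ≤ m ^ k' := Nat.pow_le_pow_right hpos (by omega)
    rw [Bool.eq_iff_iff, hLx, solB_iff hI htab hlen]

end

end Pool.Agent.AgpSsp.SG
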