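import Pool.Agent.Lib.MP_a9d022_lc.Agp.Main
import Pool.Agent.Lib.MP_a9d022_lc.Agp.Slow
import Pool.Agent.Lib.MP_a9d022_lc.Agp.Incl
import Pool.Agent.Lib.MP_a9d022_lc.Agp.Parse

/-! # The main theorem -/

set_option autoImplicit false

namespace Pool.Agent.AgpSsp

open N68a2faeb N487b59b3 Pool.Agent.SspConj

variable {G : Type} [Group G] {r : ℕ}

/-- NP-hardness with respect to polynomial time many-one reductions -/
def NPHard (A : DecisionProblem) : Prop :=
  ∀ L ∈ NP, ∃ g : List Bool → List Bool, IsPolyTime g ∧ ∀ x, L x = A (g x)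

/-- the typed reduction given by a reduction -/
theorem exists_red (X : Fin r → G) {L : DecisionProblem} {g : List Bool → List Bool} (hg : IsPolyTime g)
    (h : ∀ x, L x = AGP X (g x)) : ∃ f : List Bool → Agi, IsPolyTime f ∧
      ∀ x, IsInst r (f x) ∧ (L x = true ↔ Yes X (f x)) := by
  refine ⟨fun x => getI r (g x), Pool.Agent.OfTM2.isPolyTime_comp (getI_polyTime r) hg,
    fun x => ⟨getI_inst r _, ?_⟩⟩
  rw [h, agp_iff]

theorem all_of_red (X : Fin r → G) (hX : Subgroup.closure (Set.range X) = ⊤) (hS : SSP X ∈ P)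
    {L : DecisionProblem} (hL : L ∈ NP) {f : List Bool → Agi} (hf : IsPolyTime f)
    (h : ∀ x, IsInst r (f x) ∧ (L x = true ↔ Yes X (f x))) :
    (FastGrowth X → L ∈ PPoly) ∧ L ∈ IoSubexp := by
  refine ⟨fun hF => ppoly_of_red X hX hS hF hL hf h, ?_⟩
  by_cases hF : FastGrowth X
  · exact pPoly_subset_ioSubexp (ppoly_of_red X hX hS hF hL hf h)
  · exact SG.ioSubexp_of_red X hF hf h

/-- The acyclic graph word problem itself. -/
theorem agp_mem (X : Fin r → G) (hX : Subgroup.closure (Set.range X) = ⊤) (hS : SSP X ∈ P) :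
    (FastGrowth X → AGP X ∈ PPoly) ∧ AGP X ∈ IoSubexp :=
  all_of_red X hX hS (agp_mem_NP hS) (getI_polyTime r) fun x => ⟨getI_inst r x, agp_iff X x⟩

/-- All problems in NP, if the acyclic graph word problem is NP-hard. -/
theorem np_subset (X : Fin r → G) (hX : Subgroup.closure (Set.range X) = ⊤) (hS : SSP X ∈ P)
    (hA : NPHard (AGP X)) : (FastGrowth X → NP ⊆ PPoly) ∧ NP ⊆ IoSubexp := by
  have h : ∀ L ∈ NP, (FastGrowth X → L ∈ PPoly) ∧ L ∈ IoSubexp := by
    intro L hL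
    obtain ⟨g, hg, hgL⟩ := hA L hL
    obtain ⟨f, hf, hfL⟩ := exists_red X hg hgL
    exact all_of_red X hX hS hL hf hfL
  exact ⟨fun hF L hL => (h L hL).1 hF, fun L hL => (h L hL).2⟩

/-- Groups with a free submonoid of rank two. -/
theorem agp_mem_coRP (X : Fin r → G) (hX : Subgroup.closure (Set.range X) = ⊤) (hS : SSP X ∈ P)
    {x y : G} (hxy : FreePair x y) : AGP X ∈ CoRP ∧ (NPHard (AGP X) → NP ⊆ CoRP) := by
  refine ⟨corp_of_red X hX hS hxy (getI_polyTime r) fun x => ⟨getI_inst r x, agp_iff X x⟩, ?_⟩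
  intro hA L hL
  obtain ⟨g, hg, hgL⟩ := hA L hL
  obtain ⟨f, hf, hfL⟩ := exists_red X hg hgL
  exact corp_of_red X hX hS hxy hf hfL

end Pool.Agent.AgpSsp
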