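import Pool.Agent.Lib.MP_a9d022_lc.Agp.Sub

/-! # Tokens, elements, choices

The list `es` is a sequence of edges (tail, head, label), one for each unit of time. -/

set_option autoImplicit false

namespace Pool.Agent.AgpSsp

variable {G : Type} [Group G] {V : Type} [DecidableEq V]

/-- the token of the vertex `v` at the time `j`, `es` being the list of the remaining edges: the token
at the end is `κ v`, and `β j` is a factor if the edge of the time `j` has the tail `v` -/
def tok (κ : V → G) (β : ℕ → G) : ℕ → List (V × V × G) → V → G
  | _, [], v => κ v
  | j, e :: es, v => tok κ β (j + 1) es v * (if v = e.1 then β j else 1)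

/-- the element which takes the edge `e` at the time `j` -/
def tk (κ : V → G) (β : ℕ → G) (j : ℕ) (e : V × V × G) (es : List (V × V × G)) : G :=
  (tok κ β j (e :: es) e.1)⁻¹ * (e.2.2 * tok κ β (j + 1) es e.2.1)

/-- the elements of the subset sum instance: for every time the element `(β j)⁻¹` (stay) and the
element which takes the edge -/
def elts (κ : V → G) (β : ℕ → G) : ℕ → List (V × V × G) → List G
  | _, [] => []
  | j, e :: es => (β j)⁻¹ :: tk κ β j e es :: elts κ β (j + 1) es

/-- the product of the chosen elements; a choice is a list of pairs of bits (stay, take) -/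
def val (κ : V → G) (β : ℕ → G) : ℕ → List (V × V × G) → List (Bool × Bool) → G
  | j, e :: es, c :: cs => (if c.1 then (β j)⁻¹ else 1) *
      ((if c.2 then tk κ β j e es else 1) * val κ β (j + 1) es cs)
  | _, _, _ => 1

/-- Follow the choices as long as they describe a path: the result is the label and the end. The legal
choices are `(false, true)` if the current vertex is the tail of the edge (take it), and
`(decide (v = e.1), false)` (do not take it). -/
def follow : V → List (V × V × G) → List (Bool × Bool) → Option (G × V)
  | v, [], _ => some (1, v)
  | _, _ :: _, [] => none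
  | v, e :: es, c :: cs =>
      if v = e.1 ∧ c = (false, true) then (follow e.2.1 es cs).map fun x => (e.2.2 * x.1, x.2)
      else if c = (decide (v = e.1), false) then follow v es cs
      else none

/-- Row C1. Induction on `es`, all `j`, `v`. -/
theorem follow_val (κ : V → G) (β : ℕ → G) {es : List (V × V × G)} {j : ℕ} {v : V}
    {cs : List (Bool × Bool)} {x : G × V} (h : follow v es cs = some x) :
    tok κ β j es v * val κ β j es cs = x.1 * κ x.2 := by
  induction es generalizing j v cs x with
  | nil =>
    simp only [follow, Option.some.injEq] at h
    subst h
    simp [tok, val]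
  | cons e es ih =>
    cases cs with
    | nil => simp [follow] at h
    | cons c cs =>
      rw [follow] at h
      split_ifs at h with h1 h2
      · obtain ⟨rfl, rfl⟩ := h1
        rw [Option.map_eq_some_iff] at h
        obtain ⟨y, hy, rfl⟩ := h
        have h3 := ih (j := j + 1) hy
        simp only [val, Bool.false_eq_true, if_false, if_true, one_mul, tk]
        rw [mul_assoc e.2.2, ← h3]
        group
      · subst h2
        have h3 := ih (j := j + 1) h
        rw [← h3]
        simp only [tok, val, Bool.false_eq_true, if_false, one_mul, decide_eq_true_eq]
        by_cases h4 : v = e.1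
        · simp only [h4, if_true]
          group
        · simp only [h4, if_false]
          group

/-- Row C1. The tokens and values depend only on the `β i` with `i ≥ j`. -/
theorem tok_congr (κ : V → G) {β β' : ℕ → G} {j : ℕ} (h : ∀ i, j ≤ i → β i = β' i)
    (es : List (V × V × G)) (v : V) : tok κ β j es v = tok κ β' j es v := by
  induction es generalizing j with
  | nil => rfl
  | cons e es ih =>
    rw [tok, tok, ih (j := j + 1) fun i hi => h i (by omega), h j le_rfl]

/-- Row C1. -/
theorem val_congr (κ : V → G) {β β' : ℕ → G} {j : ℕ} (h : ∀ i, j ≤ i → β i = β' i)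
    (es : List (V × V × G)) (cs : List (Bool × Bool)) : val κ β j es cs = val κ β' j es cs := by
  induction es generalizing j cs with
  | nil => rfl
  | cons e es ih =>
    cases cs with
    | nil => rfl
    | cons c cs =>
      rw [val, val, ih (j := j + 1) fun i hi => h i (by omega), h j le_rfl, tk, tk,
        tok_congr κ h, tok_congr κ (j := j + 1) (β' := β') fun i hi => h i (by omega)]

/-- Row C1. The first time `i` at which the choice is not legal. Induction on `es`, all `j`, `v`. If the
first choice is legal, the product is a constant (the label of the edge, or `1`) times the product of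
the tail, use the induction hypothesis. If it is not legal take `i = j`; let `T = tok (j+1) es e.1`,
`T' = tok (j+1) es e.2.1`, `R = val (j+1) es cs` (by the congruence lemmas they are the same for `β` and
`β'`), `g` the label. The choices `(s, t)` are
`v = e.1`: `(false, false)`: `T * β j * R`; `(true, true)`: `T * β j * (β j)⁻¹ * (β j)⁻¹ * T⁻¹ * g * T' * R`;
`v ≠ e.1`: `(true, false)`: `tok v * (β j)⁻¹ * R`; `(false, true)`: `tok v * (β j)⁻¹ * T⁻¹ * g * T' * R`;
`(true, true)`: `tok v * (β j)⁻¹ * (β j)⁻¹ * T⁻¹ * g * T' * R`. -/
theorem follow_none {es : List (V × V × G)} {j : ℕ} {v : V} {cs : List (Bool × Bool)}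
    (hcs : cs.length = es.length) (h : follow v es cs = none) :
    ∃ i, j ≤ i ∧ i < j + es.length ∧ ∀ (κ : V → G) (β β' : ℕ → G), (∀ k, k ≠ i → β k = β' k) →
      tok κ β j es v * val κ β j es cs = tok κ β' j es v * val κ β' j es cs →
        β i * β i = β' i * β' i := by
  induction es generalizing j v cs with
  | nil => simp [follow] at h
  | cons e es ih =>
    cases cs with
    | nil => simp at hcs
    | cons c cs =>
      have hcs' : cs.length = es.length := by simpa using hcs
      rw [follow] at h
      split_ifs at h with h1 h2
      · obtain ⟨rfl, rfl⟩ := h1
        rw [Option.map_eq_none_iff] at h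
        obtain ⟨i, hi1, hi2, hi3⟩ := ih (j := j + 1) hcs' h
        refine ⟨i, by omega, by rw [List.length_cons]; omega, fun κ β β' hb he => hi3 κ β β' hb ?_⟩
        simp only [val, Bool.false_eq_true, if_false, if_true, one_mul, tk] at he
        have h5 : ∀ a b c d : G, a * (a⁻¹ * (b * c) * d) = b * (c * d) := by
          intro a b c d
          group
        rw [h5, h5] at he
        exact mul_left_cancel he
      · subst h2
        obtain ⟨i, hi1, hi2, hi3⟩ := ih (j := j + 1) hcs' h
        refine ⟨i, by omega, by rw [List.length_cons]; omega, fun κ β β' hb he => hi3 κ β β' hb ?_⟩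
        have hj : β j = β' j := hb j (by omega)
        simp only [tok, val, Bool.false_eq_true, if_false, one_mul, decide_eq_true_eq] at he
        by_cases h4 : v = e.1
        · simp only [h4, if_true] at he ⊢
          have h5 : ∀ a b c : G, a * b * (b⁻¹ * c) = a * c := by
            intro a b c
            group
          rwa [h5, h5] at he
        · simp only [h4, if_false, mul_one, one_mul] at he
          exact he
      · refine ⟨j, le_rfl, by rw [List.length_cons]; omega, fun κ β β' hb he => ?_⟩
        have hb' : ∀ i, j + 1 ≤ i → β i = β' i := fun i hi => hb i (by omega)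
        obtain ⟨s, t⟩ := c
        have hT := tok_congr κ hb' es
        have hR := val_congr κ hb' es cs
        simp only [tok, val, tk, hT, hR] at he
        generalize tok κ β' (j + 1) es v = Tv at he
        generalize tok κ β' (j + 1) es e.1 = T at he
        generalize tok κ β' (j + 1) es e.2.1 = T' at he
        generalize val κ β' (j + 1) es cs = R at he
        generalize e.2.2 = g at he
        generalize β j = x at he ⊢
        generalize β' j = y at he ⊢
        by_cases h4 : v = e.1
        · cases s <;> cases t
          · simp only [h4, if_true, Bool.false_eq_true, if_false, one_mul] at he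
            have : x = y := mul_left_cancel (mul_right_cancel he)
            rw [this]
          · exact absurd ⟨h4, rfl⟩ h1
          · exact absurd (by rw [decide_eq_true h4]) h2
          · simp only [h4, if_true] at he
            have h5 : ∀ a : G, Tv * a * (a⁻¹ * ((T * a)⁻¹ * (g * T') * R)) =
                Tv * (a⁻¹ * (T⁻¹ * (g * T') * R)) := by
              intro a
              group
            rw [h5, h5] at he
            have h6 : x⁻¹ = y⁻¹ := mul_right_cancel (mul_left_cancel he)
            rw [inv_inj.1 h6]
        · cases s <;> cases t
          · exact absurd (by rw [decide_eq_false h4]) h2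
          · simp only [h4, if_true, Bool.false_eq_true, if_false, one_mul, mul_one] at he
            have h5 : ∀ a : G, Tv * ((T * a)⁻¹ * (g * T') * R) =
                Tv * (a⁻¹ * (T⁻¹ * (g * T') * R)) := by
              intro a
              group
            rw [h5, h5] at he
            have h6 : x⁻¹ = y⁻¹ := mul_right_cancel (mul_left_cancel he)
            rw [inv_inj.1 h6]
          · simp only [h4, if_true, Bool.false_eq_true, if_false, one_mul, mul_one] at he
            have h6 : x⁻¹ = y⁻¹ := mul_right_cancel (mul_left_cancel he)
            rw [inv_inj.1 h6]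
          · simp only [h4, if_true, if_false, mul_one] at he
            have h5 : ∀ a : G, Tv * (a⁻¹ * ((T * a)⁻¹ * (g * T') * R)) =
                Tv * ((a * a)⁻¹ * (T⁻¹ * (g * T') * R)) := by
              intro a
              group
            rw [h5, h5] at he
            have h6 : (x * x)⁻¹ = (y * y)⁻¹ := mul_right_cancel (mul_left_cancel he)
            exact inv_inj.1 h6

/-- Row C2. The subset products are the values of the choices (`sub_cons`). -/
theorem sub_iff (κ : V → G) (β : ℕ → G) (j : ℕ) (es : List (V × V × G)) (x : G) :
    Sub (elts κ β j es) x ↔ ∃ cs : List (Bool × Bool), cs.length = es.length ∧ val κ β j es cs = x := by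
  induction es generalizing j x with
  | nil =>
    rw [elts, sub_nil]
    constructor
    · rintro rfl
      exact ⟨[], rfl, rfl⟩
    · rintro ⟨cs, hcs, rfl⟩
      rfl
  | cons e es ih =>
    rw [elts, sub_cons]
    constructor
    · rintro ⟨s, y, hy, rfl⟩
      obtain ⟨t, z, hz, rfl⟩ := (sub_cons _ _ _).1 hy
      obtain ⟨cs, hcs, rfl⟩ := (ih _ _).1 hz
      exact ⟨(s, t) :: cs, by rw [List.length_cons, List.length_cons, hcs], rfl⟩
    · rintro ⟨cs, hcs, rfl⟩
      cases cs with
      | nil => simp at hcs
      | cons c cs =>
        have hcs' : cs.length = es.length := by simpa using hcs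
        refine ⟨c.1, _, (sub_cons _ _ _).2 ⟨c.2, _, (ih _ _).2 ⟨cs, hcs', rfl⟩, rfl⟩, rfl⟩

end Pool.Agent.AgpSsp
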