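import Pool.Agent.Lib.MP_a9d022_lc.Agp.PtQuery

/-! # Groups with a free submonoid: a randomized polynomial time algorithm -/

set_option autoImplicit false

namespace Pool.Agent.AgpSsp

open N68a2faeb N487b59b3 Pool.Agent.SspConj Classical

variable {G : Type} [Group G] {r : ℕ}

/-- Row B1. The value of the `k`-th token of the random string `ρ` (with `K` tokens of `N` bits). -/
theorem ev_tw_pair (X : Fin r → G) (wx wy : Wd) {K N : ℕ} (ρ : Fin (K * N) → Bool) {k : ℕ} (hk : k < K) :
    ev X (tw [(wx, wy)] N k (List.ofFn ρ)) =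
      ((List.ofFn fun i : Fin N => ρ (finProdFinEquiv (⟨k, hk⟩, i))).map
        fun b => if b then ev X wx else ev X wy).prod := by
  unfold tw
  rw [ev_flatMap, ← List.map_coe_finRange_eq_range, List.map_map,
    List.ofFn_eq_map (f := fun i : Fin N => ρ (finProdFinEquiv (⟨k, hk⟩, i))), List.map_map]
  congr 1
  apply List.map_congr_left
  intro i _
  have hlt : i.val + N * k < K * N := by
    have := i.2
    nlinarith [Nat.succ_le_of_lt hk]
  have hv : (finProdFinEquiv ((⟨k, hk⟩ : Fin K), i)) = ⟨i.val + N * k, hlt⟩ := by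
    apply Fin.ext
    simp [finProdFinEquiv]
  have hg : (List.ofFn ρ).getD ((k * N + i.val) * 1 + 0) false = ρ ⟨i.val + N * k, hlt⟩ := by
    have e : (k * N + i.val) * 1 + 0 = i.val + N * k := by ring
    rw [e, List.getD_eq_getElem _ _ (by simpa using hlt)]
    simp
  simp only [Function.comp_apply, List.length_singleton, List.zipIdx_singleton, List.flatMap_cons, List.flatMap_nil,
    List.append_nil]
  rw [hg, hv]
  cases ρ ⟨i.val + N * k, hlt⟩ <;> simp

/-- Row B1. Squaring is injective on the words of length `N` of a free monoid. -/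
theorem FreePair.sq {x y : G} (h : FreePair x y) {N : ℕ} {b c : Fin N → Bool}
    (hbc : ((List.ofFn b).map fun b => if b then x else y).prod *
      ((List.ofFn b).map fun b => if b then x else y).prod =
      ((List.ofFn c).map fun b => if b then x else y).prod *
        ((List.ofFn c).map fun b => if b then x else y).prod) : b = c := by
  have h2 : List.ofFn b ++ List.ofFn b = List.ofFn c ++ List.ofFn c := by
    apply h
    simp only [List.map_append, List.prod_append]
    exact hbc
  have h3 := List.append_inj h2 (by simp)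
  exact List.ofFn_injective h3.1

private theorem B2_tok {V : Type} [DecidableEq V] (κ : V → G) {β β' : ℕ → G}
    (es : List (V × V × G)) : ∀ (j : ℕ), (∀ i, j ≤ i → i < j + es.length → β i = β' i) →
      ∀ v : V, tok κ β j es v = tok κ β' j es v := by
  induction es with
  | nil =>
    intro j _ v
    rfl
  | cons e es ih =>
    intro j h v
    simp only [List.length_cons] at h
    simp only [tok]
    rw [ih (j + 1) (fun i h1 h2 => h i (by omega) (by omega)) v, h j le_rfl (by omega)]

private theorem B2_val {V : Type} [DecidableEq V] (κ : V → G) {β β' : ℕ → G}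
    (es : List (V × V × G)) : ∀ (j : ℕ), (∀ i, j ≤ i → i < j + es.length → β i = β' i) →
      ∀ cs : List (Bool × Bool), val κ β j es cs = val κ β' j es cs := by
  induction es with
  | nil =>
    intro j _ cs
    simp only [val]
  | cons e es ih =>
    intro j h cs
    cases cs with
    | nil => simp only [val]
    | cons c cs =>
      have h1 : ∀ i, j + 1 ≤ i → i < j + 1 + es.length → β i = β' i := by
        intro i h1 h2
        refine h i (by omega) ?_
        rw [List.length_cons]
        omega
      have h2 : tk κ β j e es = tk κ β' j e es := by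
        unfold tk
        rw [B2_tok κ (e :: es) j h, B2_tok κ es (j + 1) h1]
      have h3 : β j = β' j := h j le_rfl (by rw [List.length_cons]; omega)
      simp only [val]
      rw [ih (j + 1) h1 cs, h2, h3]

/-- Row B2. The instance depends only on the tokens with the numbers `≤ es.length`. -/
theorem tot_congr {V : Type} [DecidableEq V] {τ τ' : ℕ → G} {es : List (V × V × G)}
    (h : ∀ k ≤ es.length, τ k = τ' k) (α ω : V) (cs : List (Bool × Bool)) :
    tot τ es α ω cs = tot τ' es α ω cs := by
  have h1 : ∀ i, 0 ≤ i → i < 0 + es.length → (fun j => τ (j + 1)) i = (fun j => τ' (j + 1)) i := by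
    intro i _ h2
    exact h (i + 1) (by omega)
  unfold tot
  rw [h 0 (Nat.zero_le _), B2_tok _ es 0 h1, B2_val _ es 0 h1]

/-- the value of a block of bits -/
private def B3_vl (x y : G) (N : ℕ) (b : Fin N → Bool) : G :=
  ((List.ofFn b).map fun b => if b then x else y).prod

/-- Row B3. For a no instance few random strings `ρ` are bad: transport `bad_le` with
`B = Fin N → Bool`, `vl b = (List.ofFn b).map … .prod` along `(Fin K → Fin N → Bool) ≃ (Fin (K * N) → Bool)`
(`ev_tw_pair`, `tot_congr`, `query_iff`, `yes_iff`). -/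
theorem bad_random {V : Type} [DecidableEq V] (X : Fin r → G) {wx wy : Wd}
    (hf : FreePair (ev X wx) (ev X wy)) {K N : ℕ} {E : List (Edg V)}
    (hac : ∀ v p, IsPath E v v p → p = []) {s ω : V} (hK : (rpt E).length + 1 ≤ K)
    (hno : ¬ Yes X (E, s, ω)) :
    (Finset.univ.filter fun ρ : Fin (K * N) → Bool =>
      Ssp X (query (fun j => tw [(wx, wy)] N (j + 1) (List.ofFn ρ)) (tw [(wx, wy)] N 0 (List.ofFn ρ))
        (rpt E) s ω).1
        (query (fun j => tw [(wx, wy)] N (j + 1) (List.ofFn ρ)) (tw [(wx, wy)] N 0 (List.ofFn ρ))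
        (rpt E) s ω).2).card * 2 ^ N ≤ 4 ^ (rpt E).length * 2 ^ (K * N) := by
  have hlen : (evE X (rpt E)).length = (rpt E).length := by
    unfold evE
    rw [List.length_map]
  have hvl : ∀ b b' : Fin N → Bool, B3_vl (ev X wx) (ev X wy) N b * B3_vl (ev X wx) (ev X wy) N b =
      B3_vl (ev X wx) (ev X wy) N b' * B3_vl (ev X wx) (ev X wy) N b' → b = b' :=
    fun b b' h => FreePair.sq hf h
  have hno' : ∀ cs : List (Bool × Bool), cs.length = (evE X (rpt E)).length →
      follow s (evE X (rpt E)) cs ≠ some (1, ω) :=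
    fun cs hcs h => hno ((yes_iff X hac s ω).2 ⟨cs, hcs, h⟩)
  have hb := bad_le (K := K) (B3_vl (ev X wx) (ev X wy) N) hvl
    (es := evE X (rpt E)) (by rw [hlen]; exact hK) (α := s) (ω := ω) hno'
  have hcard : Fintype.card (Fin N → Bool) = 2 ^ N := by
    rw [Fintype.card_fun, Fintype.card_bool, Fintype.card_fin]
  rw [hcard, hlen, ← pow_mul, mul_comm N K] at hb
  refine le_trans (Nat.mul_le_mul_right _ ?_) hb
  refine Finset.card_le_card_of_injOn
    (fun ρ k i => ρ (finProdFinEquiv (k, i))) ?_ ?_
  · intro ρ hρ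
    have hρ' := (Finset.mem_filter.1 (Finset.mem_coe.1 hρ)).2
    refine Finset.mem_coe.2 (Finset.mem_filter.2 ⟨Finset.mem_univ _, ?_⟩)
    obtain ⟨cs, hcs, htot⟩ :=
      (query_iff X (fun k => tw [(wx, wy)] N k (List.ofFn ρ)) (rpt E) s ω).1 hρ'
    refine ⟨cs, hcs.trans hlen, ?_⟩
    rw [← htot]
    refine tot_congr (fun k hk => ?_) s ω cs
    have hkK : k < K := by omega
    unfold sq
    rw [dif_pos hkK, ev_tw_pair X wx wy ρ hkK]
    rfl
  · intro ρ _ ρ' _ h
    funext j
    have h1 := congrFun (congrFun h (finProdFinEquiv.symm j).1) (finProdFinEquiv.symm j).2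
    have h2 : finProdFinEquiv ((finProdFinEquiv.symm j).1, (finProdFinEquiv.symm j).2) = j :=
      finProdFinEquiv.apply_symm_apply j
    dsimp only at h1
    rw [h2] at h1
    exact h1

private theorem B4_sound (X : Fin r → G) {wx wy : Wd} (hf : FreePair (ev X wx) (ev X wy))
    (f : List Bool → Agi) (hi : ∀ x, IsInst r (f x)) (N : ℕ → ℕ) (x : List Bool) {K M : ℕ}
    (hK : (rpt (nrm r (f x)).1).length + 1 ≤ K) (hM : M = K * N x.length)
    (hN : 2 * K ≤ N x.length) (hno : ¬ Yes X (f x)) :
    3 * (Finset.univ.filter fun a : Fin M → Bool =>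
      solve X [(wx, wy)] f N (x, List.ofFn a) = true).card ≤ 2 ^ M := by
  subst hM
  have h1 : ¬ Yes X ((nrm r (f x)).1, (nrm r (f x)).2.1, (nrm r (f x)).2.2) := by
    intro h
    exact hno ((nrm_yes X (hi x)).1 h)
  have h2 := bad_random X hf (N := N x.length) (nrm_acyc (hi x)) hK h1
  have h3 : (Finset.univ.filter fun a : Fin (K * N x.length) → Bool =>
      solve X [(wx, wy)] f N (x, List.ofFn a) = true) =
      (Finset.univ.filter fun ρ : Fin (K * N x.length) → Bool =>
      Ssp X (query (fun j => tw [(wx, wy)] (N x.length) (j + 1) (List.ofFn ρ))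
        (tw [(wx, wy)] (N x.length) 0 (List.ofFn ρ))
        (rpt (nrm r (f x)).1) (nrm r (f x)).2.1 (nrm r (f x)).2.2).1
        (query (fun j => tw [(wx, wy)] (N x.length) (j + 1) (List.ofFn ρ))
        (tw [(wx, wy)] (N x.length) 0 (List.ofFn ρ))
        (rpt (nrm r (f x)).1) (nrm r (f x)).2.1 (nrm r (f x)).2.2).2) := by
    ext ρ
    rw [Finset.mem_filter, Finset.mem_filter]
    exact and_congr_right fun _ => orcS_spec X _ _
  rw [h3]
  set c := (Finset.univ.filter fun ρ : Fin (K * N x.length) → Bool =>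
      Ssp X (query (fun j => tw [(wx, wy)] (N x.length) (j + 1) (List.ofFn ρ))
        (tw [(wx, wy)] (N x.length) 0 (List.ofFn ρ))
        (rpt (nrm r (f x)).1) (nrm r (f x)).2.1 (nrm r (f x)).2.2).1
        (query (fun j => tw [(wx, wy)] (N x.length) (j + 1) (List.ofFn ρ))
        (tw [(wx, wy)] (N x.length) 0 (List.ofFn ρ))
        (rpt (nrm r (f x)).1) (nrm r (f x)).2.1 (nrm r (f x)).2.2).2).card with hc
  have h4 : 4 * 4 ^ (rpt (nrm r (f x)).1).length ≤ 2 ^ N x.length := by
    calc 4 * 4 ^ (rpt (nrm r (f x)).1).length = 4 ^ ((rpt (nrm r (f x)).1).length + 1) := by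
          rw [pow_succ, mul_comm]
      _ ≤ 4 ^ K := Nat.pow_le_pow_right (by norm_num) hK
      _ = 2 ^ (2 * K) := by rw [pow_mul]; norm_num
      _ ≤ 2 ^ N x.length := Nat.pow_le_pow_right (by norm_num) hN
  have h5 : 0 < 4 ^ (rpt (nrm r (f x)).1).length := Nat.pow_pos (by norm_num)
  have h6 : (4 * c) * 4 ^ (rpt (nrm r (f x)).1).length ≤
      2 ^ (K * N x.length) * 4 ^ (rpt (nrm r (f x)).1).length := by
    calc (4 * c) * 4 ^ (rpt (nrm r (f x)).1).length
        = c * (4 * 4 ^ (rpt (nrm r (f x)).1).length) := by ring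
      _ ≤ c * 2 ^ N x.length := Nat.mul_le_mul_left _ h4
      _ ≤ 4 ^ (rpt (nrm r (f x)).1).length * 2 ^ (K * N x.length) := h2
      _ = 2 ^ (K * N x.length) * 4 ^ (rpt (nrm r (f x)).1).length := mul_comm _ _
  have h7 := Nat.le_of_mul_le_mul_right h6 h5
  omega

/-- A problem with a polynomial time reduction to the acyclic graph word problem is in coRP.
`Q` from `exists_size`, `N = 2 * Q + 2`, `K = Q + 1`, `p = K * N`, `R = solve X [(wx, wy)] f N`
(`orcS_spec`, `complete`, `bad_random`, `nrm_yes`, `nrm_acyc`, `exists_word`). -/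
theorem corp_of_red (X : Fin r → G) (hX : Subgroup.closure (Set.range X) = ⊤) (hS : SSP X ∈ P)
    {x y : G} (hxy : FreePair x y) {L : DecisionProblem} {f : List Bool → Agi} (hf : IsPolyTime f)
    (hfL : ∀ x, IsInst r (f x) ∧ (L x = true ↔ Yes X (f x))) : L ∈ CoRP := by
  obtain ⟨wx, rfl⟩ := exists_word X hX x
  obtain ⟨wy, rfl⟩ := exists_word X hX y
  obtain ⟨Q, hQ⟩ := exists_size (r := r) hf
  set N : Polynomial ℕ := 2 * Q + 2 with hNdef
  have hN : ∀ n, N.eval n = 2 * (Q.eval n + 1) := by
    intro n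
    rw [hNdef]
    simp only [Polynomial.eval_add, Polynomial.eval_mul, Polynomial.eval_ofNat]
    ring
  have hp : ∀ n, ((Q + 1) * N).eval n = (Q.eval n + 1) * N.eval n := by
    intro n
    simp only [Polynomial.eval_add, Polynomial.eval_mul, Polynomial.eval_one]
  refine ⟨(Q + 1) * N, solve X [(wx, wy)] f fun n => N.eval n,
    isPolyTime_of_PT2 (PT_solve hS _ hf N), fun z => ⟨?_, ?_⟩⟩
  · intro hz a
    have h1 : Yes X (nrm r (f z)) := (nrm_yes X (hfL z).1).2 ((hfL z).2.1 hz)
    exact (orcS_spec X _ _).2 (complete X (fun k => tw [(wx, wy)] (N.eval z.length) k (List.ofFn a))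
      (nrm_acyc (hfL z).1) h1)
  · intro hz
    refine B4_sound X hxy f (fun x => (hfL x).1) (fun n => N.eval n) z
      (K := Q.eval z.length + 1) (Nat.add_le_add_right (hQ z) 1) (hp z.length) (hN z.length).ge ?_
    intro h
    rw [(hfL z).2.2 h] at hz
    exact Bool.noConfusion hz

end Pool.Agent.AgpSsp
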