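import Pool.Agent.Lib.MP_a9d022_lc.Agp.Core

/-! # Counting bad assignments -/

set_option autoImplicit false

namespace Pool.Agent.AgpSsp

open Classical

variable {G : Type} [Group G] {V : Type}

/-- the tokens at the end: `1` for the vertex `ω`, and `c` for the others -/
def kap [DecidableEq V] (ω : V) (c : G) (v : V) : G := if v = ω then 1 else c

/-- the sequence of group elements given by an assignment -/
noncomputable def sq {B : Type} (K : ℕ) (vl : B → G) (γ : Fin K → B) : ℕ → G :=
  fun k => if h : k < K then vl (γ ⟨k, h⟩) else 1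

/-- the product of the start token and the chosen elements, for the sequence `τ`: `c = τ 0`,
`β j = τ (j + 1)` -/
def tot [DecidableEq V] (τ : ℕ → G) (es : List (V × V × G)) (α ω : V) (cs : List (Bool × Bool)) : G :=
  tok (kap ω (τ 0)) (fun j => τ (j + 1)) 0 es α * val (kap ω (τ 0)) (fun j => τ (j + 1)) 0 es cs

/-- Row K. If two elements of `S` which agree outside `q` are equal then `S` has at most
`|B| ^ (K - 1)` elements: `(γ, b) ↦ update γ q b` is injective on `S × B`. -/
theorem card_le_of_coord {B : Type} [Fintype B] {K : ℕ} (S : Finset (Fin K → B)) (q : Fin K)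
    (hS : ∀ γ ∈ S, ∀ γ' ∈ S, (∀ i, i ≠ q → γ i = γ' i) → γ = γ') :
    S.card * Fintype.card B ≤ Fintype.card B ^ K := by
  have h1 : (S ×ˢ (Finset.univ : Finset B)).card ≤ (Finset.univ : Finset (Fin K → B)).card := by
    apply Finset.card_le_card_of_injOn (fun p => Function.update p.1 q p.2)
    · intro p _
      exact Finset.mem_coe.2 (Finset.mem_univ _)
    · rintro ⟨γ, b⟩ hp ⟨γ', b'⟩ hp' he
      simp only [Finset.coe_product, Finset.coe_univ, Set.mem_prod, Finset.mem_coe, Set.mem_univ,
        and_true] at hp hp'
      simp only at he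
      have h2 : b = b' := by
        have := congrFun he q
        simpa using this
      have h3 : γ = γ' := by
        apply hS γ hp γ' hp'
        intro i hi
        have := congrFun he i
        rwa [Function.update_of_ne hi, Function.update_of_ne hi] at this
      rw [h2, h3]
  rw [Finset.card_product] at h1
  simpa using h1

/-- Row K. For one choice which is not a path from `α` to `ω` with label `1`. If
`follow α es cs = none` use `follow_none`: the time `i` is the coordinate `i + 1`. If
`follow α es cs = some (g, t)`, `t ≠ ω`: by `follow_val` the equation is `g * c = 1`: the coordinate `0`.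
If `t = ω`, `g ≠ 1` there is no solution. -/
theorem bad_one [DecidableEq V] {B : Type} [Fintype B] {K : ℕ} (vl : B → G)
    (hvl : ∀ b b', vl b * vl b = vl b' * vl b' → b = b') {es : List (V × V × G)}
    (hK : es.length + 1 ≤ K) {α ω : V} {cs : List (Bool × Bool)} (hcs : cs.length = es.length)
    (hno : follow α es cs ≠ some (1, ω)) :
    (Finset.univ.filter fun γ : Fin K → B => tot (sq K vl γ) es α ω cs = 1).card * Fintype.card B ≤
      Fintype.card B ^ K := by
  cases hf : follow α es cs with
  | none =>
    obtain ⟨i, _, hi, hi3⟩ := follow_none (j := 0) hcs hf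
    rw [Nat.zero_add] at hi
    apply card_le_of_coord _ ⟨i + 1, by omega⟩
    intro γ hγ γ' hγ' hag
    simp only [Finset.mem_filter, Finset.mem_univ, true_and] at hγ hγ'
    have hk : ∀ k, k ≠ i + 1 → sq K vl γ k = sq K vl γ' k := by
      intro k hk
      unfold sq
      split_ifs with h1
      · rw [hag ⟨k, h1⟩ fun h => hk (by simpa using congrArg Fin.val h)]
      · rfl
    have h0 : sq K vl γ 0 = sq K vl γ' 0 := hk 0 (by omega)
    unfold tot at hγ hγ'
    rw [← h0] at hγ'
    have h1 := hi3 (kap ω (sq K vl γ 0)) (fun j => sq K vl γ (j + 1)) (fun j => sq K vl γ' (j + 1))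
      (fun k hk' => hk (k + 1) (by omega)) (hγ.trans hγ'.symm)
    unfold sq at h1
    rw [dif_pos (by omega), dif_pos (by omega)] at h1
    have h2 : γ ⟨i + 1, by omega⟩ = γ' ⟨i + 1, by omega⟩ := hvl _ _ h1
    funext k
    by_cases hki : k = ⟨i + 1, by omega⟩
    · rw [hki]
      exact h2
    · exact hag k hki
  | some x =>
    obtain ⟨g, t⟩ := x
    by_cases ht : t = ω
    · subst ht
      have hg : g ≠ 1 := by
        rintro rfl
        exact hno hf
      have : (Finset.univ.filter fun γ : Fin K → B => tot (sq K vl γ) es α t cs = 1) = ∅ := by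
        rw [Finset.filter_eq_empty_iff]
        intro γ _ h
        unfold tot at h
        rw [follow_val _ _ hf] at h
        simp only [kap, if_true, mul_one] at h
        exact hg h
      rw [this]
      simp
    · apply card_le_of_coord _ ⟨0, by omega⟩
      intro γ hγ γ' hγ' hag
      simp only [Finset.mem_filter, Finset.mem_univ, true_and] at hγ hγ'
      unfold tot at hγ hγ'
      rw [follow_val _ _ hf] at hγ hγ'
      simp only [kap, if_neg ht] at hγ hγ'
      have h1 : sq K vl γ 0 = sq K vl γ' 0 := mul_left_cancel (hγ.trans hγ'.symm)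
      unfold sq at h1
      rw [dif_pos (by omega), dif_pos (by omega)] at h1
      have h2 : γ ⟨0, by omega⟩ = γ' ⟨0, by omega⟩ := hvl _ _ (by rw [h1])
      funext i
      by_cases hi : i = ⟨0, by omega⟩
      · rw [hi]
        exact h2
      · exact hag i hi

/-- Row K. Union over the `4 ^ es.length` choices. -/
theorem bad_le [DecidableEq V] {B : Type} [Fintype B] {K : ℕ} (vl : B → G)
    (hvl : ∀ b b', vl b * vl b = vl b' * vl b' → b = b') {es : List (V × V × G)}
    (hK : es.length + 1 ≤ K) {α ω : V}
    (hno : ∀ cs : List (Bool × Bool), cs.length = es.length → follow α es cs ≠ some (1, ω)) :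
    (Finset.univ.filter fun γ : Fin K → B => ∃ cs : List (Bool × Bool), cs.length = es.length ∧
      tot (sq K vl γ) es α ω cs = 1).card * Fintype.card B ≤ 4 ^ es.length * Fintype.card B ^ K := by
  have h1 : (Finset.univ.filter fun γ : Fin K → B => ∃ cs : List (Bool × Bool),
      cs.length = es.length ∧ tot (sq K vl γ) es α ω cs = 1) ⊆
      (Finset.univ : Finset (Fin es.length → Bool × Bool)).biUnion fun c =>
        Finset.univ.filter fun γ : Fin K → B => tot (sq K vl γ) es α ω (List.ofFn c) = 1 := by
    intro γ hγ
    simp only [Finset.mem_filter, Finset.mem_univ, true_and] at hγ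
    obtain ⟨cs, hcs, h⟩ := hγ
    simp only [Finset.mem_biUnion, Finset.mem_univ, true_and, Finset.mem_filter]
    refine ⟨fun i => cs.get (Fin.cast hcs.symm i), ?_⟩
    have : List.ofFn (fun i => cs.get (Fin.cast hcs.symm i)) = cs := by
      apply List.ext_get
      · rw [List.length_ofFn, hcs]
      · intro n h1 h2
        simp
    rw [this]
    exact h
  have h2 := (Finset.card_le_card h1).trans Finset.card_biUnion_le
  have h3 : ∀ c : Fin es.length → Bool × Bool,
      (Finset.univ.filter fun γ : Fin K → B => tot (sq K vl γ) es α ω (List.ofFn c) = 1).card *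
        Fintype.card B ≤ Fintype.card B ^ K := by
    intro c
    have hl : (List.ofFn c).length = es.length := List.length_ofFn
    exact bad_one vl hvl hK hl (hno _ hl)
  calc _ ≤ (∑ c : Fin es.length → Bool × Bool,
        (Finset.univ.filter fun γ : Fin K → B => tot (sq K vl γ) es α ω (List.ofFn c) = 1).card) *
          Fintype.card B := Nat.mul_le_mul_right _ h2
    _ = ∑ c : Fin es.length → Bool × Bool,
        (Finset.univ.filter fun γ : Fin K → B => tot (sq K vl γ) es α ω (List.ofFn c) = 1).card *
          Fintype.card B := Finset.sum_mul _ _ _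
    _ ≤ ∑ _c : Fin es.length → Bool × Bool, Fintype.card B ^ K := Finset.sum_le_sum fun c _ => h3 c
    _ = 4 ^ es.length * Fintype.card B ^ K := by
      rw [Finset.sum_const, smul_eq_mul, Finset.card_univ]
      congr 1
      simp

/-- Row K2. One assignment of the tokens which is good for a finite family of no instances: sum of
`bad_le` over the family. -/
theorem exists_good [DecidableEq V] {B : Type} [Fintype B] {Q : ℕ} (vl : B → G)
    (hvl : ∀ b b', vl b * vl b = vl b' * vl b' → b = b') {ι : Type} [Fintype ι]
    (es : ι → List (V × V × G)) (α ω : ι → V) (hQ : ∀ i, (es i).length ≤ Q)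
    (hB : Fintype.card ι * 4 ^ Q < Fintype.card B)
    (hno : ∀ i, ∀ cs : List (Bool × Bool), cs.length = (es i).length →
      follow (α i) (es i) cs ≠ some (1, ω i)) :
    ∃ γ : Fin (Q + 1) → B, ∀ i, ∀ cs : List (Bool × Bool), cs.length = (es i).length →
      tot (sq (Q + 1) vl γ) (es i) (α i) (ω i) cs ≠ 1 := by
  by_contra hcon
  push Not at hcon
  have hBpos : 0 < Fintype.card B := by omega
  have h1 : (Finset.univ : Finset (Fin (Q + 1) → B)) ⊆
      (Finset.univ : Finset ι).biUnion fun i =>
        Finset.univ.filter fun γ : Fin (Q + 1) → B => ∃ cs : List (Bool × Bool),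
          cs.length = (es i).length ∧ tot (sq (Q + 1) vl γ) (es i) (α i) (ω i) cs = 1 := by
    intro γ _
    obtain ⟨i, cs, h, h'⟩ := hcon γ
    simp only [Finset.mem_biUnion, Finset.mem_univ, true_and, Finset.mem_filter]
    exact ⟨i, cs, h, h'⟩
  have h2 := (Finset.card_le_card h1).trans Finset.card_biUnion_le
  have h3 : ∀ i, (Finset.univ.filter fun γ : Fin (Q + 1) → B => ∃ cs : List (Bool × Bool),
          cs.length = (es i).length ∧ tot (sq (Q + 1) vl γ) (es i) (α i) (ω i) cs = 1).card *
            Fintype.card B ≤ 4 ^ Q * Fintype.card B ^ (Q + 1) := by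
    intro i
    refine (bad_le vl hvl (by have := hQ i; omega) (hno i)).trans ?_
    exact Nat.mul_le_mul_right _ (Nat.pow_le_pow_right (by norm_num) (hQ i))
  have h4 : Fintype.card B ^ (Q + 1) * Fintype.card B ≤
      (Fintype.card ι * 4 ^ Q) * Fintype.card B ^ (Q + 1) := by
    calc Fintype.card B ^ (Q + 1) * Fintype.card B =
          (Finset.univ : Finset (Fin (Q + 1) → B)).card * Fintype.card B := by simp
      _ ≤ (∑ i : ι, (Finset.univ.filter fun γ : Fin (Q + 1) → B => ∃ cs : List (Bool × Bool),
          cs.length = (es i).length ∧ tot (sq (Q + 1) vl γ) (es i) (α i) (ω i) cs = 1).card) *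
            Fintype.card B := Nat.mul_le_mul_right _ h2
      _ = ∑ i : ι, (Finset.univ.filter fun γ : Fin (Q + 1) → B => ∃ cs : List (Bool × Bool),
          cs.length = (es i).length ∧ tot (sq (Q + 1) vl γ) (es i) (α i) (ω i) cs = 1).card *
            Fintype.card B := Finset.sum_mul _ _ _
      _ ≤ ∑ _i : ι, 4 ^ Q * Fintype.card B ^ (Q + 1) := Finset.sum_le_sum fun i _ => h3 i
      _ = (Fintype.card ι * 4 ^ Q) * Fintype.card B ^ (Q + 1) := by
        rw [Finset.sum_const, smul_eq_mul, Finset.card_univ]
        ring
  have h5 : 0 < Fintype.card B ^ (Q + 1) := Nat.pow_pos hBpos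
  rw [mul_comm] at h4
  have h6 := Nat.le_of_mul_le_mul_right h4 h5
  omega

end Pool.Agent.AgpSsp
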