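import Pool.Agent.Lib.MP_a9d022_lc.Final

/-! # Total polynomial time decoders for the typed encodings -/

namespace Pool.Agent.AgpSsp.SG

open Pool.Agent.MSR Pool.Agent.MSR.En N487b59b3

variable {α : Type} [En α]

/-- one step of the splitting of a string after its first delimited block; the state is the phase
(0: a marker is expected, 1: a bit is expected, 2: rest), the block and the rest -/
def spStep (c : ℕ × List Bool × List Bool) (b : Bool) : ℕ × List Bool × List Bool :=
  cond (isz c.1) (cond b (1, c.2.1, c.2.2) (2, c.2.1, c.2.2))
    (cond (isz (c.1 - 1)) (0, c.2.1 ++ [b], c.2.2) (c.1, c.2.1, c.2.2 ++ [b]))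

/-- the first delimited block and the rest of a string -/
def splitD (l : List Bool) : List Bool × List Bool := (l.foldl spStep (0, [], [])).2

theorem spStep_rest (y : List Bool) : ∀ u v : List Bool,
    y.foldl spStep (2, u, v) = (2, u, v ++ y) := by
  induction y with
  | nil => intro u v; simp
  | cons b y ih => intro u v; rw [List.foldl_cons]; simp only [spStep]; simp [isz, ih]

theorem spStep_block (x : List Bool) : ∀ u : List Bool,
    (delimit x).foldl spStep (0, u, []) = (2, u ++ x, []) := by
  induction x with
  | nil => intro u; simp [delimit, spStep, isz]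
  | cons b x ih =>
    intro u
    rw [show delimit (b :: x) = true :: b :: delimit x from rfl, List.foldl_cons, List.foldl_cons]
    have h1 : spStep (spStep (0, u, []) true) b = (0, u ++ [b], []) := by simp [spStep, isz]
    rw [h1, ih]
    simp

theorem splitD_delimit (x y : List Bool) : splitD (delimit x ++ y) = (x, y) := by
  unfold splitD
  rw [List.foldl_append, spStep_block, spStep_rest]
  simp

/-- one step of the splitting of a string in delimited blocks -/
def blStep (c : ℕ × List Bool × List (List Bool)) (b : Bool) : ℕ × List Bool × List (List Bool) :=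
  cond (isz c.1) (cond b (1, c.2.1, c.2.2) (0, [], c.2.2 ++ [c.2.1])) (0, c.2.1 ++ [b], c.2.2)

/-- the delimited blocks of a string -/
def blocks (l : List Bool) : List (List Bool) := (l.foldl blStep (0, [], [])).2.2

theorem blStep_block (x : List Bool) : ∀ (u : List Bool) (v : List (List Bool)),
    (delimit x).foldl blStep (0, u, v) = (0, [], v ++ [u ++ x]) := by
  induction x with
  | nil => intro u v; simp [delimit, blStep, isz]
  | cons b x ih =>
    intro u v
    rw [show delimit (b :: x) = true :: b :: delimit x from rfl, List.foldl_cons, List.foldl_cons]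
    have h1 : blStep (blStep (0, u, v) true) b = (0, u ++ [b], v) := by simp [blStep, isz]
    rw [h1, ih]
    simp

theorem blStep_blocks (l : List (List Bool)) : ∀ v : List (List Bool),
    ((l.map delimit).flatten).foldl blStep (0, [], v) = (0, [], v ++ l) := by
  induction l with
  | nil => intro v; simp
  | cons x l ih =>
    intro v
    rw [List.map_cons, List.flatten_cons, List.foldl_append, blStep_block, ih]
    simp

theorem blocks_flatten (l : List (List Bool)) : blocks ((l.map delimit).flatten) = l := by
  unfold blocks
  rw [blStep_blocks]
  simp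

theorem PT_splitD {f : α → List Bool} (hf : PT f) : PT (fun a => splitD (f a)) := by
  unfold splitD
  apply PT.snd
  apply PT.foldl_add hf (PT.const _)
  · unfold spStep
    fun_prop
  · refine ⟨fun _ => 10, PB.const 10, ?_⟩
    intro a c b _
    obtain ⟨n, u, v⟩ := c
    unfold spStep
    simp only [isz]
    rcases n with _ | _ | n
    · cases b <;> simp [sz_pair, sz_nat] <;> omega
    · simp [sz_pair, sz_nat, sz_append, sz_cons, sz_nil, sz_bool]; omega
    · simp [sz_pair, sz_nat, sz_append, sz_cons, sz_nil, sz_bool]; omega

theorem PT_blocks {f : α → List Bool} (hf : PT f) : PT (fun a => blocks (f a)) := by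
  unfold blocks
  apply PT.snd
  apply PT.snd
  apply PT.foldl_add hf (PT.const _)
  · unfold blStep
    fun_prop
  · refine ⟨fun _ => 10, PB.const 10, ?_⟩
    intro a c b _
    obtain ⟨n, u, v⟩ := c
    unfold blStep
    simp only [isz]
    rcases n with _ | n
    · cases b
      · simp [sz_pair, sz_nat, sz_append, sz_cons, sz_nil]; omega
      · simp [sz_pair, sz_nat]; omega
    · simp [sz_pair, sz_nat, sz_append, sz_cons, sz_nil, sz_bool]; omega

/-- types with a total polynomial time decoder -/
class Dc (β : Type) [En β] where
  /-- the decoder -/
  dec : List Bool → β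
  dec_enc : ∀ b : β, dec (enc b) = b
  pt : PT dec

open Dc

theorem PT_dec {β : Type} [En β] [Dc β] {f : α → List Bool} (hf : PT f) :
    PT (fun a => (dec (f a) : β)) := (Dc.pt (β := β)).comp hf

instance : Dc Bool where
  dec l := l.headD false
  dec_enc b := rfl
  pt := PT.headD PT.id' (PT.const _)

instance : Dc ℕ where
  dec l := l.length
  dec_enc n := by show (List.replicate n true).length = n; simp
  pt := PT.length PT.id'

instance {β γ : Type} [En β] [En γ] [Dc β] [Dc γ] : Dc (β × γ) where
  dec l := (dec (splitD l).1, dec (splitD l).2)
  dec_enc p := by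
    obtain ⟨a, b⟩ := p
    rw [enc_pair, splitD_delimit, dec_enc, dec_enc]
  pt := PT.pair (PT_dec (PT.fst (PT_splitD PT.id'))) (PT_dec (PT.snd (PT_splitD PT.id')))

instance {β : Type} [En β] [Dc β] : Dc (List β) where
  dec l := (blocks l).map dec
  dec_enc l := by
    show (blocks (((l.map enc).map delimit).flatten)).map dec = l
    rw [blocks_flatten, List.map_map]
    conv_rhs => rw [← List.map_id l]
    apply List.map_congr_left
    intro b _
    exact dec_enc b
  pt := PT.map (PT_blocks PT.id') (PT_dec (PT.snd PT.id'))

end Pool.Agent.AgpSsp.SG
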