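import Pool.Agent.Lib.MP_a9d022_lc.Final

/-! # The acyclic graph word problem: definitions -/

set_option autoImplicit false

namespace Pool.Agent.AgpSsp

open N68a2faeb N487b59b3 Pool.Agent.SspConj

/-- labelled edges: (tail, head, label); the label is a word in the generators -/
abbrev Edg (V : Type) : Type := V × V × Wd

/-- `p` is a directed path from `s` to `t` in the graph with the edges `E` -/
def IsPath {V : Type} (E : List (Edg V)) : V → V → List (Edg V) → Prop
  | s, t, [] => s = t
  | s, t, e :: p => e ∈ E ∧ e.1 = s ∧ IsPath E e.2.1 t p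

/-- the label of a path: the concatenation of the labels of its edges -/
def lbl {V : Type} (p : List (Edg V)) : Wd := p.flatMap fun e => e.2.2

/-- instances of the acyclic graph word problem: (list of edges, `α`, `ω`); the vertices are named by
natural numbers (encoded in binary) -/
abbrev Agi : Type := List (ℕ × ℕ × List (ℕ × Bool)) × ℕ × ℕ

/-- The graph is acyclic, and every label is empty or a generator or the inverse of a generator. -/
structure IsInst (r : ℕ) (I : Agi) : Prop where
  lab : ∀ e ∈ I.1, e.2.2.length ≤ 1 ∧ ∀ c ∈ e.2.2, c.1 < r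
  acyc : ∀ v p, IsPath I.1 v v p → p = []

/-- The class P/poly: polynomial time with an advice string which depends only on the length of the
input and has polynomial length. -/
def PPoly : DecisionComplexityClass :=
  { L | ∃ (p : Polynomial ℕ) (a : ℕ → List Bool) (R : (List Bool × List Bool) → Bool),
      IsPolyTime R ∧ (∀ n, (a n).length ≤ p.eval n) ∧ ∀ x, L x = R (x, a x.length) }

/-- The class coRP (with error probability at most 1/3 on the no instances). -/
def CoRP : DecisionComplexityClass :=
  { L | ∃ (p : Polynomial ℕ), ∃ R : (List Bool × List Bool) → Bool, IsPolyTime R ∧ ∀ x,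
      (L x = true → ∀ a : Fin (p.eval x.length) → Bool, R (x, List.ofFn a) = true) ∧
      (L x = false → 3 * (Finset.univ.filter fun a : Fin (p.eval x.length) → Bool =>
          R (x, List.ofFn a) = true).card ≤ 2 ^ p.eval x.length) }

/-- The problems which, for every `k`, can be decided on the inputs of length `n` in polynomial time
with an advice string of length at most `2 ^ (n ^ (1 / k))`, for infinitely many `n`. -/
def IoSubexp : DecisionComplexityClass :=
  { L | ∀ k : ℕ, ∃ R : (List Bool × List Bool) → Bool, IsPolyTime R ∧
      ∀ n₀ : ℕ, ∃ n ≥ n₀, ∃ m : ℕ, m ^ k ≤ n ∧ ∃ a : List Bool, a.length ≤ 2 ^ m ∧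
        ∀ x : List Bool, x.length = n → L x = R (x, a) }

section
variable {G : Type} [Group G] {r : ℕ}

/-- There is a directed path from `α` to `ω` whose label is `1` in the group. -/
def Yes (X : Fin r → G) {V : Type} (I : List (Edg V) × V × V) : Prop :=
  ∃ p, IsPath I.1 I.2.1 I.2.2 p ∧ ev X (lbl p) = 1

/-- The acyclic graph word problem is NP-hard: every problem in `NP` has a polynomial time many-one
reduction to it. -/
def NPHardAGP (X : Fin r → G) : Prop :=
  ∀ L ∈ NP, ∃ f : List Bool → Agi, IsPolyTime f ∧ ∀ x, IsInst r (f x) ∧ (L x = true ↔ Yes X (f x))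

/-- `x` and `y` generate freely a free monoid -/
def FreePair (x y : G) : Prop :=
  Function.Injective fun w : List Bool => (w.map fun b => if b then x else y).prod

/-- the ball of radius `N` -/
def Ball (X : Fin r → G) (N : ℕ) : Set G :=
  {g | ∃ l : List (Fin r × Bool), l.length ≤ N ∧
    g = (l.map fun c => if c.2 then (X c.1)⁻¹ else X c.1).prod}

/-- The growth function of the group is at least `2 ^ (n ^ (1 / k))` for some `k`: for all large `m`,
the ball of radius `m ^ k` has at least `2 ^ m` elements. -/
def FastGrowth (X : Fin r → G) : Prop := ∃ k, ∀ m ≥ k, 2 ^ m ≤ (Ball X (m ^ k)).ncard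

end

end Pool.Agent.AgpSsp
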