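import Pool.Agent.Lib.MP_a9d022_lc.Agp.Dich

/-! # Independent families of central involutions, and products of squares -/

set_option autoImplicit false

namespace Pool.Agent.AgpSsp

variable {G : Type} [Group G] {r : ℕ}

/-- no product of different `z m` with `m < M` is in `S`, except (possibly) the empty product -/
def Ind (S : Set G) (M : ℕ) (z : ℕ → G) : Prop :=
  ∀ l : List ℕ, l.Nodup → (∀ m ∈ l, m < M) → (l.map z).prod ∈ S → l = []

open scoped IsMulCommutative in
theorem W1_aux {S C : Set G} (hS : S.Finite) (hC : C.Finite) (hcen : C ⊆ Subgroup.center G) (M : ℕ)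
    (h : 2 ^ M * S.ncard < C.ncard) (m : ℕ) (hm : m ≤ M) :
    ∃ z : ℕ → Subgroup.center G, (∀ k, (z k : G) ∈ C) ∧
      ∀ l : List ℕ, l.Nodup → (∀ k ∈ l, k < m) → (((l.map z).prod : Subgroup.center G) : G) ∈ S → l = [] := by
  classical
  induction m with
  | zero =>
    have hne : C.Nonempty := Set.nonempty_of_ncard_ne_zero (Nat.ne_of_gt (lt_of_le_of_lt (Nat.zero_le _) h))
    obtain ⟨c, hc⟩ := hne
    refine ⟨fun _ => ⟨c, hcen hc⟩, fun _ => hc, fun l _ hl _ => ?_⟩
    exact List.eq_nil_iff_forall_not_mem.2 fun k hk => absurd (hl k hk) (Nat.not_lt_zero k)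
  | succ m ih =>
    obtain ⟨z, hz, hind⟩ := ih (Nat.le_of_succ_le hm)
    let Bad : Finset G := (hS.toFinset ×ˢ (Finset.range m).powerset).image
      fun p => p.1 * ((∏ i ∈ p.2, z i : Subgroup.center G) : G)⁻¹
    have hcard : Bad.card < hC.toFinset.card := by
      have h1 : Bad.card ≤ (hS.toFinset ×ˢ (Finset.range m).powerset).card := Finset.card_image_le
      rw [Finset.card_product, Finset.card_powerset, Finset.card_range,
        ← Set.ncard_eq_toFinset_card _ hS] at h1
      rw [← Set.ncard_eq_toFinset_card _ hC]
      have h2 : 2 ^ m ≤ 2 ^ M := Nat.pow_le_pow_right (by norm_num) (by omega)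
      calc Bad.card ≤ S.ncard * 2 ^ m := h1
        _ ≤ S.ncard * 2 ^ M := Nat.mul_le_mul_left _ h2
        _ = 2 ^ M * S.ncard := Nat.mul_comm _ _
        _ < C.ncard := h
    obtain ⟨c, hc, hcB⟩ := Finset.exists_mem_notMem_of_card_lt_card hcard
    rw [Set.Finite.mem_toFinset] at hc
    refine ⟨Function.update z m ⟨c, hcen hc⟩, fun k => ?_, fun l hnd hl hlS => ?_⟩
    · by_cases hk : k = m
      · rw [hk, Function.update_self]
        exact hc
      · rw [Function.update_of_ne hk]
        exact hz k
    · have hmap : ∀ l' : List ℕ, m ∉ l' →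
          l'.map (Function.update z m ⟨c, hcen hc⟩) = l'.map z := by
        intro l' hl'
        refine List.map_congr_left fun k hk => ?_
        rw [Function.update_of_ne]
        rintro rfl
        exact hl' hk
      by_cases hml : m ∈ l
      · exfalso
        obtain ⟨l1, l2, rfl⟩ := List.append_of_mem hml
        have hnd' : (l1 ++ l2).Nodup ∧ m ∉ l1 ++ l2 := by
          have := List.nodup_middle.1 hnd
          rw [List.nodup_cons] at this
          exact ⟨this.2, this.1⟩
        have hm1 : m ∉ l1 := fun h1 => hnd'.2 (List.mem_append_left _ h1)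
        have hm2 : m ∉ l2 := fun h1 => hnd'.2 (List.mem_append_right _ h1)
        rw [List.map_append, List.map_cons, hmap l1 hm1, hmap l2 hm2, Function.update_self,
          List.prod_append, List.prod_cons] at hlS
        apply hcB
        refine Finset.mem_image.2 ⟨((((l1.map z).prod * (⟨c, hcen hc⟩ * (l2.map z).prod) :
          Subgroup.center G) : G), (l1 ++ l2).toFinset), ?_, ?_⟩
        · rw [Finset.mem_product, Set.Finite.mem_toFinset, Finset.mem_powerset]
          refine ⟨hlS, fun k hk => ?_⟩
          rw [List.mem_toFinset] at hk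
          rw [Finset.mem_range]
          have hk1 : k < m + 1 := by
            apply hl
            rcases List.mem_append.1 hk with h1 | h1
            · exact List.mem_append_left _ h1
            · exact List.mem_append_right _ (List.mem_cons_of_mem _ h1)
          have hk2 : k ≠ m := by
            rintro rfl
            exact hnd'.2 hk
          omega
        · have h1 : ∏ i ∈ (l1 ++ l2).toFinset, z i = (l1.map z).prod * (l2.map z).prod := by
            rw [List.prod_toFinset z hnd'.1, List.map_append, List.prod_append]
          change (((l1.map z).prod * (⟨c, hcen hc⟩ * (l2.map z).prod) : Subgroup.center G) : G) *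
            ((∏ i ∈ (l1 ++ l2).toFinset, z i : Subgroup.center G) : G)⁻¹ = c
          rw [h1]
          have h2 : ((l1.map z).prod * (⟨c, hcen hc⟩ * (l2.map z).prod) : Subgroup.center G) *
              ((l1.map z).prod * (l2.map z).prod)⁻¹ = ⟨c, hcen hc⟩ := by
            rw [mul_inv_eq_iff_eq_mul]
            exact mul_left_comm _ _ _
          exact congrArg Subtype.val h2
      · rw [hmap l hml] at hlS
        refine hind l hnd (fun k hk => ?_) hlS
        have h1 := hl k hk
        have h2 : k ≠ m := by
          rintro rfl
          exact hml hk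
        omega

/-- Row W1. Choose `z 0, z 1, …` one after the other: `z m` in `C` outside the set of all
`s * ((t.map z).prod)⁻¹`, `s ∈ S`, `t` a list without repetitions of numbers `< m`; since the elements of
`C` commute, `(t.map z).prod` depends only on `t.toFinset`, so there are at most `2 ^ m * |S|` such
elements. For a nonempty `l` let `m` be the largest entry. -/
theorem exists_ind {S C : Set G} (hS : S.Finite) (hC : C.Finite) (hcen : C ⊆ Subgroup.center G) (M : ℕ)
    (h : 2 ^ M * S.ncard < C.ncard) : ∃ z : ℕ → G, (∀ m, z m ∈ C) ∧ Ind S M z := by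
  obtain ⟨z, hz, hind⟩ := W1_aux hS hC hcen M h M le_rfl
  refine ⟨fun m => (z m : G), hz, fun l hnd hl hlS => hind l hnd hl ?_⟩
  have h1 : (((l.map z).prod : Subgroup.center G) : G) = (l.map fun m => (z m : G)).prod := by
    have := map_list_prod (Subgroup.center G).subtype (l.map z)
    rw [List.map_map] at this
    exact this
  rw [h1]
  exact hlS

/-- the number of letters with the index `i` is even, for all `i` -/
def EvenW (l : List (Fin r × Bool)) : Prop := ∀ i, Even (l.countP fun c => decide (c.1 = i))

/-- the inverse word -/
def W2_inv (l : List (Fin r × Bool)) : List (Fin r × Bool) := (l.map fun c => (c.1, !c.2)).reverse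

theorem W2_append (X : Fin r → G) (l m : List (Fin r × Bool)) : lval X (l ++ m) = lval X l * lval X m := by
  unfold lval
  rw [List.map_append, List.prod_append]

theorem W2_cons (X : Fin r → G) (c : Fin r × Bool) (l : List (Fin r × Bool)) :
    lval X (c :: l) = lval X [c] * lval X l := by
  rw [← W2_append]
  rfl

theorem W2_flip (X : Fin r → G) (c : Fin r × Bool) : lval X [(c.1, !c.2)] = (lval X [c])⁻¹ := by
  unfold lval
  rcases c with ⟨i, b⟩
  cases b <;> simp

theorem W2_inv_val (X : Fin r → G) (l : List (Fin r × Bool)) : lval X (W2_inv l) = (lval X l)⁻¹ := by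
  induction l with
  | nil => simp [W2_inv, lval]
  | cons c l ih =>
    have h1 : W2_inv (c :: l) = W2_inv l ++ [(c.1, !c.2)] := by
      unfold W2_inv
      rw [List.map_cons, List.reverse_cons]
    rw [h1, W2_append, ih, W2_flip, W2_cons X c l, mul_inv_rev]

theorem W2_inv_length (l : List (Fin r × Bool)) : (W2_inv l).length = l.length := by
  unfold W2_inv
  rw [List.length_reverse, List.length_map]

theorem W2_inv_count (l : List (Fin r × Bool)) (i : Fin r) :
    (W2_inv l).countP (fun c => decide (c.1 = i)) = l.countP fun c => decide (c.1 = i) := by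
  unfold W2_inv
  rw [List.countP_reverse, List.countP_map]
  rfl

theorem W2_main (X : Fin r → G) (n : ℕ) : ∀ l : List (Fin r × Bool), l.length = n → EvenW l →
    ∃ hs : List (List (Fin r × Bool)), hs.length = l.length ∧ (∀ h ∈ hs, h.length ≤ 2 * l.length) ∧
      lval X l = (hs.map fun h => lval X h * lval X h).prod := by
  induction n using Nat.strong_induction_on with
  | _ n ih =>
    intro l hn hl
    rcases l with _ | ⟨c, l'⟩
    · exact ⟨[], rfl, by simp, rfl⟩
    · have h1 := hl c.1
      rw [List.countP_cons_of_pos (by simp)] at h1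
      have h2 : 0 < l'.countP fun c' => decide (c'.1 = c.1) := by
        rcases Nat.eq_zero_or_pos (l'.countP fun c' => decide (c'.1 = c.1)) with h3 | h3
        · rw [h3] at h1
          exact absurd h1 (by decide)
        · exact h3
      obtain ⟨c', hc', hcc⟩ := List.countP_pos_iff.1 h2
      have hcc' : c'.1 = c.1 := by simpa using hcc
      obtain ⟨v, v', rfl⟩ := List.append_of_mem hc'
      have hlen : (c :: (v ++ c' :: v')).length = v.length + v'.length + 2 := by
        simp only [List.length_cons, List.length_append]
        omega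
      have hev : EvenW (W2_inv v ++ v') := by
        intro i
        have h3 := hl i
        rw [List.countP_append, W2_inv_count]
        rw [List.countP_cons, List.countP_append, List.countP_cons, hcc'] at h3
        by_cases hi : c.1 = i
        · simp only [hi, decide_true, if_true] at h3
          have e : v.countP (fun c => decide (c.1 = i)) +
              (v'.countP (fun c => decide (c.1 = i)) + 1) + 1 =
              v.countP (fun c => decide (c.1 = i)) + v'.countP (fun c => decide (c.1 = i)) + 2 := by
            ring
          rw [e] at h3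
          exact (Nat.even_add.1 h3).2 even_two
        · simpa [hi] using h3
      obtain ⟨hs, hs1, hs2, hs3⟩ := ih (v.length + v'.length) (by omega) (W2_inv v ++ v')
        (by rw [List.length_append, W2_inv_length]) hev
      rw [List.length_append, W2_inv_length] at hs1 hs2
      rw [W2_append, W2_inv_val] at hs3
      have hval : lval X (c :: (v ++ c' :: v')) = lval X [c] * lval X v * (lval X [c'] * lval X v') := by
        rw [W2_cons, W2_append, W2_cons X c' v', ← mul_assoc]
      by_cases hb : c'.2 = c.2
      · have hc : c' = c := Prod.ext hcc' hb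
        refine ⟨(c :: v) :: [] :: hs, ?_, ?_, ?_⟩
        · rw [hlen]
          simp only [List.length_cons]
          omega
        · intro h hh
          rw [hlen]
          simp only [List.mem_cons] at hh
          rcases hh with rfl | rfl | hh
          · simp only [List.length_cons]
            omega
          · simp
          · have := hs2 h hh
            omega
        · rw [hval, hc, List.map_cons, List.map_cons, List.prod_cons, List.prod_cons, ← hs3,
            W2_cons X c v]
          have h4 : lval X [] = 1 := rfl
          rw [h4]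
          group
      · have hc : c' = (c.1, !c.2) := by
          refine Prod.ext hcc' ?_
          change c'.2 = !c.2
          revert hb
          cases c'.2 <;> cases c.2 <;> simp
        refine ⟨(c :: v) :: (W2_inv v ++ (c' :: v)) :: hs, ?_, ?_, ?_⟩
        · rw [hlen]
          simp only [List.length_cons]
          omega
        · intro h hh
          rw [hlen]
          simp only [List.mem_cons] at hh
          rcases hh with rfl | rfl | hh
          · simp only [List.length_cons]
            omega
          · rw [List.length_append, W2_inv_length, List.length_cons]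
            omega
          · have := hs2 h hh
            omega
        · rw [hval, List.map_cons, List.map_cons, List.prod_cons, List.prod_cons, ← hs3,
            W2_append, W2_inv_val, W2_cons X c v, W2_cons X c' v, hc, W2_flip]
          group

/-- Row W2. Induction on the length: `x v x v' = (x v)² v⁻¹ v'` and
`x v x⁻¹ v' = (x v)² (v⁻¹ x⁻¹ v)² v⁻¹ v'`, where `v` is the part before the next letter with the same
index; the word `v⁻¹ v'` is again even. -/
theorem even_squares (X : Fin r → G) {l : List (Fin r × Bool)} (hl : EvenW l) :
    ∃ hs : List (List (Fin r × Bool)), hs.length = l.length ∧ (∀ h ∈ hs, h.length ≤ 2 * l.length) ∧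
      lval X l = (hs.map fun h => lval X h * lval X h).prod := by
  exact W2_main X l.length l rfl hl

private theorem W3_lval_append (X : Fin r → G) (l m : List (Fin r × Bool)) :
    lval X (l ++ m) = lval X l * lval X m := by
  unfold lval
  rw [List.map_append, List.prod_append]

private theorem W3_lval_inv (X : Fin r → G) (l : List (Fin r × Bool)) :
    lval X ((l.map fun c => (c.1, !c.2)).reverse) = (lval X l)⁻¹ := by
  induction l with
  | nil => simp [lval]
  | cons c l ih =>
    rw [List.map_cons, List.reverse_cons, W3_lval_append, ih]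
    have h1 : lval X (c :: l) = (if c.2 then (X c.1)⁻¹ else X c.1) * lval X l := by
      unfold lval
      rw [List.map_cons, List.prod_cons]
    rw [h1, mul_inv_rev]
    congr 1
    unfold lval
    obtain ⟨a, b⟩ := c
    cases b <;> simp

private theorem W3_range (L : List G) : ∀ n, L.length ≤ n →
    ((List.range n).map fun i => L.getD i 1 * L.getD i 1).prod = (L.map fun g => g * g).prod := by
  induction L with
  | nil =>
    intro n _
    have h1 : (fun i => ([] : List G).getD i 1 * ([] : List G).getD i 1) = fun _ => (1 : G) := by
      funext i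
      simp
    rw [h1]
    simp
  | cons a L ih =>
    intro n hn
    rw [List.length_cons] at hn
    obtain ⟨m, rfl⟩ : ∃ m, n = m + 1 := ⟨n - 1, by omega⟩
    rw [List.range_succ_eq_map, List.map_cons, List.map_map, List.prod_cons, List.map_cons, List.prod_cons,
      ← ih m (by omega)]
    rfl

/-- Row W3. Choose words of length `≤ R` for the elements of `Wb X R`; at least `2 ^ (T + 1)` of them have
the same parities of the numbers of letters, so the quotients of their values by one of them are more
than `2 ^ T` elements of `Wb X (2 * R)` with even words of length `≤ 2 * R`. Apply `exists_ind` (`S = {1}`)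
and `even_squares` (fill up the list of squares with `1 * 1`). -/
theorem exists_y (X : Fin r → G) {R T : ℕ} (h : 2 ^ (T + r + 1) ≤ (Wb X R).ncard) :
    ∃ g : ℕ → ℕ → G, (∀ k i, g k i ∈ Ball X (4 * R)) ∧
      (∀ k, ((List.range (2 * R)).map fun i => g k i * g k i).prod ∈ Wb X (2 * R)) ∧
      Ind {1} T fun k => ((List.range (2 * R)).map fun i => g k i * g k i).prod := by
  classical
  have hfin : (Wb X R).Finite := (ball_finite X R).1.subset fun g hg => hg.1
  have hword : ∀ g : G, ∃ l : List (Fin r × Bool), g ∈ Wb X R → l.length ≤ R ∧ g = lval X l := by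
    intro g
    by_cases hg : g ∈ Wb X R
    · obtain ⟨l, hl⟩ := mem_ball.1 hg.1
      exact ⟨l, fun _ => hl⟩
    · exact ⟨[], fun h => absurd h hg⟩
  choose w hw using hword
  obtain ⟨π, _, hπ⟩ := Finset.exists_le_card_fiber_of_mul_le_card_of_maps_to (s := hfin.toFinset)
    (t := (Finset.univ : Finset (Fin r → Bool))) (n := 2 ^ (T + 1))
    (f := fun g i => decide (Even ((w g).countP fun c => decide (c.1 = i))))
    (fun a _ => Finset.mem_univ _) ⟨fun _ => true, Finset.mem_univ _⟩ (by
      rw [Finset.card_univ, Fintype.card_fun, Fintype.card_bool, Fintype.card_fin,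
        ← Set.ncard_eq_toFinset_card _ hfin, ← pow_add]
      refine le_trans (le_of_eq ?_) h
      congr 1
      omega)
  have hne : (hfin.toFinset.filter fun g =>
      (fun i => decide (Even ((w g).countP fun c => decide (c.1 = i)))) = π).Nonempty := by
    rw [← Finset.card_pos]
    exact lt_of_lt_of_le (pow_pos two_pos _) hπ
  obtain ⟨g₀, hg₀⟩ := hne
  rw [Finset.mem_filter, Set.Finite.mem_toFinset] at hg₀
  obtain ⟨hg₀W, hg₀π⟩ := hg₀
  set F := hfin.toFinset.filter fun g =>
      (fun i => decide (Even ((w g).countP fun c => decide (c.1 = i)))) = π with hF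
  have hC : ∀ z ∈ (F.image fun g => g₀⁻¹ * g), z ∈ Wb X (2 * R) ∧
      ∃ l : List (Fin r × Bool), l.length ≤ 2 * R ∧ EvenW l ∧ z = lval X l := by
    intro z hz
    obtain ⟨g, hg, rfl⟩ := Finset.mem_image.1 hz
    rw [hF, Finset.mem_filter, Set.Finite.mem_toFinset] at hg
    obtain ⟨hgW, hgπ⟩ := hg
    obtain ⟨hl0, hv0⟩ := hw g₀ hg₀W
    obtain ⟨hl1, hv1⟩ := hw g hgW
    have hlen : (((w g₀).map fun c => (c.1, !c.2)).reverse ++ w g).length ≤ 2 * R := by
      rw [List.length_append, List.length_reverse, List.length_map]
      omega
    have hval : g₀⁻¹ * g = lval X (((w g₀).map fun c => (c.1, !c.2)).reverse ++ w g) := by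
      rw [W3_lval_append, W3_lval_inv, ← hv0, ← hv1]
    refine ⟨⟨mem_ball.2 ⟨_, hlen, hval⟩, Subgroup.mul_mem _ (Subgroup.inv_mem _ hg₀W.2.1) hgW.2.1, ?_⟩,
      _, hlen, ?_, hval⟩
    · have hc := Subgroup.mem_center_iff.1 hgW.2.1 g₀⁻¹
      have h2 : g₀⁻¹ * g₀⁻¹ = 1 := by
        rw [← mul_inv_rev, hg₀W.2.2, inv_one]
      calc g₀⁻¹ * g * (g₀⁻¹ * g) = g₀⁻¹ * (g * g₀⁻¹) * g := by group
        _ = g₀⁻¹ * (g₀⁻¹ * g) * g := by rw [hc]
        _ = (g₀⁻¹ * g₀⁻¹) * (g * g) := by group
        _ = 1 := by rw [h2, hgW.2.2, one_mul]
    · intro i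
      rw [List.countP_append, List.countP_reverse, List.countP_map]
      have h3 := congrFun (hg₀π.trans hgπ.symm) i
      have h4 : Even ((w g₀).countP fun c => decide (c.1 = i)) ↔ Even ((w g).countP fun c => decide (c.1 = i)) := by
        simpa using h3
      rw [Nat.even_add]
      exact h4
  have hcard : 2 ^ T * ({1} : Set G).ncard < ((F.image fun g => g₀⁻¹ * g : Finset G) : Set G).ncard := by
    rw [Set.ncard_singleton, mul_one, Set.ncard_coe_finset, Finset.card_image_of_injective _ (mul_right_injective g₀⁻¹)]
    refine lt_of_lt_of_le ?_ hπ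
    exact Nat.pow_lt_pow_right (by norm_num) (Nat.lt_succ_self T)
  obtain ⟨z, hz, hind⟩ := exists_ind (S := {1}) (C := ((F.image fun g => g₀⁻¹ * g : Finset G) : Set G))
    (Set.finite_singleton 1) (Finset.finite_toSet _) (fun z hz => (hC z hz).1.2.1) T hcard
  have hsq : ∀ k, ∃ L : List G, L.length ≤ 2 * R ∧ (∀ g ∈ L, g ∈ Ball X (4 * R)) ∧
      z k = (L.map fun g => g * g).prod := by
    intro k
    obtain ⟨l, hl, hev, hzl⟩ := (hC (z k) (hz k)).2
    obtain ⟨hs, hs1, hs2, hs3⟩ := even_squares X hev
    refine ⟨hs.map (lval X), ?_, ?_, ?_⟩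
    · rw [List.length_map, hs1]
      exact hl
    · intro g hg
      obtain ⟨a, ha, rfl⟩ := List.mem_map.1 hg
      refine mem_ball.2 ⟨a, ?_, rfl⟩
      have := hs2 a ha
      omega
    · rw [hzl, hs3, List.map_map]
      rfl
  choose L hL1 hL2 hL3 using hsq
  have hprod : ∀ k, ((List.range (2 * R)).map fun i => (L k).getD i 1 * (L k).getD i 1).prod = z k := by
    intro k
    rw [hL3 k]
    exact W3_range (L k) (2 * R) (hL1 k)
  refine ⟨fun k i => (L k).getD i 1, ?_, ?_, ?_⟩
  · intro k i
    show (L k).getD i 1 ∈ Ball X (4 * R)
    by_cases hi : i < (L k).length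
    · rw [List.getD_eq_getElem _ _ hi]
      exact hL2 k _ (List.getElem_mem hi)
    · rw [List.getD_eq_default _ _ (not_lt.1 hi)]
      exact one_mem_ball X _
  · intro k
    show ((List.range (2 * R)).map fun i => (L k).getD i 1 * (L k).getD i 1).prod ∈ _
    rw [hprod k]
    exact (hC (z k) (hz k)).1
  · have he : (fun k => ((List.range (2 * R)).map fun i => (L k).getD i 1 * (L k).getD i 1).prod) = z :=
      funext hprod
    show Ind {1} T (fun k => ((List.range (2 * R)).map fun i => (L k).getD i 1 * (L k).getD i 1).prod)
    rw [he]
    exact hind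

end Pool.Agent.AgpSsp
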