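import Pool.Agent.Lib.MP_a9d022_lc.Agp.Defs
import Pool.Agent.Lib.MP_a9d022_lc.Agp.Count

/-! # The subset sum instance, as words -/

set_option autoImplicit false

namespace Pool.Agent.AgpSsp

open Pool.Agent.SspConj

variable {G : Type} [Group G] {r : ℕ} {V : Type}

/-- the token of the vertex `v` for the list `z` of the remaining pairs (edge, time) -/
def tokW [DecidableEq V] (b : ℕ → Wd) (ω : V) (c : Wd) (z : List (Edg V × ℕ)) (v : V) : Wd :=
  (bif decide (v = ω) then [] else c) ++
    (z.reverse.filter fun p => decide (v = p.1.1)).flatMap fun p => b p.2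

/-- the two elements for the pair `p` (edge, time); `z` is the list of all pairs -/
def stepW [DecidableEq V] (b : ℕ → Wd) (ω : V) (c : Wd) (z : List (Edg V × ℕ)) (p : Edg V × ℕ) :
    List Wd :=
  [winv (b p.2), winv (tokW b ω c (z.drop p.2) p.1.1) ++
    (p.1.2.2 ++ tokW b ω c (z.drop (p.2 + 1)) p.1.2.1)]

/-- the subset sum instance for the sequence of edges `es` -/
def query [DecidableEq V] (b : ℕ → Wd) (c : Wd) (es : List (Edg V)) (α ω : V) : List Wd × Wd :=
  (es.zipIdx.flatMap (stepW b ω c es.zipIdx), winv (tokW b ω c es.zipIdx α))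

/-- the edges with the values of the labels -/
def evE (X : Fin r → G) (es : List (Edg V)) : List (V × V × G) := es.map fun e => (e.1, e.2.1, ev X e.2.2)

/-- the token for one more pair -/
theorem L_tokW_cons [DecidableEq V] (b : ℕ → Wd) (ω : V) (c : Wd) (p : Edg V × ℕ)
    (z : List (Edg V × ℕ)) (v : V) :
    tokW b ω c (p :: z) v = tokW b ω c z v ++ (if v = p.1.1 then b p.2 else []) := by
  unfold tokW
  rw [List.reverse_cons, List.filter_append, List.flatMap_append, List.append_assoc]
  congr 2
  by_cases h : v = p.1.1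
  · rw [if_pos h, List.filter_cons_of_pos (by simpa using h)]
    simp
  · rw [if_neg h, List.filter_cons_of_neg (by simpa using h)]
    simp

/-- Row L. Induction on `es`, all `j`. -/
theorem tokW_ev [DecidableEq V] (X : Fin r → G) (b : ℕ → Wd) (ω : V) (c : Wd) (es : List (Edg V))
    (j : ℕ) (v : V) : ev X (tokW b ω c (es.zipIdx j) v) =
      tok (kap ω (ev X c)) (fun i => ev X (b i)) j (evE X es) v := by
  induction es generalizing j with
  | nil =>
    show ev X ((bif decide (v = ω) then [] else c) ++ []) = kap ω (ev X c) v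
    unfold kap
    by_cases h : v = ω
    · rw [if_pos h, decide_eq_true h]
      rfl
    · rw [if_neg h, decide_eq_false h]
      show ev X (c ++ []) = _
      rw [List.append_nil]
  | cons e es ih =>
    rw [List.zipIdx_cons, L_tokW_cons, ev_append, ih (j + 1)]
    show _ = tok (kap ω (ev X c)) (fun i => ev X (b i)) (j + 1) (evE X es) v *
      (if v = e.1 then ev X (b j) else 1)
    congr 1
    by_cases h : v = e.1
    · rw [if_pos h, if_pos h]
    · rw [if_neg h, if_neg h]
      rfl

theorem L_query_aux [DecidableEq V] (X : Fin r → G) (b : ℕ → Wd) (ω : V) (c : Wd)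
    (z : List (Edg V × ℕ)) (es : List (Edg V)) (j : ℕ) (hz : z.drop j = es.zipIdx j) :
    ((es.zipIdx j).flatMap (stepW b ω c z)).map (ev X) =
      elts (kap ω (ev X c)) (fun i => ev X (b i)) j (evE X es) := by
  induction es generalizing j with
  | nil => rfl
  | cons e es ih =>
    have hz' : z.drop (j + 1) = es.zipIdx (j + 1) := by
      rw [← List.drop_drop, hz, List.zipIdx_cons]
      rfl
    rw [List.zipIdx_cons, List.flatMap_cons, List.map_append, ih (j + 1) hz']
    show [ev X (winv (b j)), ev X (winv (tokW b ω c (z.drop j) e.1) ++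
      (e.2.2 ++ tokW b ω c (z.drop (j + 1)) e.2.1))] ++ _ =
      (ev X (b j))⁻¹ :: tk (kap ω (ev X c)) (fun i => ev X (b i)) j (e.1, e.2.1, ev X e.2.2) (evE X es) ::
        elts (kap ω (ev X c)) (fun i => ev X (b i)) (j + 1) (evE X es)
    rw [ev_winv, ev_append, ev_winv, ev_append, hz, hz', tokW_ev, tokW_ev]
    rfl

/-- Row L. Prove for all `es`, `j` and all lists `z` with `z.drop j = es.zipIdx j`:
`((es.zipIdx j).flatMap (stepW b ω c z)).map (ev X) = elts … j (evE X es)`, by induction on `es`. -/
theorem query_ev [DecidableEq V] (X : Fin r → G) (b : ℕ → Wd) (c : Wd) (es : List (Edg V)) (α ω : V) :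
    (query b c es α ω).1.map (ev X) = elts (kap ω (ev X c)) (fun i => ev X (b i)) 0 (evE X es) :=
  L_query_aux X b ω c es.zipIdx es 0 rfl

/-- Row L. `ssp_map`, `query_ev`, `tokW_ev`, `sub_iff`. `b j` is the word number `j + 1` of the sequence
`τ` and `c` the word number `0`. -/
theorem query_iff [DecidableEq V] (X : Fin r → G) (τ : ℕ → Wd) (es : List (Edg V)) (α ω : V) :
    Ssp X (query (fun j => τ (j + 1)) (τ 0) es α ω).1 (query (fun j => τ (j + 1)) (τ 0) es α ω).2 ↔
      ∃ cs : List (Bool × Bool), cs.length = (evE X es).length ∧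
        tot (fun k => ev X (τ k)) (evE X es) α ω cs = 1 := by
  rw [ssp_map, query_ev]
  have h1 : ev X (query (fun j => τ (j + 1)) (τ 0) es α ω).2 =
      (tok (kap ω (ev X (τ 0))) (fun j => ev X (τ (j + 1))) 0 (evE X es) α)⁻¹ := by
    show ev X (winv (tokW (fun j => τ (j + 1)) ω (τ 0) es.zipIdx α)) = _
    rw [ev_winv, tokW_ev]
  rw [h1]
  have h2 := sub_iff (kap ω (ev X (τ 0))) (fun j => ev X (τ (j + 1))) 0 (evE X es)
    (tok (kap ω (ev X (τ 0))) (fun j => ev X (τ (j + 1))) 0 (evE X es) α)⁻¹
  unfold Sub at h2
  rw [h2]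
  constructor
  · rintro ⟨cs, hcs, h⟩
    refine ⟨cs, hcs, ?_⟩
    unfold tot
    rw [h, mul_inv_cancel]
  · rintro ⟨cs, hcs, h⟩
    refine ⟨cs, hcs, ?_⟩
    unfold tot at h
    exact (inv_eq_of_mul_eq_one_right h).symm

/-- the list of the edges, repeated as many times as there are edges -/
def rpt (E : List (Edg V)) : List (Edg V) := (List.range E.length).flatMap fun _ => E

/-- Row P. A path from `s` to `t` whose list of edges is a sublist of `es` is followed by some choices
(induction on `es`: skip the edge = `(decide (s = e.1), false)`, take it = `(false, true)`). -/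
theorem exists_follow [DecidableEq V] (X : Fin r → G) {E es p : List (Edg V)} {s t : V}
    (hp : IsPath E s t p) (hsub : p.Sublist es) :
    ∃ cs : List (Bool × Bool), cs.length = (evE X es).length ∧
      follow s (evE X es) cs = some (ev X (lbl p), t) := by
  induction es generalizing s p with
  | nil =>
    have h0 : p = [] := List.sublist_nil.1 hsub
    subst h0
    have h1 : s = t := hp
    subst h1
    exact ⟨[], rfl, rfl⟩
  | cons e es ih =>
    cases hsub with
    | cons _ hsub =>
      obtain ⟨cs, h1, h2⟩ := ih hp hsub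
      refine ⟨(decide (s = e.1), false) :: cs, congrArg (· + 1) h1, ?_⟩
      show (if s = e.1 ∧ (decide (s = e.1), false) = (false, true) then
        (follow e.2.1 (evE X es) cs).map fun x => (ev X e.2.2 * x.1, x.2)
        else if (decide (s = e.1), false) = (decide (s = e.1), false) then follow s (evE X es) cs
        else none) = _
      rw [if_neg (by simp), if_pos rfl, h2]
    | cons_cons _ hsub =>
      obtain ⟨_, h0, hp'⟩ := hp
      obtain ⟨cs, h1, h2⟩ := ih hp' hsub
      refine ⟨(false, true) :: cs, congrArg (· + 1) h1, ?_⟩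
      show (if s = e.1 ∧ (false, true) = (false, true) then
        (follow e.2.1 (evE X es) cs).map fun x => (ev X e.2.2 * x.1, x.2)
        else if (false, true) = (decide (s = e.1), false) then follow s (evE X es) cs
        else none) = _
      rw [if_pos ⟨h0.symm, rfl⟩, h2, Option.map_some]
      unfold lbl
      rw [List.flatMap_cons, ev_append]

/-- Row P. Choices which can be followed come from a path in `E`, if all edges of `es` are in `E`. -/
theorem path_of_follow [DecidableEq V] (X : Fin r → G) {E es : List (Edg V)} (hE : ∀ e ∈ es, e ∈ E)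
    {s t : V} {g : G} {cs : List (Bool × Bool)} (h : follow s (evE X es) cs = some (g, t)) :
    ∃ p, IsPath E s t p ∧ ev X (lbl p) = g := by
  induction es generalizing s g cs with
  | nil =>
    have h1 : some ((1 : G), s) = some (g, t) := by
      cases cs <;> exact h
    rw [Option.some.injEq, Prod.mk.injEq] at h1
    exact ⟨[], h1.2, h1.1⟩
  | cons e es ih =>
    have hE' : ∀ e ∈ es, e ∈ E := fun e' he' => hE e' (List.mem_cons_of_mem _ he')
    cases cs with
    | nil => exact absurd h (by rintro ⟨⟩)
    | cons c cs =>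
      have h' : (if s = e.1 ∧ c = (false, true) then
        (follow e.2.1 (evE X es) cs).map fun x => (ev X e.2.2 * x.1, x.2)
        else if c = (decide (s = e.1), false) then follow s (evE X es) cs
        else none) = some (g, t) := h
      by_cases h1 : s = e.1 ∧ c = (false, true)
      · rw [if_pos h1, Option.map_eq_some_iff] at h'
        obtain ⟨⟨g', t'⟩, h2, h3⟩ := h'
        rw [Prod.mk.injEq] at h3
        obtain ⟨h3, h4⟩ := h3
        have h5 : t' = t := h4
        subst h5
        obtain ⟨p, hp, hpg⟩ := ih hE' h2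
        refine ⟨e :: p, ⟨hE e List.mem_cons_self, h1.1.symm, hp⟩, ?_⟩
        unfold lbl at hpg ⊢
        rw [List.flatMap_cons, ev_append, hpg]
        exact h3
      · rw [if_neg h1] at h'
        by_cases h2 : c = (decide (s = e.1), false)
        · rw [if_pos h2] at h'
          exact ih hE' h'
        · rw [if_neg h2] at h'
          exact absurd h' (by rintro ⟨⟩)

private theorem P2_mem {E : List (Edg V)} {s t : V} {p : List (Edg V)} (hp : IsPath E s t p) : p ⊆ E := by
  induction p generalizing s with
  | nil => exact List.nil_subset E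
  | cons e p ih =>
    obtain ⟨h1, _, h3⟩ := hp
    exact List.cons_subset.2 ⟨h1, ih h3⟩

private theorem P2_split {E : List (Edg V)} {s t : V} {p q : List (Edg V)} {e : Edg V}
    (hp : IsPath E s t (p ++ e :: q)) : IsPath E s e.1 p := by
  induction p generalizing s with
  | nil =>
    obtain ⟨_, h2, _⟩ := hp
    exact h2.symm
  | cons f p ih =>
    obtain ⟨h1, h2, h3⟩ := hp
    exact ⟨h1, h2, ih h3⟩

private theorem P2_nodup {E : List (Edg V)} (hac : ∀ v p, IsPath E v v p → p = []) {s t : V}
    {p : List (Edg V)} (hp : IsPath E s t p) : p.Nodup := by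
  induction p generalizing s with
  | nil => exact List.nodup_nil
  | cons e p ih =>
    obtain ⟨h1, h2, h3⟩ := hp
    refine List.nodup_cons.2 ⟨?_, ih h3⟩
    intro hmem
    obtain ⟨a, b, hab⟩ := List.append_of_mem hmem
    rw [hab] at h3
    have h4 : IsPath E e.1 e.1 (e :: a) := ⟨h1, rfl, P2_split h3⟩
    exact absurd (hac _ _ h4) (List.cons_ne_nil _ _)

private theorem P2_range (E : List (Edg V)) (n : ℕ) : ∀ p : List (Edg V), p ⊆ E → p.length ≤ n →
    p.Sublist ((List.range n).flatMap fun _ => E) := by
  induction n with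
  | zero =>
    intro p _ hp
    rw [List.length_eq_zero_iff.1 (Nat.le_zero.1 hp)]
    exact List.nil_sublist _
  | succ n ih =>
    intro p hp hl
    rcases List.eq_nil_or_concat p with h | ⟨q, e, h⟩
    · rw [h]
      exact List.nil_sublist _
    · rw [List.concat_eq_append] at h
      subst h
      rw [List.range_succ, List.flatMap_append]
      refine List.Sublist.append (ih q (fun x hx => hp (List.mem_append_left _ hx)) ?_) ?_
      · rw [List.length_append] at hl
        simpa using hl
      · have he : e ∈ E := hp (List.mem_append_right _ (List.mem_singleton.2 rfl))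
        simpa using he

/-- Row P2. In an acyclic graph a path has no repeated edges, so at most `E.length` edges, and it is a
sublist of `rpt E` (the `k`-th edge is taken in the `k`-th copy of `E`). -/
theorem sublist_rpt {E : List (Edg V)} (hac : ∀ v p, IsPath E v v p → p = []) {s t : V}
    {p : List (Edg V)} (hp : IsPath E s t p) : p.Sublist (rpt E) := by
  have hsub := P2_mem hp
  have hlen : p.length ≤ E.length := ((P2_nodup hac hp).subperm hsub).length_le
  exact P2_range E E.length p hsub hlen

/-- The yes instances of the acyclic graph word problem. -/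
theorem yes_iff [DecidableEq V] (X : Fin r → G) {E : List (Edg V)}
    (hac : ∀ v p, IsPath E v v p → p = []) (s ω : V) :
    Yes X (E, s, ω) ↔ ∃ cs : List (Bool × Bool), cs.length = (evE X (rpt E)).length ∧
      follow s (evE X (rpt E)) cs = some (1, ω) := by
  have hes : ∀ e ∈ rpt E, e ∈ E := by
    intro e he
    unfold rpt at he
    rw [List.mem_flatMap] at he
    obtain ⟨_, _, he⟩ := he
    exact he
  constructor
  · rintro ⟨p, hp, h1⟩
    obtain ⟨cs, hcs, h⟩ := exists_follow X hp (sublist_rpt hac hp)
    exact ⟨cs, hcs, by rw [h, h1]⟩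
  · rintro ⟨cs, _, h⟩
    obtain ⟨p, hp, h1⟩ := path_of_follow X hes h
    exact ⟨p, hp, h1⟩

/-- For a yes instance every choice of the tokens gives a yes instance of the subset sum problem. -/
theorem complete [DecidableEq V] (X : Fin r → G) (τ : ℕ → Wd) {E : List (Edg V)}
    (hac : ∀ v p, IsPath E v v p → p = []) {s ω : V} (h : Yes X (E, s, ω)) :
    Ssp X (query (fun j => τ (j + 1)) (τ 0) (rpt E) s ω).1
      (query (fun j => τ (j + 1)) (τ 0) (rpt E) s ω).2 := by
  rw [query_iff]
  obtain ⟨cs, hcs, h1⟩ := (yes_iff X hac s ω).1 h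
  refine ⟨cs, hcs, ?_⟩
  unfold tot
  rw [follow_val _ _ h1, one_mul]
  unfold kap
  rw [if_pos rfl]

end Pool.Agent.AgpSsp
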