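import Pool.Agent.Lib.MP_a9d022_lc.Agp.QCore
import Pool.Agent.Lib.MP_a9d022_lc.Agp.Adv

/-! # Many central involutions: polynomial time with advice -/

set_option autoImplicit false

namespace Pool.Agent.AgpSsp

open N68a2faeb N487b59b3 Pool.Agent.SspConj Pool.Agent.MSR Pool.Agent.MSR.En

variable {G : Type} [Group G] {r : ℕ} {α : Type} [En α]

/-- the word of the variable `v` -/
def varW (bl : List (Blk Wd)) (v : ℕ) : Wd :=
  bl.flatMap fun b => (b.1.1.1.filter fun u => decide (u = v)).flatMap (fun _ => b.2.2.1 ++ b.2.2.2.2) ++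
    (b.1.2.1.filter fun u => decide (u = v)).flatMap fun _ => b.2.2.2.1 ++ b.2.2.2.2

/-- the subset sum instance -/
def queryQ (n : ℕ) (bl : List (Blk Wd)) : List Wd × Wd :=
  ((List.range n).map (varW bl) ++
    bl.flatMap fun b => [b.2.1 ++ b.2.2.1, b.2.1 ++ b.2.2.2.1, winv b.2.1 ++ b.2.2.2.2],
    bl.flatMap fun b => (bif b.1.1.2 then b.2.2.1 ++ b.2.2.2.2 else []) ++
      (bif b.1.2.2 then b.2.2.2.1 ++ b.2.2.2.2 else []))

variable {G : Type} [Group G] {r : ℕ}

/-- the values of a block -/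
def U1_evB (X : Fin r → G) (b : Blk Wd) : Blk G :=
  (b.1, ev X b.2.1, ev X b.2.2.1, ev X b.2.2.2.1, ev X b.2.2.2.2)

theorem U1_mkbl (X : Fin r → G) (Q : List (Lf × Lf)) (K : ℕ) (h : ℕ → ℕ → Wd) (z : ℕ → Wd) :
    (mkbl Q K h z).map (U1_evB X) = mkbl Q K (fun k i => ev X (h k i)) fun m => ev X (z m) := by
  unfold mkbl
  rw [List.map_flatMap]
  apply congrArg (fun F => List.flatMap F Q.zipIdx)
  funext q
  rw [List.map_map]
  rfl

theorem U1_ev_flatMap {β : Type} (X : Fin r → G) (l : List β) (F : β → Wd) :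
    ev X (l.flatMap F) = (l.map fun b => ev X (F b)).prod := by
  induction l with
  | nil => rfl
  | cons b l ih => rw [List.flatMap_cons, ev_append, List.map_cons, List.prod_cons, ih]

theorem U1_ev_const {β : Type} (X : Fin r → G) (l : List β) (w : Wd) :
    ev X (l.flatMap fun _ => w) = ev X w ^ l.length := by
  rw [U1_ev_flatMap, List.map_const', List.prod_replicate]

theorem U1_varW (X : Fin r → G) (bl : List (Blk Wd)) (v : ℕ) :
    ev X (varW bl v) = varG (bl.map (U1_evB X)) v := by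
  unfold varW varG
  rw [U1_ev_flatMap, List.map_map]
  congr 1
  apply List.map_congr_left
  intro b _
  rw [ev_append, U1_ev_const, U1_ev_const, ev_append, ev_append]
  rfl

theorem U1_tgt (X : Fin r → G) (bl : List (Blk Wd)) :
    ev X (bl.flatMap fun b => (bif b.1.1.2 then b.2.2.1 ++ b.2.2.2.2 else []) ++
      (bif b.1.2.2 then b.2.2.2.1 ++ b.2.2.2.2 else [])) = tgQ (bl.map (U1_evB X)) := by
  unfold tgQ
  rw [U1_ev_flatMap, List.map_map]
  congr 1
  apply List.map_congr_left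
  rintro ⟨⟨⟨A, a⟩, ⟨B, b⟩⟩, h, z1, z2, z3⟩ _
  simp only [Function.comp_apply, U1_evB]
  rw [ev_append]
  cases a <;> cases b <;> simp [ev_append, ev_nil]

theorem queryQ_iff (X : Fin r → G) (n : ℕ) (Q : List (Lf × Lf)) (K : ℕ) (h : ℕ → ℕ → Wd) (z : ℕ → Wd) :
    Ssp X (queryQ n (mkbl Q K h z)).1 (queryQ n (mkbl Q K h z)).2 ↔
      Sub (elQ n (mkbl Q K (fun k i => ev X (h k i)) fun m => ev X (z m)))
        (tgQ (mkbl Q K (fun k i => ev X (h k i)) fun m => ev X (z m))) := by
  rw [ssp_map, ← U1_mkbl]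
  have h1 : (queryQ n (mkbl Q K h z)).1.map (ev X) = elQ n ((mkbl Q K h z).map (U1_evB X)) := by
    unfold queryQ elQ
    simp only
    rw [List.map_append, List.map_map, List.map_flatMap]
    congr 1
    · apply List.map_congr_left
      intro v _
      exact U1_varW X _ v
    · rw [List.flatMap_map]
      apply congrArg (fun F => List.flatMap F (mkbl Q K h z))
      funext b
      simp only [List.map_cons, List.map_nil, ev_append, ev_winv, U1_evB]
  have h2 : ev X (queryQ n (mkbl Q K h z)).2 = tgQ ((mkbl Q K h z).map (U1_evB X)) := U1_tgt X _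
  rw [h1, h2]
  rfl

/-- Row U2 -/
theorem PT_mkbl {Q : α → List (Lf × Lf)} {K : α → ℕ} {h : α → ℕ → ℕ → Wd} {z : α → ℕ → Wd}
    (hQ : PT Q) (hK : PT K) (hh : PT (fun x : α × ℕ × ℕ => h x.1 x.2.1 x.2.2))
    (hz : PT (fun x : α × ℕ => z x.1 x.2)) : PT (fun a => mkbl (Q a) (K a) (h a) (z a)) := by
  unfold mkbl
  apply PT.flatMap (PT.zipIdx hQ)
  apply PT.map
  · exact PT.range (hK.comp (PT.fst PT.id'))
  · have ha : PT (fun p : (α × ((Lf × Lf) × ℕ)) × ℕ => p.1.1) := PT.fst (PT.fst PT.id')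
    have hk : PT (fun p : (α × ((Lf × Lf) × ℕ)) × ℕ => p.1.2.2) := PT.snd (PT.snd (PT.fst PT.id'))
    have hi : PT (fun p : (α × ((Lf × Lf) × ℕ)) × ℕ => p.2) := PT.snd PT.id'
    have hidx : PT (fun p : (α × ((Lf × Lf) × ℕ)) × ℕ => 3 * (p.1.2.2 * K p.1.1 + p.2)) :=
      PT.mul (PT.const 3) (PT.add (PT.mul hk (hK.comp ha)) hi)
    refine PT.pair (PT.fst (PT.snd (PT.fst PT.id'))) (PT.pair ?_ (PT.pair ?_ (PT.pair ?_ ?_)))
    · exact hh.comp (PT.pair ha (PT.pair hk hi))
    · exact hz.comp (PT.pair ha hidx)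
    · exact hz.comp (PT.pair ha (PT.add hidx (PT.const 1)))
    · exact hz.comp (PT.pair ha (PT.add hidx (PT.const 2)))

private theorem U2_varW {v : α → ℕ} {bl : α → List (Blk Wd)} (hbl : PT bl) (hv : PT v) :
    PT (fun a => varW (bl a) (v a)) := by
  unfold varW
  apply PT.flatMap hbl
  apply PT.append
  · apply PT.flatMap
    · apply PT.filter
      · exact PT.fst (PT.fst (PT.fst (PT.snd PT.id')))
      · exact PT.eq (PT.snd PT.id') (hv.comp (PT.fst (PT.fst PT.id')))
    · exact PT.append (PT.fst (PT.snd (PT.snd (PT.snd (PT.fst PT.id')))))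
        (PT.snd (PT.snd (PT.snd (PT.snd (PT.snd (PT.fst PT.id'))))))
  · apply PT.flatMap
    · apply PT.filter
      · exact PT.fst (PT.snd (PT.fst (PT.snd PT.id')))
      · exact PT.eq (PT.snd PT.id') (hv.comp (PT.fst (PT.fst PT.id')))
    · exact PT.append (PT.fst (PT.snd (PT.snd (PT.snd (PT.snd (PT.fst PT.id'))))))
        (PT.snd (PT.snd (PT.snd (PT.snd (PT.snd (PT.fst PT.id'))))))

/-- Row U2 -/
theorem PT_queryQ {n : α → ℕ} {bl : α → List (Blk Wd)} (hn : PT n) (hbl : PT bl) :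
    PT (fun a => queryQ (n a) (bl a)) := by
  unfold queryQ
  have hb : PT (fun p : α × Blk Wd => p.2) := PT.snd PT.id'
  have h0 : PT (fun p : α × Blk Wd => p.2.2.1) := PT.fst (PT.snd hb)
  have h1 : PT (fun p : α × Blk Wd => p.2.2.2.1) := PT.fst (PT.snd (PT.snd hb))
  have h2 : PT (fun p : α × Blk Wd => p.2.2.2.2.1) := PT.fst (PT.snd (PT.snd (PT.snd hb)))
  have h3 : PT (fun p : α × Blk Wd => p.2.2.2.2.2) := PT.snd (PT.snd (PT.snd (PT.snd hb)))
  refine PT.pair (PT.append ?_ ?_) ?_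
  · apply PT.map (PT.range hn)
    exact U2_varW (hbl.comp (PT.fst PT.id')) (PT.snd PT.id')
  · apply PT.flatMap hbl
    exact PT.cons (PT.append h0 h1) (PT.cons (PT.append h0 h2)
      (PT.cons (PT.append (PT_winv h0) h3) (PT.const [])))
  · apply PT.flatMap hbl
    exact PT.append (PT.cond (PT.snd (PT.fst (PT.fst hb))) (PT.append h1 h3) (PT.const []))
      (PT.cond (PT.snd (PT.snd (PT.fst hb))) (PT.append h2 h3) (PT.const []))

/-- the second decision procedure: the subset sum instance for the system of quadratic constraints of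
the hypergraph `H x`; the words with an even number are the `h`'s, those with an odd number the `z`'s -/
noncomputable def solveQ (X : Fin r → G) (D : List (Wd × Wd)) (n : List Bool → ℕ)
    (H : List Bool → List (List ℕ)) (N K : ℕ → ℕ) (z : List Bool × List Bool) : Bool :=
  orcS X (queryQ (qn (n z.1) (H z.1)) (mkbl (qsys (n z.1) (H z.1)) (K z.1.length)
    (fun k i => tw D (N z.1.length) (2 * (k * K z.1.length + i)) z.2)
    fun m => tw D (N z.1.length) (2 * m + 1) z.2))

/-- Row U2 -/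
theorem PT_solveQ {X : Fin r → G} (hP : SSP X ∈ P) (D : List (Wd × Wd)) {n : List Bool → ℕ}
    {H : List Bool → List (List ℕ)} (hn : PT n) (hH : PT H) (N K : Polynomial ℕ) :
    PT (solveQ X D n H (fun m => N.eval m) fun m => K.eval m) := by
  have hx : PT (fun z : List Bool × List Bool => z.1) := PT.fst PT.id'
  have hρ : PT (fun z : List Bool × List Bool => z.2) := PT.snd PT.id'
  have hn' : PT (fun z : List Bool × List Bool => n z.1) := hn.comp hx
  have hH' : PT (fun z : List Bool × List Bool => H z.1) := hH.comp hx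
  have hN : PT (fun z : List Bool × List Bool => N.eval z.1.length) := PT.poly N (PT.length hx)
  have hK : PT (fun z : List Bool × List Bool => K.eval z.1.length) := PT.poly K (PT.length hx)
  refine (PT_orcS hP).comp (PT_queryQ (PT_qn hn' hH') (PT_mkbl (PT_qsys hn' hH') hK ?_ ?_))
  · refine PT_tw D (hN.comp (PT.fst PT.id')) ?_ (hρ.comp (PT.fst PT.id'))
    exact PT.mul (PT.const 2) (PT.add (PT.mul (PT.fst (PT.snd PT.id')) (hK.comp (PT.fst PT.id')))
      (PT.snd (PT.snd PT.id')))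
  · refine PT_tw D (hN.comp (PT.fst PT.id')) ?_ (hρ.comp (PT.fst PT.id'))
    exact PT.add (PT.mul (PT.const 2) (PT.snd PT.id')) (PT.const 1)

/-- Row U2 -/
theorem exists_sizeQ {n : List Bool → ℕ} {H : List Bool → List (List ℕ)} (hn : PT n) (hH : PT H) :
    ∃ T : Polynomial ℕ, ∀ x : List Bool, (qsys (n x) (H x)).length ≤ T.eval x.length := by
  obtain ⟨d, hd⟩ := (PT_qsys hn hH).bound
  refine ⟨(3 * Polynomial.X + 2) ^ d, fun x => ?_⟩
  refine (length_le_sz _).trans ((hd x).trans (le_of_eq ?_))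
  rw [sz_listBool]
  simp

private theorem U3_ind_mono {S S' : Set G} {M M' : ℕ} {z z' : ℕ → G} (hS : S' ⊆ S) (hM : M' ≤ M)
    (hz : ∀ m < M', z' m = z m) (h : Ind S M z) : Ind S' M' z' := by
  intro l hl hm hp
  refine h l hl (fun m h1 => lt_of_lt_of_le (hm m h1) hM) (hS ?_)
  rwa [← List.map_congr_left fun m h1 => hz m (hm m h1)]

/-- Row U3. `exists_y` (the `h`'s), `exists_ind` for `Wb X (N m)` and the ball of radius
`3 * (T * (2 * R) * (4 * R))` (the `z`'s, `ball_finite`), `exists_string`, `queryQ_iff`, `quad_iff`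
(a system with fewer than `T` constraints uses only the first words), `qsys_iff`, `qsys_lt`,
`orcS_spec`. -/
theorem exists_adviceQ (X : Fin r → G) {L : DecisionProblem} {n : List Bool → ℕ}
    {H : List Bool → List (List ℕ)}
    (hL : ∀ x, (L x = true ↔ NAE (H x)) ∧ ∀ e ∈ H x, e ≠ [] ∧ ∀ u ∈ e, u < n x) {m T R : ℕ}
    (hT : ∀ x : List Bool, x.length = m → (qsys (n x) (H x)).length ≤ T) (N K : ℕ → ℕ)
    (hK : K m = 2 * R) (hR : 4 * R ≤ N m) (hy : 2 ^ (T + r + 1) ≤ (Wb X R).ncard)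
    (hz : 2 ^ (3 * (T * (2 * R)) + (r + 1) * (3 * (T * (2 * R) * (4 * R))) + 1) ≤ (Wb X (N m)).ncard) :
    ∃ a : List Bool, a.length = (6 * (T * (2 * R)) + 2) * (N m * (dic r).length) ∧
      ∀ x : List Bool, x.length = m → solveQ X (dic r) n H N K (x, a) = L x := by
  obtain ⟨g, hgb, hgw, hgi⟩ := exists_y X hy
  have hSf := ball_finite X (3 * (T * (2 * R) * (4 * R)))
  have hCf : (Wb X (N m)).Finite := (ball_finite X (N m)).1.subset fun u hu => hu.1
  have hlt : 2 ^ (3 * (T * (2 * R))) * (Ball X (3 * (T * (2 * R) * (4 * R)))).ncard <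
      (Wb X (N m)).ncard := by
    refine lt_of_lt_of_le ?_ hz
    calc 2 ^ (3 * (T * (2 * R))) * (Ball X (3 * (T * (2 * R) * (4 * R)))).ncard
        ≤ 2 ^ (3 * (T * (2 * R))) * 2 ^ ((r + 1) * (3 * (T * (2 * R) * (4 * R)))) :=
          Nat.mul_le_mul_left _ hSf.2
      _ = 2 ^ (3 * (T * (2 * R)) + (r + 1) * (3 * (T * (2 * R) * (4 * R)))) := (pow_add _ _ _).symm
      _ < _ := Nat.pow_lt_pow_right (by norm_num) (Nat.lt_succ_self _)
  obtain ⟨z, hzC, hzI⟩ := exists_ind hSf.1 hCf (fun u hu => hu.2.1) (3 * (T * (2 * R))) hlt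
  obtain ⟨a, ha, hev⟩ := exists_string X (N := N m) (K := 6 * (T * (2 * R)) + 2)
    (fun t => if t % 2 = 0 then g (t / 2 / (2 * R)) (t / 2 % (2 * R)) else z (t / 2)) (by
      intro k _
      split_ifs
      · exact ball_mono X hR (hgb _ _)
      · exact (hzC _).1)
  refine ⟨a, ha, fun x hx => ?_⟩
  have hQ : (qsys (n x) (H x)).length ≤ T := hT x hx
  have hne := (hL x).2
  -- the values of the words
  have hzv : ∀ k < 3 * ((qsys (n x) (H x)).length * (2 * R)),
      ev X (tw (dic r) (N m) (2 * k + 1) a) = z k := by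
    intro k hk
    have h1 : (qsys (n x) (H x)).length * (2 * R) ≤ T * (2 * R) := Nat.mul_le_mul_right _ hQ
    rw [hev (2 * k + 1) (by omega)]
    rw [if_neg (by omega)]
    congr 1
    omega
  have hhv : ∀ k < (qsys (n x) (H x)).length, ∀ i < 2 * R,
      ev X (tw (dic r) (N m) (2 * (k * (2 * R) + i)) a) = g k i := by
    intro k hk i hi
    have h1 : (k + 1) * (2 * R) ≤ T * (2 * R) := Nat.mul_le_mul_right _ (by omega)
    rw [Nat.succ_mul] at h1
    have h0 : 0 < 2 * R := by omega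
    rw [hev (2 * (k * (2 * R) + i)) (by omega)]
    rw [if_pos (by omega), Nat.mul_div_cancel_left _ (by norm_num : 0 < 2)]
    have h2 : (k * (2 * R) + i) / (2 * R) = k := by
      rw [Nat.add_comm, Nat.add_mul_div_right _ _ h0, Nat.div_eq_of_lt hi, Nat.zero_add]
    have h3 : (k * (2 * R) + i) % (2 * R) = i := by
      rw [Nat.add_comm, Nat.add_mul_mod_self_right, Nat.mod_eq_of_lt hi]
    rw [h2, h3]
  have hkey : orcS X (queryQ (qn (n x) (H x)) (mkbl (qsys (n x) (H x)) (2 * R)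
      (fun k i => tw (dic r) (N m) (2 * (k * (2 * R) + i)) a)
      fun k => tw (dic r) (N m) (2 * k + 1) a)) = true ↔ L x = true := by
    rw [show ∀ q : List Wd × Wd, orcS X q = orcS X (q.1, q.2) from fun _ => rfl, orcS_spec X,
      queryQ_iff, (hL x).1, ← qsys_iff hne]
    refine quad_iff X (R := 4 * R) (qsys_lt hne) ?_ ?_ ?_ ?_
    · intro k hk i hi
      rw [hhv k hk i hi]
      exact hgb k i
    · intro k hk
      rw [hzv k hk]
      exact (hzC k).2
    · exact U3_ind_mono (ball_mono X (Nat.mul_le_mul_left _ (Nat.mul_le_mul_right _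
        (Nat.mul_le_mul_right _ hQ)))) (Nat.mul_le_mul_left _ (Nat.mul_le_mul_right _ hQ)) hzv hzI
    · refine U3_ind_mono (Set.Subset.refl _) hQ (fun k hk => ?_) hgi
      refine congrArg List.prod (List.map_congr_left fun i hi => ?_)
      rw [hhv k hk i (List.mem_range.1 hi)]
  unfold solveQ
  dsimp only
  rw [hx, hK]
  exact Bool.eq_iff_iff.2 hkey

end Pool.Agent.AgpSsp
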