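import Pool.Agent.Lib.MP_a9d022_lc.Agp.Corp
import Pool.Agent.Lib.MP_a9d022_lc.Agp.QAdv

/-! # The main theorem -/

set_option autoImplicit false

namespace Pool.Agent.AgpSsp

open N68a2faeb N487b59b3 Pool.Agent.SspConj Pool.Agent.MSR Pool.Agent.MSR.En

variable {G : Type} [Group G] {r : ℕ}

private theorem F1_pt {S S' : List Bool × List Bool → Bool} (h : PT S) (h' : PT S') :
    PT (fun z : List Bool × List Bool =>
      bif z.2.headD false then S (z.1, z.2.tail) else S' (z.1, z.2.tail)) := by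
  have ht : PT (fun z : List Bool × List Bool => (z.1, z.2.tail)) :=
    PT.pair (PT.fst PT.id') (PT.tail (PT.snd PT.id'))
  exact PT.cond (PT.headD (PT.snd PT.id') (PT.const false)) (h.comp ht) (h'.comp ht)

/-- Fast growth: a problem in NP with a polynomial time reduction to the acyclic graph word problem is in
P/poly. For every length `m` one of the two procedures works: `e` from `dichotomy`; `Q`, `T`
polynomial bounds for the sizes (`exists_size`, `exists_sizeQ`, `np_nae`); let `M₁ = T + r + 1 + (m + 2 * Q + 1)`,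
`R = (M₁ + e) ^ e`, `M₂ = (the exponent of hz in exists_adviceQ) + (m + 2 * Q + 1)`, `N = (M₂ + e) ^ e + 4 * R`,
all polynomials in `m`. If `2 ^ m * 4 ^ Q < (Sq X N).ncard` use `exists_advice`; otherwise by
`dichotomy` (`sq_mono`) `2 ^ M₁ ≤ (Wb X R).ncard` and `2 ^ M₂ ≤ (Wb X ((M₂ + e) ^ e)).ncard`, use
`exists_adviceQ`. The advice string starts with a bit which says which procedure is used. -/
theorem ppoly_of_red (X : Fin r → G) (hX : Subgroup.closure (Set.range X) = ⊤) (hS : SSP X ∈ P)
    (hF : FastGrowth X) {L : DecisionProblem} (hL : L ∈ NP) {f : List Bool → Agi} (hfp : IsPolyTime f)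
    (hf : ∀ x, IsInst r (f x) ∧ (L x = true ↔ Yes X (f x))) : L ∈ PPoly := by
  obtain ⟨n, H, hn, hH, hLx⟩ := np_nae L hL
  obtain ⟨Q, hQ⟩ := exists_size (r := r) hfp
  obtain ⟨T, hT⟩ := exists_sizeQ hn hH
  obtain ⟨e, he⟩ := dichotomy X hX hF
  obtain ⟨M₁, hM₁⟩ : ∃ M₁ : Polynomial ℕ, ∀ m : ℕ, M₁.eval m =
      T.eval m + r + 1 + (m + 2 * Q.eval m + 1) :=
    ⟨T + Polynomial.C r + 1 + (Polynomial.X + 2 * Q + 1), fun m => by simp⟩
  obtain ⟨R, hR⟩ : ∃ R : Polynomial ℕ, ∀ m : ℕ, R.eval m = (M₁.eval m + e) ^ e :=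
    ⟨(M₁ + Polynomial.C e) ^ e, fun m => by simp⟩
  obtain ⟨K, hK⟩ : ∃ K : Polynomial ℕ, ∀ m : ℕ, K.eval m = 2 * R.eval m :=
    ⟨2 * R, fun m => by simp⟩
  obtain ⟨M₂, hM₂⟩ : ∃ M₂ : Polynomial ℕ, ∀ m : ℕ, M₂.eval m =
      3 * (T.eval m * (2 * R.eval m)) +
        (r + 1) * (3 * (T.eval m * (2 * R.eval m) * (4 * R.eval m))) + 1 +
        (m + 2 * Q.eval m + 1) :=
    ⟨3 * (T * (2 * R)) + (Polynomial.C r + 1) * (3 * (T * (2 * R) * (4 * R))) + 1 +
      (Polynomial.X + 2 * Q + 1), fun m => by simp⟩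
  obtain ⟨N, hN⟩ : ∃ N : Polynomial ℕ, ∀ m : ℕ, N.eval m = (M₂.eval m + e) ^ e + 4 * R.eval m :=
    ⟨(M₂ + Polynomial.C e) ^ e + 4 * R, fun m => by simp⟩
  obtain ⟨p, hp⟩ : ∃ p : Polynomial ℕ, ∀ m : ℕ, p.eval m =
      1 + (Q.eval m + 1) * (N.eval m * (dic r).length) +
        (6 * (T.eval m * (2 * R.eval m)) + 2) * (N.eval m * (dic r).length) :=
    ⟨1 + (Q + 1) * (N * Polynomial.C (dic r).length) +
      (6 * (T * (2 * R)) + 2) * (N * Polynomial.C (dic r).length), fun m => by simp⟩
  have key : ∀ m : ℕ, ∃ a : List Bool, a.length ≤ p.eval m ∧ ∀ x : List Bool, x.length = m →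
      L x = (bif (x, a).2.headD false then
          solve X (dic r) f (fun k => N.eval k) ((x, a).1, (x, a).2.tail)
        else solveQ X (dic r) n H (fun k => N.eval k) (fun k => K.eval k)
          ((x, a).1, (x, a).2.tail)) := by
    intro m
    rcases Nat.lt_or_ge (2 ^ m * 4 ^ Q.eval m) (Sq X (N.eval m)).ncard with h | h
    · obtain ⟨a, ha, hx⟩ := exists_advice X hf (m := m) (Q := Q.eval m)
        (fun x hx => by rw [← hx]; exact hQ x) (fun k => N.eval k) h
      refine ⟨true :: a, ?_, fun x hxm => ?_⟩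
      · rw [List.length_cons, ha, hp]
        omega
      · show L x = _
        rw [← hx x hxm]
        rfl
    · have h4 : (2 : ℕ) ^ m * 4 ^ Q.eval m = 2 ^ (m + 2 * Q.eval m) := by
        rw [pow_add, pow_mul]
        norm_num
      rw [h4] at h
      have hlt : ∀ M : ℕ, m + 2 * Q.eval m + 1 ≤ M → (Sq X (N.eval m)).ncard < 2 ^ M := by
        intro M hM
        refine lt_of_le_of_lt h ?_
        exact Nat.pow_lt_pow_right (by norm_num) (by omega)
      have hN1 : R.eval m ≤ N.eval m := by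
        rw [hN]
        omega
      have hN2 : (M₂.eval m + e) ^ e ≤ N.eval m := by
        rw [hN]
        omega
      have hy : 2 ^ (T.eval m + r + 1) ≤ (Wb X (R.eval m)).ncard := by
        rcases he (M₁.eval m) with h1 | h1
        · rw [← hR] at h1
          have h2 := sq_mono X hN1
          have h3 := hlt (M₁.eval m) (by rw [hM₁]; omega)
          omega
        · rw [← hR] at h1
          refine le_trans (Nat.pow_le_pow_right (by norm_num) ?_) h1
          rw [hM₁]
          omega
      have hz : 2 ^ (3 * (T.eval m * (2 * R.eval m)) +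
          (r + 1) * (3 * (T.eval m * (2 * R.eval m) * (4 * R.eval m))) + 1) ≤
          (Wb X (N.eval m)).ncard := by
        rcases he (M₂.eval m) with h1 | h1
        · have h2 := sq_mono X hN2
          have h3 := hlt (M₂.eval m) (by rw [hM₂]; omega)
          omega
        · refine le_trans (Nat.pow_le_pow_right (by norm_num) ?_) (h1.trans (wb_mono X hN2))
          rw [hM₂]
          omega
      obtain ⟨a, ha, hx⟩ := exists_adviceQ X (L := L) (n := n) (H := H)
        (fun x => ⟨(hLx x).1, (hLx x).2.2.1⟩) (m := m) (T := T.eval m) (R := R.eval m)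
        (fun x hx => by rw [← hx]; exact hT x) (fun k => N.eval k) (fun k => K.eval k)
        (hK m) (by show 4 * R.eval m ≤ N.eval m; rw [hN]; omega) hy hz
      refine ⟨false :: a, ?_, fun x hxm => ?_⟩
      · rw [List.length_cons, ha, hp]
        omega
      · show L x = _
        rw [← hx x hxm]
        rfl
  choose a ha hax using key
  refine ⟨p, a, _, isPolyTime_of_PT2 (F1_pt (PT_solve hS (dic r) hfp N)
    (PT_solveQ hS (dic r) hn hH N K)), ha, fun x => ?_⟩
  exact hax x.length x rfl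

end Pool.Agent.AgpSsp
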