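import Pool.Agent.Lib.MP_a9d022_lc.Agp.Link

/-! # Binary names -/

set_option autoImplicit false

namespace Pool.Agent.AgpSsp

open N68a2faeb N487b59b3 Pool.Agent.SspConj Pool.Agent.MSR Pool.Agent.MSR.En

variable {α β : Type} [En α] [En β]

/-- Row T1 (copy from Lib/MP_bba6cc_lc/Ptm.lean) -/
instance eqBool : EqPT Bool where
  eq := by
    have : PT (fun p : Bool × Bool => bif p.1 then p.2 else !p.2) :=
      PT.cond (PT.fst PT.id') (PT.snd PT.id') (PT.not (PT.snd PT.id'))
    refine this.of_eq (fun p => ?_)
    obtain ⟨a, b⟩ := p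
    cases a <;> cases b <;> rfl

/-- Row T1 (copy from Lib/MP_bba6cc_lc/Ptm.lean) -/
instance eqList [DecidableEq β] [EqPT β] : EqPT (List β) where
  eq := by
    set S : List β × Bool → β → List β × Bool := fun c x =>
      MSR.lcase c.1 ([], false) (fun h t => (t, c.2 && decide (h = x))) with hS
    have h1 : PT (fun p : List β × List β => p.1.foldl S (p.2, true)) := by
      apply PT.foldl_add (g := fun _ => S) (PT.fst PT.id') (PT.pair (PT.snd PT.id') (PT.const _))
      · apply PT.lcase (PT.fst (PT.fst (PT.snd PT.id'))) (PT.const _)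
        apply PT.pair (PT.snd (PT.snd PT.id'))
        apply PT.and
        · exact PT.snd (PT.fst (PT.snd (PT.fst PT.id')))
        · exact PT.eq (PT.fst (PT.snd PT.id')) (PT.snd (PT.snd (PT.fst PT.id')))
      · refine ⟨fun _ => 0, PB.const 0, ?_⟩
        intro p c b _
        obtain ⟨l, o⟩ := c
        cases l with
        | nil => simp [hS, MSR.lcase, sz_pair, sz_bool]
        | cons h t =>
          simp only [hS, MSR.lcase, sz_pair, sz_bool, sz_cons]
          omega
    have h2 : PT (fun p : List β × List β => (p.1.foldl S (p.2, true)).2 &&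
        (p.1.foldl S (p.2, true)).1.isEmpty) := PT.and (PT.snd h1) (PT.isEmpty (PT.fst h1))
    refine h2.of_eq (fun p => ?_)
    obtain ⟨l, m⟩ := p
    have hf : ∀ (l m : List β), (l.foldl S (m, false)).2 = false := by
      intro l
      induction l with
      | nil => intro m; rfl
      | cons x l ih =>
        intro m
        cases m with
        | nil => exact ih []
        | cons h t => exact ih t
    have key : ∀ (l m : List β), ((l.foldl S (m, true)).2 && (l.foldl S (m, true)).1.isEmpty) =
        decide (l = m) := by
      intro l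
      induction l with
      | nil => intro m; cases m <;> rfl
      | cons x l ih =>
        intro m
        cases m with
        | nil =>
          rw [List.foldl_cons]
          show ((l.foldl S ([], false)).2 && _) = _
          rw [hf]; rfl
        | cons h t =>
          rw [List.foldl_cons]
          show ((l.foldl S (t, true && decide (h = x))).2 &&
            (l.foldl S (t, true && decide (h = x))).1.isEmpty) = _
          by_cases hx : h = x
          · subst hx
            simp only [decide_true, Bool.and_self]
            rw [ih t]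
            simp
          · simp only [hx, decide_false, Bool.and_false]
            rw [hf]
            simp [Ne.symm hx]
    exact (key l m).symm

instance : DecidableEq Raw := fun a b =>
  decidable_of_iff (a.str = b.str) ⟨fun h => by cases a; cases b; exact congrArg Raw.mk h, fun h => by rw [h]⟩

/-- Row T1. `PT.ofRaw` and `eqList`. -/
instance eqRaw : EqPT Raw where
  eq := by
    have : PT (fun p : Raw × Raw => decide (p.1.str = p.2.str)) :=
      PT.eq (PT.ofRaw (PT.fst PT.id')) (PT.ofRaw (PT.snd PT.id'))
    refine this.of_eq (fun p => ?_)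
    rw [Bool.eq_iff_iff, decide_eq_true_iff, decide_eq_true_iff]
    obtain ⟨⟨a⟩, ⟨b⟩⟩ := p
    simp

/-- the name of a natural number -/
def rn (n : ℕ) : Raw := ⟨Computability.encodeNat n⟩

/-- Row T1 -/
theorem rn_injective : Function.Injective rn := by
  intro a b h
  have h1 : Computability.encodeNat a = Computability.encodeNat b := congrArg Raw.str h
  have h2 := congrArg Computability.decodeNat h1
  rwa [Computability.decode_encodeNat, Computability.decode_encodeNat] at h2

/-- instances with binary names and letters -/
abbrev Agr : Type := List (Raw × Raw × List (Raw × Bool)) × Raw × Raw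

/-- the instance with binary names -/
def toR (I : Agi) : Agr :=
  (I.1.map fun e => (rn e.1, rn e.2.1, e.2.2.map fun c => (rn c.1, c.2)), rn I.2.1, rn I.2.2)

theorem T1_enc_edge (e : ℕ × ℕ × List (ℕ × Bool)) :
    enc (rn e.1, rn e.2.1, e.2.2.map fun c => (rn c.1, c.2)) = bitEncode e := by
  obtain ⟨a, b, v⟩ := e
  have h1 : bitEncode (a, b, v) = delimit (bitEncode a) ++ (delimit (bitEncode b) ++ bitEncode v) := rfl
  have h2 : enc (v.map fun c => (rn c.1, c.2)) = bitEncode v := enc_outW v
  rw [enc_pair, enc_pair, h1, h2]
  rfl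

/-- Row T1 (as `enc_outW`, `enc_out` in Final.lean). -/
theorem enc_toR (I : Agi) : enc (toR I) = bitEncode I := by
  obtain ⟨E, a, b⟩ := I
  have h1 : bitEncode (E, a, b) = delimit (bitEncode E) ++ (delimit (bitEncode a) ++ bitEncode b) := rfl
  have h2 : enc (E.map fun e => (rn e.1, rn e.2.1, e.2.2.map fun c => (rn c.1, c.2))) = bitEncode E := by
    show ((List.map enc (E.map _)).map delimit).flatten = ((E.map bitEncode).map delimit).flatten
    congr 2
    rw [List.map_map]
    apply List.map_congr_left
    intro e _
    exact T1_enc_edge e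
  rw [toR, enc_pair, enc_pair, h1, h2]
  rfl

/-- Row T1. `OfTM2.isPolyTime_iff_CT`. -/
theorem PT_toR {f : List Bool → Agi} (hf : IsPolyTime f) : PT (fun x => toR (f x)) := by
  have h1 := (OfTM2.isPolyTime_iff_CT f).1 hf
  exact h1.congr (fun a => (encode_listBool a).symm) (fun a => enc_toR (f a))

/-- the letter with the name `b`, if it is `< r` (otherwise `r`) -/
def unL (r : ℕ) (b : Raw) : ℕ :=
  ((((List.range r).map fun i => (rn i, i)).filter fun p => decide (p.1 = b)).headD (b, r)).2

/-- the instance with unary letters -/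
def unR (r : ℕ) (I : Agr) : List (Edg Raw) × Raw × Raw :=
  (I.1.map fun e => (e.1, e.2.1, e.2.2.map fun c => (unL r c.1, c.2)), I.2)

theorem unL_rn {r i : ℕ} (h : i < r) : unL r (rn i) = i := by
  unfold unL
  have h1 : (((List.range r).map fun i => (rn i, i)).filter fun p => decide (p.1 = rn i)) = [(rn i, i)] := by
    rw [List.filter_map]
    have h2 : (List.range r).filter ((fun p : Raw × ℕ => decide (p.1 = rn i)) ∘ fun i => (rn i, i)) =
        (List.range r).filter fun j => decide (j = i) := by
      apply List.filter_congr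
      intro j _
      simp only [Function.comp_apply]
      rw [decide_eq_decide]
      exact ⟨fun h => rn_injective h, fun h => by rw [h]⟩
    rw [h2]
    have h3 : (List.range r).filter (fun j => decide (j = i)) = [i] := by
      have h4 : ((List.range r).filter fun j => decide (j = i)).Nodup := List.Nodup.filter _ List.nodup_range
      have h5 : ∀ j, j ∈ (List.range r).filter (fun j => decide (j = i)) ↔ j = i := by
        intro j
        simp only [List.mem_filter, List.mem_range, decide_eq_true_eq]
        exact ⟨fun h => h.2, fun hj => ⟨hj ▸ h, hj⟩⟩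
      generalize (List.range r).filter (fun j => decide (j = i)) = l at h4 h5
      match l, h4, h5 with
      | [], _, h5 => exact absurd ((h5 i).2 rfl) (by simp)
      | [a], _, h5 => rw [(h5 a).1 (by simp)]
      | a :: b :: l, h4, h5 =>
        exfalso
        have ha := (h5 a).1 (by simp)
        have hb := (h5 b).1 (by simp)
        rw [ha, hb] at h4
        simp at h4
    rw [h3]
    rfl
  rw [h1]
  rfl

theorem T2_PT_unL (r : ℕ) {f : α → Raw} (hf : PT f) : PT (fun a => unL r (f a)) := by
  unfold unL
  apply PT.snd
  apply PT.headD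
  · apply PT.filter (PT.const _)
    exact PT.eq (PT.fst (PT.snd PT.id')) (hf.comp (PT.fst PT.id'))
  · exact PT.pair hf (PT.const _)

theorem PT_unR (r : ℕ) {f : α → Agr} (hf : PT f) : PT (fun a => unR r (f a)) := by
  unfold unR
  refine PT.pair ?_ (PT.snd hf)
  apply PT.map (PT.fst hf)
  refine PT.pair (PT.fst (PT.snd PT.id')) (PT.pair (PT.fst (PT.snd (PT.snd PT.id'))) ?_)
  apply PT.map (PT.snd (PT.snd (PT.snd PT.id')))
  exact PT.pair (T2_PT_unL r (PT.fst (PT.snd PT.id'))) (PT.snd (PT.snd PT.id'))

/-- the instance with binary names for the vertices -/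
def nrm (r : ℕ) (I : Agi) : List (Edg Raw) × Raw × Raw := unR r (toR I)

theorem nrm_eq {r : ℕ} {I : Agi} (h : IsInst r I) :
    nrm r I = (I.1.map fun e => (rn e.1, rn e.2.1, e.2.2), rn I.2.1, rn I.2.2) := by
  unfold nrm unR toR
  simp only [List.map_map]
  refine Prod.ext ?_ rfl
  simp only
  apply List.map_congr_left
  intro e he
  simp only [Function.comp_apply, List.map_map]
  refine Prod.ext rfl (Prod.ext rfl ?_)
  simp only
  conv_rhs => rw [← List.map_id e.2.2]
  apply List.map_congr_left
  intro c hc
  simp only [Function.comp_apply, id]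
  rw [unL_rn ((h.lab e he).2 c hc)]

theorem path_map {V W : Type} {f : V → W} (hf : Function.Injective f) {E : List (Edg V)} {s t : V}
    {p : List (Edg W)} :
    IsPath (E.map fun e => (f e.1, f e.2.1, e.2.2)) (f s) (f t) p ↔
      ∃ q, IsPath E s t q ∧ p = q.map fun e => (f e.1, f e.2.1, e.2.2) := by
  induction p generalizing s with
  | nil =>
    constructor
    · intro h
      exact ⟨[], hf h, rfl⟩
    · rintro ⟨q, hq, h⟩
      have : q = [] := by
        cases q with
        | nil => rfl
        | cons _ _ => simp at h
      subst this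
      exact congrArg f hq
  | cons e p ih =>
    constructor
    · rintro ⟨h1, h2, h3⟩
      obtain ⟨e', he', rfl⟩ := List.mem_map.1 h1
      obtain ⟨q, hq, rfl⟩ := ih.1 h3
      exact ⟨e' :: q, ⟨he', hf h2, hq⟩, rfl⟩
    · rintro ⟨q, hq, h⟩
      cases q with
      | nil => simp at h
      | cons e' q =>
        rw [List.map_cons, List.cons.injEq] at h
        obtain ⟨rfl, rfl⟩ := h
        obtain ⟨h1, h2, h3⟩ := hq
        exact ⟨List.mem_map.2 ⟨e', h1, rfl⟩, congrArg f h2, ih.2 ⟨q, h3, rfl⟩⟩

theorem T2_lbl_map {V W : Type} (f : V → W) (q : List (Edg V)) :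
    lbl (q.map fun e => (f e.1, f e.2.1, e.2.2)) = lbl q := by
  unfold lbl
  rw [List.flatMap_map]

theorem nrm_yes {G : Type} [Group G] {r : ℕ} (X : Fin r → G) {I : Agi} (h : IsInst r I) :
    Yes X (nrm r I) ↔ Yes X I := by
  rw [nrm_eq h]
  unfold Yes
  constructor
  · rintro ⟨p, hp, h1⟩
    obtain ⟨q, hq, rfl⟩ := (path_map rn_injective).1 hp
    exact ⟨q, hq, by rwa [T2_lbl_map] at h1⟩
  · rintro ⟨q, hq, h1⟩
    exact ⟨_, (path_map rn_injective).2 ⟨q, hq, rfl⟩, by rwa [T2_lbl_map]⟩

theorem nrm_acyc {r : ℕ} {I : Agi} (h : IsInst r I) : ∀ v p, IsPath (nrm r I).1 v v p → p = [] := by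
  rw [nrm_eq h]
  intro v p hp
  cases p with
  | nil => rfl
  | cons e p =>
    have h0 := hp
    obtain ⟨h1, h2, _⟩ := hp
    obtain ⟨e', _, rfl⟩ := List.mem_map.1 h1
    simp only at h2
    rw [← h2] at h0
    obtain ⟨q, hq, h3⟩ := (path_map rn_injective).1 h0
    rw [h.acyc _ q hq] at h3
    simp at h3

end Pool.Agent.AgpSsp
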