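import Pool.Agent.Lib.MP_a9d022_lc.Agp.Quad
import Pool.Agent.Lib.MP_a9d022_lc.Agp.Ind

/-! # The subset sum instance for a system of quadratic constraints: values -/

set_option autoImplicit false

namespace Pool.Agent.AgpSsp

open Pool.Agent.MSR

variable {G : Type} [Group G] {r : ℕ}

/-- blocks: two affine forms `A`, `B` and four elements (or words) `h`, `z₁`, `z₂`, `z₃` -/
abbrev Blk (T : Type) : Type := (Lf × Lf) × T × T × T × T

/-- the number of occurrences of the variable `v` in the form `A` -/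
def occ (v : ℕ) (A : Lf) : ℕ := (A.1.filter fun u => decide (u = v)).length

/-- the element of the variable `v` -/
def varG (bl : List (Blk G)) (v : ℕ) : G :=
  (bl.map fun b => (b.2.2.1 * b.2.2.2.2) ^ occ v b.1.1 * (b.2.2.2.1 * b.2.2.2.2) ^ occ v b.1.2).prod

/-- all elements of the instance -/
def elQ (n : ℕ) (bl : List (Blk G)) : List G :=
  (List.range n).map (varG bl) ++
    bl.flatMap fun b => [b.2.1 * b.2.2.1, b.2.1 * b.2.2.2.1, b.2.1⁻¹ * b.2.2.2.2]

/-- the target: the constants of the forms -/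
def tgQ (bl : List (Blk G)) : G :=
  (bl.map fun b => (if b.1.1.2 then b.2.2.1 * b.2.2.2.2 else 1) *
    (if b.1.2.2 then b.2.2.2.1 * b.2.2.2.2 else 1)).prod

/-- the product of the chosen `h`'s -/
def gpt : List (Blk G) → List (Bool × Bool × Bool) → G
  | b :: bl, a :: as => (if a.1 then b.2.1 else 1) * (if a.2.1 then b.2.1 else 1) *
      (if a.2.2 then b.2.1⁻¹ else 1) * gpt bl as
  | _, _ => 1

/-- the product of the `z`'s: the exponents are `A + a₁`, `B + a₂`, `A + B + a₃` -/
def zpt (f : ℕ → Bool) : List (Blk G) → List (Bool × Bool × Bool) → G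
  | b :: bl, a :: as => (if xor (evf f b.1.1) a.1 then b.2.2.1 else 1) *
      (if xor (evf f b.1.2) a.2.1 then b.2.2.2.1 else 1) *
      (if xor (xor (evf f b.1.1) (evf f b.1.2)) a.2.2 then b.2.2.2.2 else 1) * zpt f bl as
  | _, _ => 1

/-- the `z`'s are central involutions -/
def Zc (bl : List (Blk G)) : Prop := ∀ b ∈ bl,
  (b.2.2.1 ∈ Subgroup.center G ∧ b.2.2.1 * b.2.2.1 = 1) ∧
    (b.2.2.2.1 ∈ Subgroup.center G ∧ b.2.2.2.1 * b.2.2.2.1 = 1) ∧
      (b.2.2.2.2 ∈ Subgroup.center G ∧ b.2.2.2.2 * b.2.2.2.2 = 1)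

private theorem V1_congr (n : ℕ) {a b : ℕ → G} (h : ∀ v < n, a v = b v) :
    ((List.range n).map a).prod = ((List.range n).map b).prod := by
  congr 1
  exact List.map_congr_left fun v hv => h v (List.mem_range.1 hv)

/-- Row V1. -/
theorem sub_map_range (w : ℕ → G) (n : ℕ) (x : G) : Sub ((List.range n).map w) x ↔
    ∃ f : ℕ → Bool, x = ((List.range n).map fun v => if f v then w v else 1).prod := by
  induction n generalizing x with
  | zero =>
    rw [List.range_zero, List.map_nil, sub_nil]
    constructor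
    · intro h
      exact ⟨fun _ => true, by rw [h]; rfl⟩
    · rintro ⟨f, hf⟩
      exact hf
  | succ n ih =>
    rw [List.range_succ, List.map_append, sub_append]
    constructor
    · rintro ⟨y, z, hy, hz, rfl⟩
      obtain ⟨f, rfl⟩ := (ih y).1 hy
      rw [List.map_cons, List.map_nil, sub_cons] at hz
      obtain ⟨b, t, ht, rfl⟩ := hz
      rw [sub_nil] at ht
      refine ⟨fun v => if v = n then b else f v, ?_⟩
      rw [List.map_append, List.prod_append, ht, mul_one, List.map_cons, List.map_nil, List.prod_cons,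
        List.prod_nil, mul_one]
      beta_reduce
      rw [if_pos rfl]
      congr 1
      refine V1_congr n fun v hv => ?_
      rw [if_neg (Nat.ne_of_lt hv)]
    · rintro ⟨f, rfl⟩
      refine ⟨_, (if f n then w n else 1), (ih _).2 ⟨f, rfl⟩, ?_, ?_⟩
      · rw [List.map_cons, List.map_nil, sub_cons]
        exact ⟨f n, 1, (sub_nil 1).2 rfl, by rw [mul_one]⟩
      · rw [List.map_append, List.prod_append, List.map_cons, List.map_nil, List.prod_cons, List.prod_nil,
          mul_one]

private theorem V1_mul (l : List ℕ) (a b : ℕ → G) (ha : ∀ v, a v ∈ Subgroup.center G) :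
    (l.map fun v => a v * b v).prod = (l.map a).prod * (l.map b).prod := by
  induction l with
  | nil => simp
  | cons v l ih =>
    have hl : (l.map a).prod ∈ Subgroup.center G := by
      apply Subgroup.list_prod_mem
      intro y hy
      obtain ⟨u, _, rfl⟩ := List.mem_map.1 hy
      exact ha u
    rw [List.map_cons, List.prod_cons, List.map_cons, List.prod_cons, List.map_cons, List.prod_cons, ih,
      mul_assoc, mul_assoc, ← mul_assoc (b v), Subgroup.mem_center_iff.1 hl (b v), mul_assoc]

private theorem V1_one (f : ℕ → Bool) (c : G) (u n : ℕ) :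
    ((List.range n).map fun v => if f v then (if u = v then c else 1) else 1).prod =
      if u < n then (if f u then c else 1) else 1 := by
  induction n with
  | zero => simp
  | succ n ih =>
    rw [List.range_succ, List.map_append, List.prod_append, ih, List.map_cons, List.map_nil, List.prod_cons,
      List.prod_nil, mul_one]
    by_cases h : u = n
    · subst h
      simp
    · by_cases h1 : u < n
      · have h2 : u < n + 1 := by omega
        simp [h, h1, h2]
      · have h2 : ¬u < n + 1 := by omega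
        simp [h, h1, h2]

private theorem V1_lin (f : ℕ → Bool) {c : G} (hc : c ∈ Subgroup.center G) (hcc : c * c = 1) (n : ℕ)
    (A : List ℕ) (t : Bool) (hA : ∀ v ∈ A, v < n) :
    ((List.range n).map fun v => if f v then c ^ occ v (A, t) else 1).prod =
      if evf f (A, false) then c else 1 := by
  induction A with
  | nil =>
    have h : ∀ v, occ v (([] : List ℕ), t) = 0 := fun v => rfl
    have h1 : evf f (([] : List ℕ), false) = false := rfl
    simp [h, h1]
  | cons u A ih =>
    have h : ∀ v, occ v (u :: A, t) = (if u = v then 1 else 0) + occ v (A, t) := by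
      intro v
      unfold occ
      by_cases huv : u = v
      · simp [huv, add_comm]
      · simp [huv]
    have h1 : (fun v => if f v then c ^ occ v (u :: A, t) else 1) =
        fun v => (if f v then (if u = v then c else 1) else 1) * (if f v then c ^ occ v (A, t) else 1) := by
      funext v
      rw [h v]
      by_cases hf : f v
      · by_cases huv : u = v
        · simp [hf, huv, pow_add]
        · simp [hf, huv]
      · simp [hf]
    rw [h1, V1_mul, V1_one, ih fun v hv => hA v (List.mem_cons_of_mem _ hv), if_pos (hA u List.mem_cons_self)]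
    · have h2 : evf f (u :: A, false) = xor (f u) (evf f (A, false)) := rfl
      rw [h2]
      cases f u <;> cases evf f (A, false) <;> simp [hcc]
    · intro v
      split_ifs
      · exact hc
      · exact one_mem _
      · exact one_mem _

/-- Row V1. The part of the variables: the exponents are the linear parts of the forms. First for one
block: `∏_{v < n} (z₁ z₃) ^ (f v * occ v A) = (z₁ z₃) ^ (number of u in A with f u)`, and `(z₁ z₃)² = 1`;
then induction on `bl`, all elements are central. -/
theorem var_part {n : ℕ} {bl : List (Blk G)} (hz : Zc bl)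
    (hn : ∀ b ∈ bl, (∀ v ∈ b.1.1.1, v < n) ∧ ∀ v ∈ b.1.2.1, v < n) (f : ℕ → Bool) :
    ((List.range n).map fun v => if f v then varG bl v else 1).prod =
      (bl.map fun b => (if evf f (b.1.1.1, false) then b.2.2.1 * b.2.2.2.2 else 1) *
        (if evf f (b.1.2.1, false) then b.2.2.2.1 * b.2.2.2.2 else 1)).prod := by
  have hcen : ∀ b ∈ bl, (b.2.2.1 * b.2.2.2.2 ∈ Subgroup.center G ∧
      (b.2.2.1 * b.2.2.2.2) * (b.2.2.1 * b.2.2.2.2) = 1) ∧
      (b.2.2.2.1 * b.2.2.2.2 ∈ Subgroup.center G ∧
      (b.2.2.2.1 * b.2.2.2.2) * (b.2.2.2.1 * b.2.2.2.2) = 1) := by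
    intro b hb
    obtain ⟨⟨h1, h2⟩, ⟨h3, h4⟩, h5, h6⟩ := hz b hb
    have key : ∀ x y : G, x * x = 1 → y ∈ Subgroup.center G → y * y = 1 → (x * y) * (x * y) = 1 := by
      intro x y hx hy hyy
      rw [mul_assoc, ← mul_assoc y x y, ← Subgroup.mem_center_iff.1 hy x, mul_assoc x y y, hyy, mul_one, hx]
    exact ⟨⟨mul_mem h1 h5, key _ _ h2 h5 h6⟩, mul_mem h3 h5, key _ _ h4 h5 h6⟩
  clear hz
  induction bl with
  | nil =>
    have h : ∀ v, varG ([] : List (Blk G)) v = 1 := fun v => rfl
    simp [h]
  | cons b bl ih =>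
    obtain ⟨⟨hc1, hcc1⟩, hc2, hcc2⟩ := hcen b List.mem_cons_self
    obtain ⟨hn1, hn2⟩ := hn b List.mem_cons_self
    have ih' := ih (fun b' hb' => hn b' (List.mem_cons_of_mem _ hb'))
      (fun b' hb' => hcen b' (List.mem_cons_of_mem _ hb'))
    have h1 : (fun v => if f v then varG (b :: bl) v else 1) =
        fun v => ((if f v then (b.2.2.1 * b.2.2.2.2) ^ occ v b.1.1 else 1) *
          (if f v then (b.2.2.2.1 * b.2.2.2.2) ^ occ v b.1.2 else 1)) *
            (if f v then varG bl v else 1) := by
      funext v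
      have h2 : varG (b :: bl) v = ((b.2.2.1 * b.2.2.2.2) ^ occ v b.1.1 *
        (b.2.2.2.1 * b.2.2.2.2) ^ occ v b.1.2) * varG bl v := by
        unfold varG
        rw [List.map_cons, List.prod_cons]
      rw [h2]
      by_cases hf : f v
      · simp only [hf, if_true]
      · simp [hf]
    have hm1 : ∀ v, (if f v then (b.2.2.1 * b.2.2.2.2) ^ occ v b.1.1 else 1) ∈ Subgroup.center G := by
      intro v
      split_ifs
      · exact pow_mem hc1 _
      · exact one_mem _
    have hm2 : ∀ v, (if f v then (b.2.2.2.1 * b.2.2.2.2) ^ occ v b.1.2 else 1) ∈ Subgroup.center G := by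
      intro v
      split_ifs
      · exact pow_mem hc2 _
      · exact one_mem _
    rw [h1, V1_mul _ _ _ fun v => mul_mem (hm1 v) (hm2 v), V1_mul _ _ _ hm1, ih', List.map_cons, List.prod_cons]
    congr 1
    congr 1
    · exact V1_lin f hc1 hcc1 n b.1.1.1 b.1.1.2 hn1
    · exact V1_lin f hc2 hcc2 n b.1.2.1 b.1.2.2 hn2

theorem V2_ite_cen {z : G} (hz : z ∈ Subgroup.center G) (x : Bool) :
    (if x then z else 1) ∈ Subgroup.center G := by
  split_ifs
  · exact hz
  · exact Subgroup.one_mem _

theorem V2_ite_mul (z w : G) (x : Bool) :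
    (if x then z * w else 1) = (if x then z else 1) * (if x then w else 1) := by
  split_ifs
  · rfl
  · rw [one_mul]

theorem V2_id {h1 h2 h3 z1 z2 z3 : G} (c1 : z1 ∈ Subgroup.center G) (c2 : z2 ∈ Subgroup.center G)
    (c3 : z3 ∈ Subgroup.center G) (g z : G) :
    h1 * z1 * (h2 * z2 * (h3 * z3 * (g * z))) = h1 * h2 * h3 * g * (z1 * z2 * z3 * z) := by
  have e1 : ∀ x y, z1 * (x * y) = x * (z1 * y) := fun x y => by
    rw [← mul_assoc, ← Subgroup.mem_center_iff.1 c1 x, mul_assoc]
  have e2 : ∀ x y, z2 * (x * y) = x * (z2 * y) := fun x y => by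
    rw [← mul_assoc, ← Subgroup.mem_center_iff.1 c2 x, mul_assoc]
  have e3 : ∀ x y, z3 * (x * y) = x * (z3 * y) := fun x y => by
    rw [← mul_assoc, ← Subgroup.mem_center_iff.1 c3 x, mul_assoc]
  simp only [mul_assoc]
  rw [e3 g z, e2 h3, e2 g, e1 h2, e1 h3, e1 g]

theorem V2_block {h1 h2 h3 z1 z2 z3 : G} (c1 : z1 ∈ Subgroup.center G) (c2 : z2 ∈ Subgroup.center G)
    (c3 : z3 ∈ Subgroup.center G) (a1 a2 a3 : Bool) (g z : G) :
    (if a1 then h1 * z1 else 1) * ((if a2 then h2 * z2 else 1) * ((if a3 then h3 * z3 else 1) * (g * z))) =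
      (if a1 then h1 else 1) * (if a2 then h2 else 1) * (if a3 then h3 else 1) * g *
        ((if a1 then z1 else 1) * (if a2 then z2 else 1) * (if a3 then z3 else 1) * z) := by
  rw [V2_ite_mul, V2_ite_mul, V2_ite_mul]
  exact V2_id (V2_ite_cen c1 a1) (V2_ite_cen c2 a2) (V2_ite_cen c3 a3) g z

theorem V2_zpt_cons (b : Blk G) (bl : List (Blk G)) (a : Bool × Bool × Bool) (as : List (Bool × Bool × Bool)) :
    zpt (fun _ => false) ((b :: bl).map fun b => ((([], false), ([], false)), b.2)) (a :: as) =
      (if a.1 then b.2.2.1 else 1) * (if a.2.1 then b.2.2.2.1 else 1) * (if a.2.2 then b.2.2.2.2 else 1) *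
        zpt (fun _ => false) (bl.map fun b => ((([], false), ([], false)), b.2)) as := by
  obtain ⟨a1, a2, a3⟩ := a
  cases a1 <;> cases a2 <;> cases a3 <;> rfl

/-- Row V2. The part of the blocks. -/
theorem sub_blocks {bl : List (Blk G)} (hz : Zc bl) (x : G) :
    Sub (bl.flatMap fun b => [b.2.1 * b.2.2.1, b.2.1 * b.2.2.2.1, b.2.1⁻¹ * b.2.2.2.2]) x ↔
      ∃ as : List (Bool × Bool × Bool), as.length = bl.length ∧
        x = gpt bl as * zpt (fun _ => false) (bl.map fun b => ((([], false), ([], false)), b.2)) as := by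
  induction bl generalizing x with
  | nil =>
    rw [List.flatMap_nil, sub_nil]
    constructor
    · rintro rfl
      exact ⟨[], rfl, (mul_one (1 : G)).symm⟩
    · rintro ⟨as, -, rfl⟩
      cases as <;> exact mul_one (1 : G)
  | cons b bl ih =>
    have hz' : Zc bl := fun b' hb' => hz b' (List.mem_cons_of_mem _ hb')
    obtain ⟨⟨c1, -⟩, ⟨c2, -⟩, ⟨c3, -⟩⟩ := hz b List.mem_cons_self
    rw [List.flatMap_cons, List.cons_append, List.cons_append, List.cons_append, List.nil_append, sub_cons]
    constructor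
    · rintro ⟨a1, y1, h1, rfl⟩
      obtain ⟨a2, y2, h2, rfl⟩ := (sub_cons _ _ _).1 h1
      obtain ⟨a3, y3, h3, rfl⟩ := (sub_cons _ _ _).1 h2
      obtain ⟨as, has, rfl⟩ := (ih hz' y3).1 h3
      refine ⟨(a1, a2, a3) :: as, by rw [List.length_cons, List.length_cons, has], ?_⟩
      rw [V2_zpt_cons]
      exact V2_block c1 c2 c3 a1 a2 a3 _ _
    · rintro ⟨as, has, rfl⟩
      cases as with
      | nil => exact absurd has (by simp)
      | cons a as =>
        obtain ⟨a1, a2, a3⟩ := a
        have has' : as.length = bl.length := by simpa using has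
        refine ⟨a1, _, (sub_cons _ _ _).2 ⟨a2, _, (sub_cons _ _ _).2 ⟨a3, _, (ih hz' _).2 ⟨as, has', rfl⟩, rfl⟩,
          rfl⟩, ?_⟩
        rw [V2_zpt_cons]
        exact (V2_block c1 c2 c3 a1 a2 a3 _ _).symm

theorem V2_evf (f : ℕ → Bool) (l : List ℕ) (c : Bool) : evf f (l, c) = xor (evf f (l, false)) c := by
  unfold evf
  induction l with
  | nil => exact (Bool.false_xor c).symm
  | cons v l ih =>
    show xor (f v) (List.foldr (fun v b => xor (f v) b) c l) =
      xor (xor (f v) (List.foldr (fun v b => xor (f v) b) false l)) c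
    have ih' : List.foldr (fun v b => xor (f v) b) c l =
      xor (List.foldr (fun v b => xor (f v) b) false l) c := ih
    rw [ih', Bool.xor_assoc]

theorem V2_ite_xor {C : Type} [CommGroup C] {z : C} (hz : z * z = 1) (x y : Bool) :
    (if xor x y then z else 1) = (if x then z else 1) * (if y then z else 1) := by
  cases x <;> cases y <;> simp [hz]

/-- one block, in a commutative group -/
theorem V2_comm {C : Type} [CommGroup C] {z1 z2 z3 : C} (h1 : z1 * z1 = 1) (h2 : z2 * z2 = 1) (h3 : z3 * z3 = 1)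
    (A A' B B' a1 a2 a3 : Bool) :
    (if xor (xor A A') a1 then z1 else 1) * (if xor (xor B B') a2 then z2 else 1) *
        (if xor (xor (xor A A') (xor B B')) a3 then z3 else 1) =
      ((if A' then z1 * z3 else 1) * (if B' then z2 * z3 else 1)) *
        ((if A then z1 * z3 else 1) * (if B then z2 * z3 else 1)) *
        ((if a1 then z1 else 1) * (if a2 then z2 else 1) * (if a3 then z3 else 1)) := by
  have e : ∀ (z w : C) (x : Bool), (if x then z * w else 1) = (if x then z else 1) * (if x then w else 1) := by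
    intro z w x
    split_ifs
    · rfl
    · rw [one_mul]
  rw [V2_ite_xor h1, V2_ite_xor h1, V2_ite_xor h2, V2_ite_xor h2, V2_ite_xor h3, V2_ite_xor h3, V2_ite_xor h3,
    V2_ite_xor h3, e, e, e, e]
  ac_rfl

@[reducible] def V2_cg (G : Type) [Group G] : CommGroup (Subgroup.center G) :=
  { (inferInstance : Group (Subgroup.center G)) with
    mul_comm := fun a b => Subtype.ext (Subgroup.mem_center_iff.1 b.2 a) }

theorem V2_coe (z : Subgroup.center G) (x : Bool) :
    (((if x then z else 1 : Subgroup.center G)) : G) = if x then (z : G) else 1 := by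
  split_ifs <;> rfl

theorem V2_one_block {z1 z2 z3 : G} (c1 : z1 ∈ Subgroup.center G) (c2 : z2 ∈ Subgroup.center G)
    (c3 : z3 ∈ Subgroup.center G) (h1 : z1 * z1 = 1) (h2 : z2 * z2 = 1) (h3 : z3 * z3 = 1)
    (A A' B B' a1 a2 a3 : Bool) :
    (if xor (xor A A') a1 then z1 else 1) * (if xor (xor B B') a2 then z2 else 1) *
        (if xor (xor (xor A A') (xor B B')) a3 then z3 else 1) =
      ((if A' then z1 * z3 else 1) * (if B' then z2 * z3 else 1)) *
        ((if A then z1 * z3 else 1) * (if B then z2 * z3 else 1)) *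
        ((if a1 then z1 else 1) * (if a2 then z2 else 1) * (if a3 then z3 else 1)) := by
  letI := V2_cg G
  have e := congrArg (Subtype.val) (V2_comm (C := Subgroup.center G) (z1 := ⟨z1, c1⟩) (z2 := ⟨z2, c2⟩)
    (z3 := ⟨z3, c3⟩) (Subtype.ext h1) (Subtype.ext h2) (Subtype.ext h3) A A' B B' a1 a2 a3)
  simp only [Subgroup.coe_mul, V2_coe] at e
  exact e

theorem V2_swap {t v z T V Z : G} (hT : T ∈ Subgroup.center G) (hV : V ∈ Subgroup.center G) :
    t * v * z * (T * V * Z) = (t * T) * (v * V) * (z * Z) := by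
  have e1 := Subgroup.mem_center_iff.1 hT
  have e2 := Subgroup.mem_center_iff.1 hV
  calc t * v * z * (T * V * Z) = t * ((v * z) * T) * (V * Z) := by simp only [mul_assoc]
    _ = t * (T * (v * z)) * (V * Z) := by rw [e1]
    _ = (t * T) * (v * (z * V)) * Z := by simp only [mul_assoc]
    _ = (t * T) * (v * (V * z)) * Z := by rw [e2]
    _ = (t * T) * (v * V) * (z * Z) := by simp only [mul_assoc]

/-- the part of the variables -/
def V2_var (f : ℕ → Bool) (bl : List (Blk G)) : G :=
  (bl.map fun b => (if evf f (b.1.1.1, false) then b.2.2.1 * b.2.2.2.2 else 1) *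
    (if evf f (b.1.2.1, false) then b.2.2.2.1 * b.2.2.2.2 else 1)).prod

theorem V2_tg_cen {bl : List (Blk G)} (hz : Zc bl) : tgQ bl ∈ Subgroup.center G := by
  unfold tgQ
  refine Subgroup.list_prod_mem _ fun x hx => ?_
  obtain ⟨b, hb, rfl⟩ := List.mem_map.1 hx
  obtain ⟨⟨c1, -⟩, ⟨c2, -⟩, ⟨c3, -⟩⟩ := hz b hb
  exact Subgroup.mul_mem _ (V2_ite_cen (Subgroup.mul_mem _ c1 c3) _) (V2_ite_cen (Subgroup.mul_mem _ c2 c3) _)

theorem V2_var_cen (f : ℕ → Bool) {bl : List (Blk G)} (hz : Zc bl) : V2_var f bl ∈ Subgroup.center G := by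
  unfold V2_var
  refine Subgroup.list_prod_mem _ fun x hx => ?_
  obtain ⟨b, hb, rfl⟩ := List.mem_map.1 hx
  obtain ⟨⟨c1, -⟩, ⟨c2, -⟩, ⟨c3, -⟩⟩ := hz b hb
  exact Subgroup.mul_mem _ (V2_ite_cen (Subgroup.mul_mem _ c1 c3) _) (V2_ite_cen (Subgroup.mul_mem _ c2 c3) _)

theorem V2_tg_sq {bl : List (Blk G)} (hz : Zc bl) : tgQ bl * tgQ bl = 1 := by
  induction bl with
  | nil => exact mul_one (1 : G)
  | cons b bl ih =>
    have hz' : Zc bl := fun b' hb' => hz b' (List.mem_cons_of_mem _ hb')
    obtain ⟨⟨c1, h1⟩, ⟨c2, h2⟩, ⟨c3, h3⟩⟩ := hz b List.mem_cons_self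
    have e0 : tgQ (b :: bl) = ((if b.1.1.2 then b.2.2.1 * b.2.2.2.2 else 1) *
      (if b.1.2.2 then b.2.2.2.1 * b.2.2.2.2 else 1)) * tgQ bl := by
      unfold tgQ
      rw [List.map_cons, List.prod_cons]
    have e1 : ∀ {z w : G} (x : Bool), z ∈ Subgroup.center G → w ∈ Subgroup.center G → z * z = 1 → w * w = 1 →
        (if x then z * w else 1) * (if x then z * w else 1) = 1 := by
      intro z w x hz hw hzz hww
      split_ifs
      · calc z * w * (z * w) = z * (w * z) * w := by simp only [mul_assoc]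
          _ = z * (z * w) * w := by rw [Subgroup.mem_center_iff.1 hz]
          _ = (z * z) * (w * w) := by simp only [mul_assoc]
          _ = 1 := by rw [hzz, hww, mul_one]
      · exact mul_one 1
    have e2 : ∀ {x y : G}, y ∈ Subgroup.center G → x * x = 1 → y * y = 1 → (x * y) * (x * y) = 1 := by
      intro x y hy hxx hyy
      calc (x * y) * (x * y) = x * (y * x) * y := by simp only [mul_assoc]
        _ = x * (x * y) * y := by rw [Subgroup.mem_center_iff.1 hy x]
        _ = (x * x) * (y * y) := by simp only [mul_assoc]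
        _ = 1 := by rw [hxx, hyy, mul_one]
    rw [e0]
    exact e2 (V2_tg_cen hz') (e2 (V2_ite_cen (Subgroup.mul_mem _ c2 c3) _) (e1 _ c1 c3 h1 h3) (e1 _ c2 c3 h2 h3))
      (ih hz')

theorem V2_zpt (f : ℕ → Bool) {bl : List (Blk G)} (hz : Zc bl) :
    ∀ as : List (Bool × Bool × Bool), as.length = bl.length → zpt f bl as = tgQ bl * V2_var f bl *
      zpt (fun _ => false) (bl.map fun b => ((([], false), ([], false)), b.2)) as := by
  induction bl with
  | nil =>
    intro as _
    have e : zpt f ([] : List (Blk G)) as = 1 := by cases as <;> rfl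
    have e' : zpt (fun _ => false) (([] : List (Blk G)).map fun b => ((([], false), ([], false)), b.2)) as = 1 := by
      cases as <;> rfl
    rw [e, e']
    show (1 : G) = 1 * 1 * 1
    rw [mul_one, mul_one]
  | cons b bl ih =>
    intro as has
    cases as with
    | nil => exact absurd has (by simp)
    | cons a as =>
      have hz' : Zc bl := fun b' hb' => hz b' (List.mem_cons_of_mem _ hb')
      have has' : as.length = bl.length := by simpa using has
      obtain ⟨⟨c1, h1⟩, ⟨c2, h2⟩, ⟨c3, h3⟩⟩ := hz b List.mem_cons_self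
      have e0 : zpt f (b :: bl) (a :: as) = (if xor (evf f b.1.1) a.1 then b.2.2.1 else 1) *
        (if xor (evf f b.1.2) a.2.1 then b.2.2.2.1 else 1) *
        (if xor (xor (evf f b.1.1) (evf f b.1.2)) a.2.2 then b.2.2.2.2 else 1) * zpt f bl as := rfl
      have e1 : tgQ (b :: bl) = ((if b.1.1.2 then b.2.2.1 * b.2.2.2.2 else 1) *
        (if b.1.2.2 then b.2.2.2.1 * b.2.2.2.2 else 1)) * tgQ bl := by
        unfold tgQ
        rw [List.map_cons, List.prod_cons]
      have e2 : V2_var f (b :: bl) = ((if evf f (b.1.1.1, false) then b.2.2.1 * b.2.2.2.2 else 1) *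
        (if evf f (b.1.2.1, false) then b.2.2.2.1 * b.2.2.2.2 else 1)) * V2_var f bl := by
        unfold V2_var
        rw [List.map_cons, List.prod_cons]
      have e3 : evf f b.1.1 = xor (evf f (b.1.1.1, false)) b.1.1.2 := V2_evf f b.1.1.1 b.1.1.2
      have e4 : evf f b.1.2 = xor (evf f (b.1.2.1, false)) b.1.2.2 := V2_evf f b.1.2.1 b.1.2.2
      rw [e0, e1, e2, V2_zpt_cons, e3, e4, V2_one_block c1 c2 c3 h1 h2 h3, ih hz' as has']
      exact V2_swap (V2_tg_cen hz') (V2_var_cen f hz')

theorem V2_rearrange {T V g Z : G} (hT : T ∈ Subgroup.center G) (hV : V ∈ Subgroup.center G) (hTT : T * T = 1) :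
    T = V * (g * Z) ↔ g * (T * V * Z) = 1 := by
  have e : g * (T * V * Z) = T * (V * (g * Z)) := by
    have e1 := Subgroup.mem_center_iff.1 hT g
    have e2 := Subgroup.mem_center_iff.1 hV g
    calc g * (T * V * Z) = (g * T) * V * Z := by simp only [mul_assoc]
      _ = (T * g) * V * Z := by rw [e1]
      _ = T * (g * V) * Z := by simp only [mul_assoc]
      _ = T * (V * g) * Z := by rw [e2]
      _ = T * (V * (g * Z)) := by simp only [mul_assoc]
  rw [e]
  constructor
  · intro h
    rw [← h, hTT]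
  · intro h
    have h1 : T⁻¹ = V * (g * Z) := inv_eq_of_mul_eq_one_right h
    have h2 : T⁻¹ = T := inv_eq_of_mul_eq_one_right hTT
    rw [← h1, h2]

/-- Row V2. The value of the chosen elements. `sub_append`, `sub_map_range`, `var_part`, `sub_blocks`;
all `z`'s are central with square 1, so the equation can be rearranged. -/
theorem elQ_iff {n : ℕ} {bl : List (Blk G)} (hz : Zc bl)
    (hn : ∀ b ∈ bl, (∀ v ∈ b.1.1.1, v < n) ∧ ∀ v ∈ b.1.2.1, v < n) :
    Sub (elQ n bl) (tgQ bl) ↔ ∃ (f : ℕ → Bool) (as : List (Bool × Bool × Bool)),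
      as.length = bl.length ∧ gpt bl as * zpt f bl as = 1 := by
  unfold elQ
  rw [sub_append]
  constructor
  · rintro ⟨y, z, hy, hz1, h⟩
    obtain ⟨f, rfl⟩ := (sub_map_range _ _ _).1 hy
    obtain ⟨as, has, rfl⟩ := (sub_blocks hz z).1 hz1
    refine ⟨f, as, has, ?_⟩
    rw [V2_zpt f hz as has]
    rw [var_part hz hn f] at h
    exact (V2_rearrange (V2_tg_cen hz) (V2_var_cen f hz) (V2_tg_sq hz)).1 h
  · rintro ⟨f, as, has, h⟩
    refine ⟨_, _, (sub_map_range _ _ _).2 ⟨f, rfl⟩, (sub_blocks hz _).2 ⟨as, has, rfl⟩, ?_⟩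
    rw [var_part hz hn f]
    rw [V2_zpt f hz as has] at h
    exact (V2_rearrange (V2_tg_cen hz) (V2_var_cen f hz) (V2_tg_sq hz)).2 h

/-- the blocks: `K` blocks for every constraint -/
def mkbl {T : Type} (Q : List (Lf × Lf)) (K : ℕ) (h : ℕ → ℕ → T) (z : ℕ → T) : List (Blk T) :=
  Q.zipIdx.flatMap fun q => (List.range K).map fun i =>
    (q.1, h q.2 i, z (3 * (q.2 * K + i)), z (3 * (q.2 * K + i) + 1), z (3 * (q.2 * K + i) + 2))

/-- the block at position `k` has the elements `z (3 * (s + k))`, ... -/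
private def V3_pos (z : ℕ → G) : ℕ → List (Blk G) → Prop
  | _, [] => True
  | s, b :: bl => b.2.2.1 = z (3 * s) ∧ b.2.2.2.1 = z (3 * s + 1) ∧ b.2.2.2.2 = z (3 * s + 2) ∧ V3_pos z (s + 1) bl

private theorem V3_pos_append (z : ℕ → G) (bl₂ : List (Blk G)) : ∀ (bl₁ : List (Blk G)) (s : ℕ), V3_pos z s bl₁ →
    V3_pos z (s + bl₁.length) bl₂ → V3_pos z s (bl₁ ++ bl₂)
  | [], s, _, h => by simpa using h
  | b :: bl₁, s, h, h' => by
    refine ⟨h.1, h.2.1, h.2.2.1, V3_pos_append z bl₂ bl₁ (s + 1) h.2.2.2 ?_⟩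
    have e : s + 1 + bl₁.length = s + (b :: bl₁).length := by rw [List.length_cons]; omega
    rw [e]
    exact h'

private theorem V3_pos_range (z : ℕ → G) (q : Lf × Lf) (h : ℕ → G) (c : ℕ) : ∀ K : ℕ,
    V3_pos z c ((List.range K).map fun i =>
      (q, h i, z (3 * (c + i)), z (3 * (c + i) + 1), z (3 * (c + i) + 2)))
  | 0 => trivial
  | K + 1 => by
    rw [List.range_succ, List.map_append]
    refine V3_pos_append z _ _ _ (V3_pos_range z q h c K) ?_
    rw [List.length_map, List.length_range]
    exact ⟨rfl, rfl, rfl, trivial⟩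

private theorem V3_pos_zip (h : ℕ → ℕ → G) (z : ℕ → G) (K : ℕ) : ∀ (Q : List (Lf × Lf)) (j : ℕ),
    V3_pos z (j * K) ((Q.zipIdx j).flatMap fun q => (List.range K).map fun i =>
      (q.1, h q.2 i, z (3 * (q.2 * K + i)), z (3 * (q.2 * K + i) + 1), z (3 * (q.2 * K + i) + 2)))
  | [], j => trivial
  | q :: Q, j => by
    rw [List.zipIdx_cons, List.flatMap_cons]
    refine V3_pos_append z _ _ _ (V3_pos_range z q (h j) (j * K) K) ?_
    rw [List.length_map, List.length_range, ← Nat.succ_mul]
    exact V3_pos_zip h z K Q (j + 1)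

private theorem V3_len (h : ℕ → ℕ → G) (z : ℕ → G) (K : ℕ) : ∀ (Q : List (Lf × Lf)) (j : ℕ),
    ((Q.zipIdx j).flatMap fun q => (List.range K).map fun i =>
      ((q.1, h q.2 i, z (3 * (q.2 * K + i)), z (3 * (q.2 * K + i) + 1), z (3 * (q.2 * K + i) + 2)) : Blk G)).length =
      Q.length * K
  | [], j => by simp
  | q :: Q, j => by
    rw [List.zipIdx_cons, List.flatMap_cons, List.length_append, List.length_map, List.length_range,
      V3_len h z K Q (j + 1), List.length_cons, Nat.succ_mul, Nat.add_comm]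

private theorem V3_main (z : ℕ → G) (f : ℕ → Bool) : ∀ (bl : List (Blk G)) (as : List (Bool × Bool × Bool)) (s : ℕ),
    V3_pos z s bl → as.length = bl.length →
    ∃ l : List ℕ, l.Nodup ∧ (∀ m ∈ l, 3 * s ≤ m ∧ m < 3 * (s + bl.length)) ∧ zpt f bl as = (l.map z).prod ∧
      (l = [] → as = bl.map fun b => (evf f b.1.1, evf f b.1.2, xor (evf f b.1.1) (evf f b.1.2)))
  | [], [], s, _, _ => ⟨[], List.nodup_nil, by simp, by simp [zpt], by simp⟩
  | [], _ :: _, _, _, h => absurd h (by simp)
  | _ :: _, [], _, _, h => absurd h (by simp)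
  | b :: bl, a :: as, s, hp, hl => by
    obtain ⟨l, h1, h2, h3, h4⟩ := V3_main z f bl as (s + 1) hp.2.2.2 (by simpa using hl)
    obtain ⟨p1, p2, p3, -⟩ := hp
    refine ⟨(if xor (evf f b.1.1) a.1 then [3 * s] else []) ++
      ((if xor (evf f b.1.2) a.2.1 then [3 * s + 1] else []) ++
      ((if xor (xor (evf f b.1.1) (evf f b.1.2)) a.2.2 then [3 * s + 2] else []) ++ l)), ?_, ?_, ?_, ?_⟩
    · have h5 : ∀ m ∈ l, 3 * s + 3 ≤ m := fun m hm => by
        have := (h2 m hm).1
        omega
      have n0 : 3 * s ∉ l := fun hm => by have := h5 _ hm; omega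
      have n1 : 3 * s + 1 ∉ l := fun hm => by have := h5 _ hm; omega
      have n2 : 3 * s + 2 ∉ l := fun hm => by have := h5 _ hm; omega
      split_ifs <;> simp [h1, n0, n1, n2]
    · intro m hm
      rw [List.length_cons]
      simp only [List.mem_append] at hm
      rcases hm with hm | hm | hm | hm
      · split_ifs at hm
        · rw [List.mem_singleton] at hm
          omega
        · exact absurd hm List.not_mem_nil
      · split_ifs at hm
        · rw [List.mem_singleton] at hm
          omega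
        · exact absurd hm List.not_mem_nil
      · split_ifs at hm
        · rw [List.mem_singleton] at hm
          omega
        · exact absurd hm List.not_mem_nil
      · have := h2 m hm
        omega
    · rw [List.map_append, List.map_append, List.map_append, List.prod_append, List.prod_append, List.prod_append,
        ← h3, zpt, p1, p2, p3, ← mul_assoc, ← mul_assoc]
      congr 1
      congr 1
      · congr 1
        · split_ifs <;> simp
        · split_ifs <;> simp
      · split_ifs <;> simp
    · intro h0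
      rw [List.append_eq_nil_iff, List.append_eq_nil_iff, List.append_eq_nil_iff] at h0
      obtain ⟨e1, e2, e3, e4⟩ := h0
      rw [List.map_cons, ← h4 e4]
      congr 1
      have x1 : xor (evf f b.1.1) a.1 = false := by
        by_contra hx
        rw [Bool.not_eq_false] at hx
        rw [if_pos hx] at e1
        exact List.cons_ne_nil _ _ e1
      have x2 : xor (evf f b.1.2) a.2.1 = false := by
        by_contra hx
        rw [Bool.not_eq_false] at hx
        rw [if_pos hx] at e2
        exact List.cons_ne_nil _ _ e2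
      have x3 : xor (xor (evf f b.1.1) (evf f b.1.2)) a.2.2 = false := by
        by_contra hx
        rw [Bool.not_eq_false] at hx
        rw [if_pos hx] at e3
        exact List.cons_ne_nil _ _ e3
      obtain ⟨a1, a2, a3⟩ := a
      dsimp only at x1 x2 x3
      rw [bne_eq_false_iff_eq] at x1 x2 x3
      rw [← x1, ← x2, ← x3]

/-- Row V3. `zpt f (mkbl Q K h z) as` is the product of the `z m` over a list of different numbers
`m < 3 * (Q.length * K)` which is empty iff all exponents are even. Prove it for `mkbl` with `zipIdx j`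
(numbers `≥ 3 * (j * K)`) by induction on `Q`. -/
theorem zpt_list {Q : List (Lf × Lf)} {K : ℕ} {h : ℕ → ℕ → G} {z : ℕ → G} {f : ℕ → Bool}
    {as : List (Bool × Bool × Bool)} (has : as.length = (mkbl Q K h z).length) :
    ∃ l : List ℕ, l.Nodup ∧ (∀ m ∈ l, m < 3 * (Q.length * K)) ∧ zpt f (mkbl Q K h z) as = (l.map z).prod ∧
      (l = [] → as = (mkbl Q K h z).map fun b =>
        (evf f b.1.1, evf f b.1.2, xor (evf f b.1.1) (evf f b.1.2))) := by
  have hp : V3_pos z 0 (mkbl Q K h z) := by
    have := V3_pos_zip h z K Q 0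
    rw [Nat.zero_mul] at this
    exact this
  have hl : (mkbl Q K h z).length = Q.length * K := V3_len h z K Q 0
  obtain ⟨l, h1, h2, h3, h4⟩ := V3_main z f _ as 0 hp has
  refine ⟨l, h1, fun m hm => ?_, h3, h4⟩
  have := (h2 m hm).2
  rw [hl, Nat.zero_add] at this
  exact this

private theorem V4_gpt (f : ℕ → Bool) (bl : List (Blk G)) :
    gpt bl (bl.map fun b => (evf f b.1.1, evf f b.1.2, xor (evf f b.1.1) (evf f b.1.2))) =
      (bl.map fun b => if (evf f b.1.1 && evf f b.1.2) = true then b.2.1 * b.2.1 else 1).prod := by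
  induction bl with
  | nil => rfl
  | cons b bl ih =>
    rw [List.map_cons, List.map_cons, List.prod_cons, ← ih]
    simp only [gpt]
    cases evf f b.1.1 <;> cases evf f b.1.2 <;> simp

private theorem V4_prod (Q : List ((Lf × Lf) × ℕ)) (K : ℕ) (h : ℕ → ℕ → G) (z : ℕ → ℕ → G × G × G)
    (f : ℕ → Bool) :
    ((Q.flatMap fun q => (List.range K).map fun i => ((q.1, h q.2 i, z q.2 i) : Blk G)).map fun b =>
      if (evf f b.1.1 && evf f b.1.2) = true then b.2.1 * b.2.1 else 1).prod =
      (((Q.filter fun q => evf f q.1.1 && evf f q.1.2).map Prod.snd).map fun k =>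
        ((List.range K).map fun i => h k i * h k i).prod).prod := by
  induction Q with
  | nil => rfl
  | cons q Q ih =>
    rw [List.flatMap_cons, List.map_append, List.prod_append, ih, List.filter_cons, List.map_map]
    by_cases hq : (evf f q.1.1 && evf f q.1.2) = true
    · rw [if_pos hq, List.map_cons, List.map_cons, List.prod_cons]
      congr 2
      apply List.map_congr_left
      intro i _
      show (if (evf f q.1.1 && evf f q.1.2) = true then h q.2 i * h q.2 i else 1) = _
      rw [if_pos hq]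
    · rw [if_neg hq]
      have e : ((List.range K).map ((fun b : Blk G =>
          if (evf f b.1.1 && evf f b.1.2) = true then b.2.1 * b.2.1 else 1) ∘
          fun i => ((q.1, h q.2 i, z q.2 i) : Blk G))).prod = 1 := by
        apply List.prod_eq_one
        intro x hx
        obtain ⟨i, _, rfl⟩ := List.mem_map.1 hx
        show (if (evf f q.1.1 && evf f q.1.2) = true then h q.2 i * h q.2 i else 1) = 1
        rw [if_neg hq]
      rw [e, one_mul]

/-- Row V4. If the choice is determined by the forms then every block has the value `1` or `h²`; the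
product of the blocks of a constraint is `1`, or `y k` if both forms are true. -/
theorem gpt_list (Q : List (Lf × Lf)) (K : ℕ) (h : ℕ → ℕ → G) (z : ℕ → G) (f : ℕ → Bool) :
    ∃ l : List ℕ, l.Nodup ∧ (∀ m ∈ l, m < Q.length) ∧
      gpt (mkbl Q K h z) ((mkbl Q K h z).map fun b =>
        (evf f b.1.1, evf f b.1.2, xor (evf f b.1.1) (evf f b.1.2))) =
        (l.map fun k => ((List.range K).map fun i => h k i * h k i).prod).prod ∧
      (l = [] ↔ ∀ q ∈ Q, (evf f q.1 && evf f q.2) = false) := by
  refine ⟨(Q.zipIdx.filter fun q => evf f q.1.1 && evf f q.1.2).map Prod.snd, ?_, ?_, ?_, ?_⟩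
  · have h1 : (Q.zipIdx.map Prod.snd).Nodup := by
      rw [List.zipIdx_map_snd]
      exact List.nodup_range'
    exact h1.sublist (List.filter_sublist.map Prod.snd)
  · intro m hm
    obtain ⟨q, hq, rfl⟩ := List.mem_map.1 hm
    have h2 := List.mem_zipIdx (List.mem_filter.1 hq).1
    have h3 := h2.2.1
    omega
  · rw [V4_gpt]
    exact V4_prod Q.zipIdx K h (fun k i => (z (3 * (k * K + i)), z (3 * (k * K + i) + 1),
      z (3 * (k * K + i) + 2))) f
  · rw [List.map_eq_nil_iff, List.filter_eq_nil_iff]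
    constructor
    · intro h1 q hq
      obtain ⟨i, hi, rfl⟩ := List.mem_iff_getElem.1 hq
      have h2 : (Q[i], i) ∈ Q.zipIdx := by
        rw [List.mem_zipIdx_iff_getElem?]
        simp [hi]
      have h3 := h1 _ h2
      simpa using h3
    · intro h1 q hq h2
      have h3 : q.1 ∈ Q := by
        have h4 := (List.mem_zipIdx_iff_getElem?).1 hq
        exact List.mem_of_getElem? h4
      rw [h1 _ h3] at h2
      exact Bool.false_ne_true h2

/-- Row V4. -/
theorem gpt_ball {X : Fin r → G} {R : ℕ} {bl : List (Blk G)} (h : ∀ b ∈ bl, b.2.1 ∈ Ball X R)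
    (as : List (Bool × Bool × Bool)) : gpt bl as ∈ Ball X (3 * (bl.length * R)) := by
  induction bl generalizing as with
  | nil =>
    have e : gpt ([] : List (Blk G)) as = 1 := by simp [gpt]
    rw [e]
    exact one_mem_ball X _
  | cons b bl ih =>
    cases as with
    | nil =>
      have e : gpt (b :: bl) [] = 1 := by simp [gpt]
      rw [e]
      exact one_mem_ball X _
    | cons a as =>
      have hb := h b List.mem_cons_self
      have h1 : (if a.1 then b.2.1 else 1) ∈ Ball X R := by
        split_ifs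
        · exact hb
        · exact one_mem_ball X R
      have h2 : (if a.2.1 then b.2.1 else 1) ∈ Ball X R := by
        split_ifs
        · exact hb
        · exact one_mem_ball X R
      have h3 : (if a.2.2 then b.2.1⁻¹ else 1) ∈ Ball X R := by
        split_ifs
        · exact inv_mem_ball hb
        · exact one_mem_ball X R
      have h4 := mul_mem_ball (mul_mem_ball (mul_mem_ball h1 h2) h3)
        (ih (fun c hc => h c (List.mem_cons_of_mem _ hc)) as)
      have e : 3 * ((b :: bl).length * R) = R + R + R + 3 * (bl.length * R) := by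
        rw [List.length_cons]
        ring
      rw [e]
      exact h4

theorem V5_mem {Q : List (Lf × Lf)} {K : ℕ} {h : ℕ → ℕ → G} {z : ℕ → G} {b : Blk G} (hb : b ∈ mkbl Q K h z) :
    ∃ (q : Lf × Lf) (k i : ℕ), q ∈ Q ∧ k < Q.length ∧ i < K ∧
      b = (q, h k i, z (3 * (k * K + i)), z (3 * (k * K + i) + 1), z (3 * (k * K + i) + 2)) := by
  unfold mkbl at hb
  obtain ⟨⟨q, k⟩, hq, hb⟩ := List.mem_flatMap.1 hb
  obtain ⟨i, hi, rfl⟩ := List.mem_map.1 hb
  have h1 := List.mem_zipIdx' hq
  refine ⟨q, k, i, ?_, h1.1, List.mem_range.1 hi, rfl⟩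
  rw [h1.2]
  exact List.getElem_mem _

theorem V5_length (Q : List (Lf × Lf)) (K : ℕ) (h : ℕ → ℕ → G) (z : ℕ → G) :
    (mkbl Q K h z).length = Q.length * K := by
  unfold mkbl
  rw [List.length_flatMap]
  have e : (Q.zipIdx.map fun q => ((List.range K).map fun i =>
      ((q.1, h q.2 i, z (3 * (q.2 * K + i)), z (3 * (q.2 * K + i) + 1), z (3 * (q.2 * K + i) + 2)) : Blk G)).length) =
      List.replicate Q.length K := by
    rw [List.eq_replicate_iff]
    refine ⟨by rw [List.length_map, List.length_zipIdx], fun x hx => ?_⟩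
    obtain ⟨q, -, rfl⟩ := List.mem_map.1 hx
    rw [List.length_map, List.length_range]
  rw [e, List.sum_replicate, smul_eq_mul]

theorem V5_zpt (f : ℕ → Bool) (bl : List (Blk G)) :
    zpt f bl (bl.map fun b => (evf f b.1.1, evf f b.1.2, xor (evf f b.1.1) (evf f b.1.2))) = 1 := by
  induction bl with
  | nil => rfl
  | cons b bl ih =>
    rw [List.map_cons]
    show (if xor (evf f b.1.1) (evf f b.1.1) then b.2.2.1 else 1) *
      (if xor (evf f b.1.2) (evf f b.1.2) then b.2.2.2.1 else 1) *
      (if xor (xor (evf f b.1.1) (evf f b.1.2)) (xor (evf f b.1.1) (evf f b.1.2)) then b.2.2.2.2 else 1) *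
      zpt f bl (bl.map fun b => (evf f b.1.1, evf f b.1.2, xor (evf f b.1.1) (evf f b.1.2))) = 1
    rw [ih, Bool.xor_self, Bool.xor_self, Bool.xor_self]
    simp

/-- Row V5. The instance is a yes instance iff the system is solvable: `elQ_iff`, `zpt_list`,
`gpt_list`, `gpt_ball`; if `gpt * (l.map z).prod = 1` then `(l.map z).prod = gpt⁻¹` is in the ball. -/
theorem quad_iff (X : Fin r → G) {Q : List (Lf × Lf)} {n K R : ℕ}
    (hn : ∀ q ∈ Q, (∀ v ∈ q.1.1, v < n) ∧ ∀ v ∈ q.2.1, v < n) {h : ℕ → ℕ → G} {z : ℕ → G}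
    (hh : ∀ k < Q.length, ∀ i < K, h k i ∈ Ball X R)
    (hz : ∀ m < 3 * (Q.length * K), z m ∈ Subgroup.center G ∧ z m * z m = 1)
    (hzi : Ind (Ball X (3 * (Q.length * K * R))) (3 * (Q.length * K)) z)
    (hy : Ind {1} Q.length fun k => ((List.range K).map fun i => h k i * h k i).prod) :
    Sub (elQ n (mkbl Q K h z)) (tgQ (mkbl Q K h z)) ↔ QSat Q := by
  have hlen := V5_length Q K h z
  have hidx : ∀ k i, k < Q.length → i < K → k * K + i < Q.length * K := by
    intro k i hk hi
    calc k * K + i < k * K + K := Nat.add_lt_add_left hi _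
      _ = (k + 1) * K := by ring
      _ ≤ Q.length * K := Nat.mul_le_mul_right K hk
  have hzc : Zc (mkbl Q K h z) := by
    intro b hb
    obtain ⟨q, k, i, -, hk, hi, rfl⟩ := V5_mem hb
    have h1 := hidx k i hk hi
    exact ⟨hz _ (by omega), hz _ (by omega), hz _ (by omega)⟩
  have hnb : ∀ b ∈ mkbl Q K h z, (∀ v ∈ b.1.1.1, v < n) ∧ ∀ v ∈ b.1.2.1, v < n := by
    intro b hb
    obtain ⟨q, k, i, hq, -, -, rfl⟩ := V5_mem hb
    exact hn q hq
  have hball : ∀ b ∈ mkbl Q K h z, b.2.1 ∈ Ball X R := by
    intro b hb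
    obtain ⟨q, k, i, -, hk, hi, rfl⟩ := V5_mem hb
    exact hh k hk i hi
  rw [elQ_iff hzc hnb]
  constructor
  · rintro ⟨f, as, has, h1⟩
    obtain ⟨l, hl, hlm, hlz, hle⟩ := zpt_list (f := f) has
    have h2 : (l.map z).prod = (gpt (mkbl Q K h z) as)⁻¹ := by
      rw [hlz] at h1
      exact (inv_eq_of_mul_eq_one_right h1).symm
    have h3 : (l.map z).prod ∈ Ball X (3 * (Q.length * K * R)) := by
      rw [h2]
      have h4 := gpt_ball hball as
      rw [hlen] at h4
      exact inv_mem_ball h4
    have h4 : l = [] := hzi l hl hlm h3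
    have h5 := hle h4
    obtain ⟨l', hl', hlm', hg, hiff⟩ := gpt_list Q K h z f
    refine ⟨f, hiff.1 (hy l' hl' hlm' ?_)⟩
    rw [Set.mem_singleton_iff, ← hg, ← h5]
    rw [hlz, h4, List.map_nil, List.prod_nil, mul_one] at h1
    exact h1
  · rintro ⟨f, hf⟩
    obtain ⟨l', -, -, hg, hiff⟩ := gpt_list Q K h z f
    refine ⟨f, (mkbl Q K h z).map fun b => (evf f b.1.1, evf f b.1.2, xor (evf f b.1.1) (evf f b.1.2)),
      List.length_map _, ?_⟩
    rw [V5_zpt, mul_one, hg, hiff.2 hf, List.map_nil, List.prod_nil]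

end Pool.Agent.AgpSsp
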