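import Pool.Agent.Lib.MP_a9d022_lc.Agp.Sub
import Pool.Agent.Lib.MP_17a834_lc.Msr.CookPT

/-! # Systems of quadratic constraints -/

set_option autoImplicit false

namespace Pool.Agent.AgpSsp

open Pool.Agent.MSR

/-- affine forms over `F_2`: the sum of the variables of the list, plus a constant -/
abbrev Lf : Type := List ℕ × Bool

/-- the value of an affine form -/
def evf (f : ℕ → Bool) (A : Lf) : Bool := A.1.foldr (fun v b => xor (f v) b) A.2

/-- The system is solvable: for some values of the variables no constraint has two true forms. -/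
def QSat (Q : List (Lf × Lf)) : Prop := ∃ f : ℕ → Bool, ∀ q ∈ Q, (evf f q.1 && evf f q.2) = false

/-- a bound for the length of the edges -/
def mx (H : List (List ℕ)) : ℕ := (H.flatMap fun e => e).length + 1

/-- the auxiliary variable for the position `i` of the edge number `k` -/
def ax (n m k i : ℕ) : ℕ := n + (k * m + i)

/-- the constraint for the entry `u` at the position `i` of an edge which starts with `u₀`:
`(q_{i-1} + q_i) * (1 + u₀ + u + q_i) = 0`, with `q_{-1} = 1` -/
def cn (n m k u₀ u i : ℕ) : Lf × Lf :=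
  ((bif isz i then ([ax n m k i], true) else ([ax n m k (i - 1), ax n m k i], false)),
    ([u₀, u, ax n m k i], true))

/-- the constraints for the edge `e` with the number `k`, the last one is `q = 0` for the last position -/
def qe (n m k : ℕ) (e : List ℕ) : List (Lf × Lf) :=
  (e.zipIdx.map fun p => cn n m k (e.headD 0) p.1 p.2) ++
    [(([ax n m k (e.length - 1)], false), ([], true))]

/-- the system of quadratic constraints for the hypergraph `H` on the vertices `< n` -/
def qsys (n : ℕ) (H : List (List ℕ)) : List (Lf × Lf) := H.zipIdx.flatMap fun p => qe n (mx H) p.2 p.1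

/-- the number of variables -/
def qn (n : ℕ) (H : List (List ℕ)) : ℕ := n + (H.length * mx H + mx H)

theorem Q1_mem_qe {n m k : ℕ} {e : List ℕ} {q : Lf × Lf} : q ∈ qe n m k e ↔
    (∃ i u, e[i]? = some u ∧ q = cn n m k (e.headD 0) u i) ∨
      q = (([ax n m k (e.length - 1)], false), ([], true)) := by
  unfold qe
  rw [List.mem_append, List.mem_map, List.mem_singleton]
  constructor
  · rintro (⟨⟨u, i⟩, h, rfl⟩ | h)
    · exact Or.inl ⟨i, u, List.mem_zipIdx_iff_getElem?.1 h, rfl⟩
    · exact Or.inr h
  · rintro (⟨i, u, h, rfl⟩ | h)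
    · exact Or.inl ⟨(u, i), List.mem_zipIdx_iff_getElem?.2 h, rfl⟩
    · exact Or.inr h

theorem Q1_mem {n : ℕ} {H : List (List ℕ)} {q : Lf × Lf} : q ∈ qsys n H ↔
    ∃ k e, H[k]? = some e ∧ q ∈ qe n (mx H) k e := by
  unfold qsys
  rw [List.mem_flatMap]
  constructor
  · rintro ⟨⟨e, k⟩, h, hq⟩
    exact ⟨k, e, List.mem_zipIdx_iff_getElem?.1 h, hq⟩
  · rintro ⟨k, e, h, hq⟩
    exact ⟨(e, k), List.mem_zipIdx_iff_getElem?.2 h, hq⟩

theorem Q1_len {H : List (List ℕ)} {e : List ℕ} (h : e ∈ H) : e.length < mx H := by
  unfold mx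
  have h1 : e.length ≤ (H.flatMap fun e => e).length := by
    induction H with
    | nil => simp at h
    | cons a H ih =>
      rw [List.flatMap_cons, List.length_append]
      rcases List.mem_cons.1 h with rfl | h2
      · omega
      · have := ih h2
        omega
  omega

/-- the value of the auxiliary variable `q_i` -/
def Q1_q (f : ℕ → Bool) (e : List ℕ) (i : ℕ) : Bool :=
  (e.take (i + 1)).all fun u => f u == f (e.headD 0)

theorem Q1_q_succ {f : ℕ → Bool} {e : List ℕ} {i u : ℕ} (h : e[i + 1]? = some u) :
    Q1_q f e (i + 1) = (Q1_q f e i && (f u == f (e.headD 0))) := by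
  unfold Q1_q
  rw [List.take_add_one, h, List.all_append]
  simp

theorem Q1_q_zero {f : ℕ → Bool} {e : List ℕ} {u : ℕ} (h : e[0]? = some u) :
    Q1_q f e 0 = true ∧ e.headD 0 = u := by
  cases e with
  | nil => simp at h
  | cons a e =>
    simp only [List.getElem?_cons_zero, Option.some.injEq] at h
    subst h
    exact ⟨by simp [Q1_q], rfl⟩

/-- the colouring with the auxiliary variables -/
def Q1_g (n : ℕ) (H : List (List ℕ)) (f : ℕ → Bool) (v : ℕ) : Bool :=
  if v < n then f v else Q1_q f (H.getD ((v - n) / mx H) []) ((v - n) % mx H)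

theorem Q1_g_ax {n k i : ℕ} {H : List (List ℕ)} {f : ℕ → Bool} {e : List ℕ} (hk : H[k]? = some e)
    (hi : i < mx H) : Q1_g n H f (ax n (mx H) k i) = Q1_q f e i := by
  have h1 : ax n (mx H) k i - n = k * mx H + i := by unfold ax; omega
  have h2 : (k * mx H + i) / mx H = k := by
    rw [Nat.add_comm, Nat.add_mul_div_right _ _ (by omega), Nat.div_eq_of_lt hi, Nat.zero_add]
  have h3 : (k * mx H + i) % mx H = i := by
    rw [Nat.add_comm, Nat.add_mul_mod_self_right, Nat.mod_eq_of_lt hi]
  unfold Q1_g
  rw [if_neg (by unfold ax; omega), h1, h2, h3, List.getD_eq_getElem?_getD, hk, Option.getD_some]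

theorem Q1_evf1 (f : ℕ → Bool) (a : ℕ) (c : Bool) : evf f ([a], c) = xor (f a) c := rfl

theorem Q1_evf2 (f : ℕ → Bool) (a b : ℕ) (c : Bool) :
    evf f ([a, b], c) = xor (f a) (xor (f b) c) := rfl

theorem Q1_evf3 (f : ℕ → Bool) (a b d : ℕ) (c : Bool) :
    evf f ([a, b, d], c) = xor (f a) (xor (f b) (xor (f d) c)) := rfl

/-- Row Q1. From a colouring `f`: `q_i` is true iff the entries of the positions `≤ i` all have the colour
of `u₀`. Conversely if all entries of `e` have the same colour then all `q_i` are true, by induction. -/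
theorem qsys_iff {n : ℕ} {H : List (List ℕ)} (hH : ∀ e ∈ H, e ≠ [] ∧ ∀ u ∈ e, u < n) :
    QSat (qsys n H) ↔ NAE H := by
  constructor
  · rintro ⟨f, hf⟩
    refine ⟨f, fun e he => ?_⟩
    by_contra hcon
    push Not at hcon
    obtain ⟨k, hk⟩ := List.getElem?_of_mem he
    have hq : ∀ q ∈ qe n (mx H) k e, (evf f q.1 && evf f q.2) = false := fun q hq =>
      hf q (Q1_mem.2 ⟨k, e, hk, hq⟩)
    have hlen : 0 < e.length := List.length_pos_iff.2 (hH e he).1
    have hhead : e.headD 0 ∈ e := by
      cases e with
      | nil => exact absurd rfl (hH _ he).1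
      | cons a e => exact List.mem_cons_self
    have hall : ∀ i, i < e.length → f (ax n (mx H) k i) = true := by
      intro i
      induction i with
      | zero =>
        intro hi
        have h1 := hq _ (Q1_mem_qe.2 (Or.inl ⟨0, e[0], List.getElem?_eq_getElem hi, rfl⟩))
        have h2 : f (e.headD 0) = f e[0] := hcon _ hhead _ (List.getElem_mem hi)
        rw [cn, isz] at h1
        simp only [beq_self_eq_true, cond_true, Q1_evf1, Q1_evf3, h2] at h1
        revert h1
        cases f (ax n (mx H) k 0) <;> cases f e[0] <;> decide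
      | succ i ih =>
        intro hi
        have h0 := ih (by omega)
        have h1 := hq _ (Q1_mem_qe.2 (Or.inl ⟨i + 1, e[i + 1], List.getElem?_eq_getElem hi, rfl⟩))
        have h2 : f (e.headD 0) = f e[i + 1] := hcon _ hhead _ (List.getElem_mem hi)
        have h3 : isz (i + 1) = false := rfl
        rw [cn, h3] at h1
        simp only [cond_false, Nat.add_sub_cancel, Q1_evf2, Q1_evf3, h2, h0] at h1
        revert h1
        cases f (ax n (mx H) k (i + 1)) <;> cases f e[i + 1] <;> decide
    have h1 := hq _ (Q1_mem_qe.2 (Or.inr rfl))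
    have h2 := hall (e.length - 1) (by omega)
    rw [Q1_evf1, h2] at h1
    exact absurd (show true = false from h1) (by decide)
  · rintro ⟨f, hf⟩
    refine ⟨Q1_g n H f, fun q hq => ?_⟩
    obtain ⟨k, e, hk, hq⟩ := Q1_mem.1 hq
    have he : e ∈ H := List.mem_of_getElem? hk
    have hlen := Q1_len he
    have hne := (hH e he).1
    have hlen0 : 0 < e.length := List.length_pos_iff.2 hne
    have hg : ∀ u ∈ e, Q1_g n H f u = f u := fun u hu => by
      unfold Q1_g
      rw [if_pos ((hH e he).2 u hu)]
    have hhead : e.headD 0 ∈ e := by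
      cases e with
      | nil => exact absurd rfl hne
      | cons a e => exact List.mem_cons_self
    rcases Q1_mem_qe.1 hq with ⟨i, u, hi, rfl⟩ | rfl
    · have hu : u ∈ e := List.mem_of_getElem? hi
      have hil : i < e.length := (List.getElem?_eq_some_iff.1 hi).1
      cases i with
      | zero =>
        obtain ⟨h1, h2⟩ := Q1_q_zero (f := f) hi
        rw [cn, isz]
        simp only [beq_self_eq_true, cond_true, Q1_evf1, Q1_evf3, Q1_g_ax hk (hil.trans hlen), h1]
        rfl
      | succ i =>
        have h3 : isz (i + 1) = false := rfl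
        rw [cn, h3]
        simp only [cond_false, Nat.add_sub_cancel, Q1_evf2, Q1_evf3, Q1_g_ax hk (hil.trans hlen),
          Q1_g_ax hk (show i < mx H by omega), hg _ hu, hg _ hhead, Q1_q_succ (f := f) hi]
        cases Q1_q f e i <;> cases f u <;> cases f (e.headD 0) <;> rfl
    · show (evf (Q1_g n H f) ([ax n (mx H) k (e.length - 1)], false) && true) = false
      rw [Q1_evf1, Q1_g_ax hk (by omega)]
      have h1 : Q1_q f e (e.length - 1) = false := by
        obtain ⟨a, ha, b, hb, hab⟩ := hf e he
        by_contra h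
        rw [Bool.not_eq_false] at h
        unfold Q1_q at h
        rw [List.take_of_length_le (by omega), List.all_eq_true] at h
        have h2 := h a ha
        have h3 := h b hb
        rw [beq_iff_eq] at h2 h3
        exact hab (h2.trans h3.symm)
      rw [h1]
      rfl

private theorem Q2_len {H : List (List ℕ)} {e : List ℕ} (h : e ∈ H) : e.length < mx H := by
  unfold mx
  induction H with
  | nil => simp at h
  | cons b H ih =>
    rw [List.flatMap_cons, List.length_append]
    rcases List.mem_cons.1 h with rfl | h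
    · omega
    · have := ih h; omega

private theorem Q2_ax {n k i m L : ℕ} (hk : k < L) (hi : i < m) : ax n m k i < n + (L * m + m) := by
  unfold ax
  have := Nat.mul_le_mul_right m hk.le
  omega

/-- Row Q2 -/
theorem qsys_lt {n : ℕ} {H : List (List ℕ)} (hH : ∀ e ∈ H, e ≠ [] ∧ ∀ u ∈ e, u < n) :
    ∀ q ∈ qsys n H, (∀ v ∈ q.1.1, v < qn n H) ∧ ∀ v ∈ q.2.1, v < qn n H := by
  intro q hq
  unfold qsys at hq
  obtain ⟨⟨e, k⟩, hek, hq⟩ := List.mem_flatMap.1 hq
  have hk : k < H.length := List.snd_lt_of_mem_zipIdx hek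
  have heH : e ∈ H := List.fst_mem_of_mem_zipIdx hek
  have hlen := Q2_len heH
  obtain ⟨hne, hlt⟩ := hH e heH
  have hn : ∀ v, v < n → v < qn n H := fun v hv => by unfold qn; omega
  have hax : ∀ i, i < mx H → ax n (mx H) k i < qn n H := fun i hi => Q2_ax hk hi
  simp only [qe, List.mem_append, List.mem_map, List.mem_singleton] at hq
  rcases hq with ⟨⟨u, i⟩, hui, rfl⟩ | rfl
  · have hi : i < e.length := List.snd_lt_of_mem_zipIdx hui
    have hu : u ∈ e := List.fst_mem_of_mem_zipIdx hui
    have hhd : e.headD 0 < n := by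
      cases e with
      | nil => exact absurd rfl hne
      | cons b t => exact hlt b List.mem_cons_self
    unfold cn
    constructor
    · intro v hv
      cases h0 : isz i with
      | true =>
        simp only [h0, cond_true, List.mem_singleton] at hv
        rw [hv]
        exact hax _ (by omega)
      | false =>
        simp only [h0, cond_false, List.mem_cons, List.not_mem_nil, or_false] at hv
        rcases hv with rfl | rfl
        · exact hax _ (by omega)
        · exact hax _ (by omega)
    · intro v hv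
      simp only [List.mem_cons, List.not_mem_nil, or_false] at hv
      rcases hv with rfl | rfl | rfl
      · exact hn _ hhd
      · exact hn _ (hlt _ hu)
      · exact hax _ (by omega)
  · constructor
    · intro v hv
      simp only [List.mem_singleton] at hv
      rw [hv]
      exact hax _ (by omega)
    · intro v hv
      simp at hv

variable {α : Type} [En α]

private theorem Q2_mx {H : α → List (List ℕ)} (hH : PT H) : PT (fun a => mx (H a)) := by
  have h1 : PT (fun a => (H a).flatMap fun e => e) := PT.flatMap hH (PT.snd PT.id')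
  exact PT.succ (PT.length h1)

private theorem Q2_ax' {n m k i : α → ℕ} (hn : PT n) (hm : PT m) (hk : PT k) (hi : PT i) :
    PT (fun a => ax (n a) (m a) (k a) (i a)) :=
  PT.add hn (PT.add (PT.mul hk hm) hi)

private theorem Q2_cn {n m k u0 u i : α → ℕ} (hn : PT n) (hm : PT m) (hk : PT k) (h0 : PT u0)
    (hu : PT u) (hi : PT i) : PT (fun a => cn (n a) (m a) (k a) (u0 a) (u a) (i a)) := by
  have h1 := Q2_ax' hn hm hk hi
  have h2 := Q2_ax' hn hm hk (PT.pred hi)
  exact PT.pair (PT.cond (PT.isz hi) (PT.pair (PT.cons h1 (PT.const [])) (PT.const true))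
    (PT.pair (PT.cons h2 (PT.cons h1 (PT.const []))) (PT.const false)))
    (PT.pair (PT.cons h0 (PT.cons hu (PT.cons h1 (PT.const [])))) (PT.const true))

private theorem Q2_qe {n m k : α → ℕ} {e : α → List ℕ} (hn : PT n) (hm : PT m) (hk : PT k)
    (he : PT e) : PT (fun a => qe (n a) (m a) (k a) (e a)) := by
  have h1 : PT (fun a => ((e a).zipIdx.map fun p => cn (n a) (m a) (k a) ((e a).headD 0) p.1 p.2)) := by
    refine PT.map (F := fun a p => cn (n a) (m a) (k a) ((e a).headD 0) p.1 p.2) (PT.zipIdx he) ?_
    have f : PT (fun p : α × (ℕ × ℕ) => p.1) := PT.fst PT.id'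
    exact Q2_cn (hn.comp f) (hm.comp f) (hk.comp f) (PT.headD (he.comp f) (PT.const 0))
      (PT.fst (PT.snd PT.id')) (PT.snd (PT.snd PT.id'))
  refine PT.append h1 (PT.cons (PT.pair (PT.pair (PT.cons ?_ (PT.const [])) (PT.const false))
    (PT.const ([], true))) (PT.const []))
  exact Q2_ax' hn hm hk (PT.pred (PT.length he))

/-- Row Q2 -/
theorem PT_qsys {n : α → ℕ} {H : α → List (List ℕ)} (hn : PT n) (hH : PT H) :
    PT (fun a => qsys (n a) (H a)) := by
  have f : PT (fun p : α × (List ℕ × ℕ) => p.1) := PT.fst PT.id'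
  have h1 : PT (fun p : α × (List ℕ × ℕ) => qe (n p.1) (mx (H p.1)) p.2.2 p.2.1) :=
    Q2_qe (n := fun p : α × (List ℕ × ℕ) => n p.1) (m := fun p => mx (H p.1))
      (k := fun p => p.2.2) (e := fun p => p.2.1) (hn.comp f) ((Q2_mx hH).comp f)
      (PT.snd (PT.snd PT.id')) (PT.fst (PT.snd PT.id'))
  have h2 : PT (fun a => (H a).zipIdx.flatMap fun p => qe (n a) (mx (H a)) p.2 p.1) :=
    PT.flatMap (F := fun a (p : List ℕ × ℕ) => qe (n a) (mx (H a)) p.2 p.1) (PT.zipIdx hH) h1
  exact h2

/-- Row Q2 -/
theorem PT_qn {n : α → ℕ} {H : α → List (List ℕ)} (hn : PT n) (hH : PT H) :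
    PT (fun a => qn (n a) (H a)) :=
  PT.add hn (PT.add (PT.mul (PT.length hH) (Q2_mx hH)) (Q2_mx hH))

end Pool.Agent.AgpSsp
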