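import Pool.Agent.Lib.MP_a9d022_lc.Agp.Dec
import Pool.Agent.Lib.MP_a9d022_lc.Agp.Defs

/-! # Slow growth: reachability in the table of a ball -/

set_option autoImplicit false

namespace Pool.Agent.AgpSsp.SG

open Pool.Agent.MSR Pool.Agent.MSR.En Pool.Agent.SspConj

variable {α β : Type} [En α] [En β]

instance : EqPT Bool where
  eq := by
    have : PT (fun p : Bool × Bool => cond p.1 p.2 (!p.2)) := by fun_prop
    refine this.of_eq fun p => ?_
    obtain ⟨a, b⟩ := p
    cases a <;> cases b <;> rfl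

theorem listBool_eq_iff (l m : List Bool) : l = m ↔ l.length = m.length ∧
    ∀ i ∈ List.range l.length, l.getD i false = m.getD i false := by
  constructor
  · rintro rfl
    exact ⟨rfl, fun _ _ => rfl⟩
  · rintro ⟨h1, h2⟩
    apply List.ext_getElem h1
    intro i hi hi'
    have h3 := h2 i (List.mem_range.2 hi)
    rwa [List.getD_eq_getElem _ _ hi, List.getD_eq_getElem _ _ hi'] at h3

instance : EqPT (List Bool) where
  eq := by
    have h1 : PT (fun p : List Bool × List Bool => decide (p.1.length = p.2.length)) :=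
      PT.eq (PT.length (PT.fst PT.id')) (PT.length (PT.snd PT.id'))
    have h2 : PT (fun p : List Bool × List Bool => !((List.range p.1.length).any fun i =>
        !(decide (p.1.getD i false = p.2.getD i false)))) := by
      apply PT.not
      apply PT.any (PT.range (PT.length (PT.fst PT.id')))
      apply PT.not
      exact PT.eq (PT.getD (PT.snd PT.id') (PT.fst (PT.fst PT.id')) (PT.const _))
        (PT.getD (PT.snd PT.id') (PT.snd (PT.fst PT.id')) (PT.const _))
    refine (PT.and h1 h2).of_eq fun p => ?_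
    rw [Bool.eq_iff_iff, decide_eq_true_eq, listBool_eq_iff]
    simp

/-- letters in the typed instances: the index is a bit string -/
abbrev Lt : Type := List Bool × Bool

/-- labelled edges of the typed instances -/
abbrev TE : Type := List Bool × List Bool × List Lt

/-- multiplication table: entries `((c, letter), c')` -/
abbrev Tab : Type := List ((ℕ × Lt) × ℕ)

/-- `c` times the label `x` is `c'` according to the table -/
def mvb (tab : Tab) (c : ℕ) (x : List Lt) (c' : ℕ) : Bool :=
  lcase x (decide (c = c')) fun l _ => decide (((c, l), c') ∈ tab)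

/-- all states -/
def ust (N : ℕ) (E : List TE) (a : List Bool) : List (List Bool × ℕ) :=
  (a :: E.map fun e => e.2.1) ×ˢ List.range N

/-- one round -/
def stp (tab : Tab) (N : ℕ) (E : List TE) (a : List Bool) (S : List (List Bool × ℕ)) :
    List (List Bool × ℕ) :=
  (ust N E a).filter fun q => decide (q ∈ S) || E.any fun e => decide (e.2.1 = q.1) &&
    S.any fun p => decide (p.1 = e.1) && mvb tab p.2 e.2.2 q.2

/-- the states reachable from the vertex `a` and the neutral element -/
def rch (tab : Tab) (N : ℕ) (E : List TE) (a : List Bool) : List (List Bool × ℕ) :=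
  (stp tab N E a)^[E.length] [(a, 0)]

theorem mem_stp {tab : Tab} {N : ℕ} {E : List TE} {a : List Bool} {S : List (List Bool × ℕ)}
    {q : List Bool × ℕ} : q ∈ stp tab N E a S ↔ q ∈ ust N E a ∧ (q ∈ S ∨ ∃ e ∈ E, e.2.1 = q.1 ∧
      ∃ p ∈ S, p.1 = e.1 ∧ mvb tab p.2 e.2.2 q.2 = true) := by
  unfold stp
  rw [List.mem_filter]
  simp [List.any_eq_true]

theorem mem_ust {N : ℕ} {E : List TE} {a : List Bool} {q : List Bool × ℕ} :
    q ∈ ust N E a ↔ (q.1 = a ∨ ∃ e ∈ E, e.2.1 = q.1) ∧ q.2 < N := by
  unfold ust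
  obtain ⟨v, c⟩ := q
  rw [List.mem_product, List.mem_range, List.mem_cons, List.mem_map]

section

variable {G : Type} [Group G] {lv : Lt → G}

/-- the value of the label of a path -/
def vl (lv : Lt → G) (es : List TE) : G := (es.map fun e => (e.2.2.map lv).prod).prod

theorem vl_cons (e : TE) (es : List TE) : vl lv (e :: es) = (e.2.2.map lv).prod * vl lv es := rfl

theorem vl_snoc (e : TE) (es : List TE) : vl lv (es ++ [e]) = vl lv es * (e.2.2.map lv).prod := by
  unfold vl
  rw [List.map_append, List.prod_append]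
  simp

/-- walks -/
def IsWk : List TE → List Bool → List Bool → Prop
  | [], u, v => u = v
  | e :: es, u, v => e.1 = u ∧ IsWk es e.2.1 v

theorem isWk_append {es fs : List TE} : ∀ {u v : List Bool},
    IsWk (es ++ fs) u v ↔ ∃ w, IsWk es u w ∧ IsWk fs w v := by
  induction es with
  | nil => intro u v; simp [IsWk]
  | cons e es ih =>
    intro u v
    simp only [List.cons_append, IsWk, ih]
    constructor
    · rintro ⟨h, w, h1, h2⟩
      exact ⟨w, ⟨h, h1⟩, h2⟩
    · rintro ⟨w, ⟨h, h1⟩, h2⟩
      exact ⟨h, w, h1, h2⟩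

/-- the table `tab` is the multiplication table of the ball with elements
`el 0 = 1, el 1, ..., el (N - 1)`; `B i` is the ball of radius `i` and `n` is the radius of the
table -/
structure IsTab (lv : Lt → G) (ok : Lt → Prop) (B : ℕ → Set G) (n : ℕ) (tab : Tab) (N : ℕ)
    (el : ℕ → G) : Prop where
  pos : 0 < N
  one : el 0 = 1
  inj : ∀ c < N, ∀ c' < N, el c = el c' → c = c'
  sound : ∀ c l c', ((c, l), c') ∈ tab → el c' = el c * lv l
  compl : ∀ c < N, ∀ l : Lt, ok l → el c * lv l ∈ B n → ∃ c' < N, ((c, l), c') ∈ tab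

theorem mvb_sound {ok : Lt → Prop} {B : ℕ → Set G} {n : ℕ} {tab : Tab} {N : ℕ} {el : ℕ → G}
    (h : IsTab lv ok B n tab N el) {c c' : ℕ} {x : List Lt} (hx : x.length ≤ 1)
    (hm : mvb tab c x c' = true) : el c' = el c * (x.map lv).prod := by
  match x, hx with
  | [], _ =>
    have : c = c' := by simpa [mvb, lcase] using hm
    rw [this]
    simp
  | [l], _ =>
    have : ((c, l), c') ∈ tab := by simpa [mvb, lcase] using hm
    rw [h.sound _ _ _ this]
    simp

theorem rch_sound {ok : Lt → Prop} {B : ℕ → Set G} {n : ℕ} {tab : Tab} {N : ℕ} {el : ℕ → G}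
    (h : IsTab lv ok B n tab N el) {E : List TE} (hE : ∀ e ∈ E, e.2.2.length ≤ 1)
    {a : List Bool} : ∀ (k : ℕ) (q : List Bool × ℕ),
      q ∈ (stp tab N E a)^[k] [(a, 0)] → ∃ es : List TE, (∀ e ∈ es, e ∈ E) ∧ IsWk es a q.1 ∧
        vl lv es = el q.2 := by
  intro k
  induction k with
  | zero =>
    intro q hq
    have : q = (a, 0) := List.mem_singleton.1 hq
    subst this
    exact ⟨[], by simp, rfl, h.one.symm⟩
  | succ k ih =>
    intro q hq
    rw [Function.iterate_succ_apply', mem_stp] at hq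
    rcases hq.2 with hq | ⟨e, he, h1, p, hp, h2, h3⟩
    · exact ih q hq
    · obtain ⟨es, h4, h5, h6⟩ := ih p hp
      refine ⟨es ++ [e], ?_, isWk_append.2 ⟨p.1, h5, h2.symm, h1⟩, ?_⟩
      · intro f hf
        rcases List.mem_append.1 hf with hf | hf
        · exact h4 f hf
        · rw [List.mem_singleton.1 hf]; exact he
      · rw [vl_snoc, h6, mvb_sound h (hE e he) h3]

theorem rch_compl {ok : Lt → Prop} {B : ℕ → Set G} {n : ℕ} {tab : Tab} {N : ℕ} {el : ℕ → G}
    (h : IsTab lv ok B n tab N el) {E : List TE} (hE : ∀ e ∈ E, e.2.2.length ≤ 1)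
    (hok : ∀ e ∈ E, ∀ l ∈ e.2.2, ok l)
    (hB : ∀ es : List TE, (∀ e ∈ es, e ∈ E) → es.length ≤ n → vl lv es ∈ B n)
    {a : List Bool} : ∀ (es : List TE), (∀ e ∈ es, e ∈ E) → es.length ≤ n →
      ∀ v, IsWk es a v → ∃ c < N, el c = vl lv es ∧
        (v, c) ∈ (stp tab N E a)^[es.length] [(a, 0)] := by
  intro es
  induction es using List.reverseRecOn with
  | nil =>
    intro _ _ v hv
    have : a = v := hv
    subst this
    exact ⟨0, h.pos, h.one, by simp⟩
  | append_singleton es e ih =>
    intro hes hn v hv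
    obtain ⟨w, h1, h2, h3⟩ := isWk_append.1 hv
    have hball := hB _ hes hn
    rw [List.length_append, List.length_singleton] at hn
    have h3' : e.2.1 = v := h3
    obtain ⟨c, hc, h4, h5⟩ := ih (fun e he => hes e (List.mem_append_left _ he)) (by omega) w h1
    have he : e ∈ E := hes e (List.mem_append_right _ (List.mem_singleton.2 rfl))
    have hl1 := hE e he
    have key : ∃ c' < N, el c' = vl lv (es ++ [e]) ∧ mvb tab c e.2.2 c' = true := by
      rw [vl_snoc, ← h4] at hball
      rw [vl_snoc, ← h4]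
      match hx : e.2.2, hl1 with
      | [], _ => exact ⟨c, hc, by simp, by simp [mvb, lcase]⟩
      | [l], _ =>
        have hl : ok l := hok e he l (by rw [hx]; exact List.mem_singleton.2 rfl)
        have hev : (e.2.2.map lv).prod = lv l := by rw [hx]; simp
        rw [hev] at hball
        obtain ⟨c', hc', h6⟩ := h.compl c hc l hl hball
        refine ⟨c', hc', ?_, by simpa [mvb, lcase] using h6⟩
        rw [h.sound _ _ _ h6]
        simp
    obtain ⟨c', hc', h6, h7⟩ := key
    refine ⟨c', hc', h6, ?_⟩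
    rw [List.length_append, List.length_singleton, Function.iterate_succ_apply', mem_stp]
    exact ⟨mem_ust.2 ⟨Or.inr ⟨e, he, h3'⟩, hc'⟩, Or.inr ⟨e, he, h3', (w, c), h5, h2.symm, h7⟩⟩

theorem stp_mono {tab : Tab} {N : ℕ} {E : List TE} {a : List Bool} {q : List Bool × ℕ}
    (hN : 0 < N) : ∀ k, q ∈ (stp tab N E a)^[k] [(a, 0)] →
      q ∈ (stp tab N E a)^[k + 1] [(a, 0)] := by
  intro k hq
  have hu : q ∈ ust N E a := by
    cases k with
    | zero =>
      have : q = (a, 0) := List.mem_singleton.1 hq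
      subst this
      exact mem_ust.2 ⟨Or.inl rfl, hN⟩
    | succ k =>
      rw [Function.iterate_succ_apply', mem_stp] at hq
      exact hq.1
  rw [Function.iterate_succ_apply', mem_stp]
  exact ⟨hu, Or.inl hq⟩

theorem stp_mono' {tab : Tab} {N : ℕ} {E : List TE} {a : List Bool} {q : List Bool × ℕ}
    (hN : 0 < N) {k l : ℕ} (hkl : k ≤ l) (hq : q ∈ (stp tab N E a)^[k] [(a, 0)]) :
    q ∈ (stp tab N E a)^[l] [(a, 0)] := by
  induction l, hkl using Nat.le_induction with
  | base => exact hq
  | succ l _ ih => exact stp_mono hN l ih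

/-- the algorithm for slow growth is correct -/
theorem rch_iff {ok : Lt → Prop} {B : ℕ → Set G} {n : ℕ} {tab : Tab} {N : ℕ} {el : ℕ → G}
    (h : IsTab lv ok B n tab N el) {E : List TE} (hE : ∀ e ∈ E, e.2.2.length ≤ 1)
    (hok : ∀ e ∈ E, ∀ l ∈ e.2.2, ok l)
    (hB : ∀ es : List TE, (∀ e ∈ es, e ∈ E) → es.length ≤ n → vl lv es ∈ B n)
    {a o : List Bool} (hA : ∀ es : List TE, (∀ e ∈ es, e ∈ E) → IsWk es a o →
      es.length ≤ E.length) (hn : E.length ≤ n) :
    (o, 0) ∈ rch tab N E a ↔ ∃ es : List TE, (∀ e ∈ es, e ∈ E) ∧ IsWk es a o ∧ vl lv es = 1 := by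
  constructor
  · intro h1
    obtain ⟨es, h2, h3, h4⟩ := rch_sound h hE _ _ h1
    exact ⟨es, h2, h3, h4.trans h.one⟩
  · rintro ⟨es, h1, h2, h3⟩
    have h4 := hA es h1 h2
    obtain ⟨c, hc, h5, h6⟩ := rch_compl h hE hok hB es h1 (h4.trans hn) o h2
    have h7 : c = 0 := h.inj c hc 0 h.pos (by rw [h5, h3, h.one])
    rw [h7] at h6
    exact stp_mono' h.pos h4 h6

end

/-! ### polynomial time -/

theorem sz_filter_le {l : List β} {p : β → Bool} : sz (l.filter p) ≤ sz l := by
  induction l with
  | nil => simp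
  | cons b l ih =>
    rw [List.filter_cons]
    split
    · rw [sz_cons, sz_cons]; omega
    · rw [sz_cons]; omega

theorem PT_mem' [DecidableEq β] [EqPT β] {f : α → β} {l : α → List β} (hf : PT f) (hl : PT l)
    {i : ∀ a, Decidable (f a ∈ l a)} : PT (fun a => decide (f a ∈ l a)) :=
  (PT.mem hf hl).of_eq fun a => by congr

theorem PT_mvb {tab : α → Tab} {c c' : α → ℕ} {x : α → List Lt} (ht : PT tab) (hc : PT c)
    (hx : PT x) (hc' : PT c') : PT (fun a => mvb (tab a) (c a) (x a) (c' a)) := by
  unfold mvb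
  apply PT.lcase hx (PT.eq hc hc')
  have h1 : PT (fun p : α × Lt × List Lt => ((c p.1, p.2.1), c' p.1)) :=
    PT.pair (PT.pair (hc.comp (PT.fst PT.id')) (PT.fst (PT.snd PT.id')))
      (hc'.comp (PT.fst PT.id'))
  exact PT_mem' h1 (ht.comp (PT.fst PT.id'))

theorem PT_ust {N : α → ℕ} {E : α → List TE} {a : α → List Bool} (hN : PT N) (hE : PT E)
    (ha : PT a) : PT (fun z => ust (N z) (E z) (a z)) := by
  unfold ust
  apply PT.product
  · apply PT.cons ha
    exact PT.map hE (PT.fst (PT.snd (PT.snd PT.id')))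
  · exact PT.range hN

theorem PT_stp {tab : α → Tab} {N : α → ℕ} {E : α → List TE} {a : α → List Bool}
    {S : α → List (List Bool × ℕ)} (ht : PT tab) (hN : PT N) (hE : PT E) (ha : PT a) (hS : PT S) :
    PT (fun z => stp (tab z) (N z) (E z) (a z) (S z)) := by
  unfold stp
  apply PT.filter (PT_ust hN hE ha)
  apply PT.or
  · exact PT_mem' (PT.snd PT.id') (hS.comp (PT.fst PT.id'))
  · apply PT.any (hE.comp (PT.fst PT.id'))
    apply PT.and
    · exact PT.eq (PT.fst (PT.snd (PT.snd PT.id'))) (PT.fst (PT.snd (PT.fst PT.id')))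
    · apply PT.any (hS.comp (PT.fst (PT.fst PT.id')))
      apply PT.and
      · exact PT.eq (PT.fst (PT.snd PT.id')) (PT.fst (PT.snd (PT.fst PT.id')))
      · apply PT_mvb
        · exact ht.comp (PT.fst (PT.fst (PT.fst PT.id')))
        · exact PT.snd (PT.snd PT.id')
        · exact PT.snd (PT.snd (PT.snd (PT.fst PT.id')))
        · exact PT.snd (PT.snd (PT.fst (PT.fst PT.id')))

theorem PT_rch {tab : α → Tab} {N : α → ℕ} {E : α → List TE} {a : α → List Bool}
    (ht : PT tab) (hN : PT N) (hE : PT E) (ha : PT a) :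
    PT (fun z => rch (tab z) (N z) (E z) (a z)) := by
  unfold rch
  have h0 : PT (fun z => [(a z, 0)]) := PT.cons (PT.pair ha (PT.const 0)) (PT.const [])
  apply PT.iter (g := fun z S => stp (tab z) (N z) (E z) (a z) S) (PT.length hE) h0
  · exact PT_stp (ht.comp (PT.fst PT.id')) (hN.comp (PT.fst PT.id')) (hE.comp (PT.fst PT.id'))
      (ha.comp (PT.fst PT.id')) (PT.snd PT.id')
  · obtain ⟨d, hd⟩ := (PT_ust hN hE ha).bound
    obtain ⟨e, he⟩ := h0.bound
    refine ⟨fun n => (n + 2) ^ d + (n + 2) ^ e, ((PB.id.add (PB.const 2)).pow d).add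
      ((PB.id.add (PB.const 2)).pow e), ?_⟩
    intro z k _
    cases k with
    | zero =>
      have := he z
      simp only [Function.iterate_zero, id_eq]
      omega
    | succ k =>
      rw [Function.iterate_succ_apply']
      have h1 : sz (stp (tab z) (N z) (E z) (a z)
          ((fun S => stp (tab z) (N z) (E z) (a z) S)^[k] [(a z, 0)])) ≤
          sz (ust (N z) (E z) (a z)) := sz_filter_le
      have := hd z
      simp only
      omega

end Pool.Agent.AgpSsp.SG
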