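import Mathlib

/-! # Subset products -/

set_option autoImplicit false

namespace Pool.Agent.AgpSsp

variable {G : Type} [Group G]

/-- `x` is the product of a sublist of `l` -/
def Sub (l : List G) (x : G) : Prop := ∃ u : List G, u.Sublist l ∧ u.prod = x

theorem sub_nil (x : G) : Sub [] x ↔ x = 1 := by
  constructor
  · rintro ⟨u, hu, rfl⟩
    rw [List.sublist_nil.1 hu, List.prod_nil]
  · rintro rfl
    exact ⟨[], List.Sublist.slnil, rfl⟩

theorem sub_cons (a : G) (l : List G) (x : G) :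
    Sub (a :: l) x ↔ ∃ (b : Bool) (y : G), Sub l y ∧ x = (if b then a else 1) * y := by
  constructor
  · rintro ⟨u, hu, rfl⟩
    rcases List.sublist_cons_iff.1 hu with h | ⟨v, rfl, h⟩
    · exact ⟨false, u.prod, ⟨u, h, rfl⟩, by simp⟩
    · exact ⟨true, v.prod, ⟨v, h, rfl⟩, by simp⟩
  · rintro ⟨b, y, ⟨u, hu, rfl⟩, rfl⟩
    cases b
    · exact ⟨u, hu.cons a, by simp⟩
    · exact ⟨a :: u, hu.cons_cons a, by simp⟩

theorem sub_append (l m : List G) (x : G) :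
    Sub (l ++ m) x ↔ ∃ y z : G, Sub l y ∧ Sub m z ∧ x = y * z := by
  constructor
  · rintro ⟨u, hu, rfl⟩
    obtain ⟨u1, u2, rfl, h1, h2⟩ := List.sublist_append_iff.1 hu
    exact ⟨u1.prod, u2.prod, ⟨u1, h1, rfl⟩, ⟨u2, h2, rfl⟩, List.prod_append⟩
  · rintro ⟨y, z, ⟨u, hu, rfl⟩, ⟨v, hv, rfl⟩, rfl⟩
    exact ⟨u ++ v, hu.append hv, List.prod_append⟩

end Pool.Agent.AgpSsp
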